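import Mathlib

/-!
# MP_109285_co, module BR: block reversals (Lemma (Q) of helper68, Theorem V of helper99)

A pattern on `[0, m]` is a relation `A` on pairs `i < j` containing the units `(i, i+1)`.  A block
reversal cuts `[0, m]` into consecutive runs; each run is traversed upwards by unit steps, the runs in
descending order; the only other steps are the down steps from the maximum `h'` of a run to the minimum
`l` of the run before it.
-/

set_option autoImplicit false

namespace Pool.Agent.Sul

/-- The number of descents of a list. -/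
def des : List ℕ → ℕ
  | [] => 0
  | [_] => 0
  | x :: y :: l => (if y < x then 1 else 0) + des (y :: l)

/-- The number of ascents of size at least `2` of a list. -/
def jmp : List ℕ → ℕ
  | [] => 0
  | [_] => 0
  | x :: y :: l => (if x + 2 ≤ y then 1 else 0) + jmp (y :: l)

/-- A walk of length `t` from `i` to `j` for the relation `A`. -/
inductive Walk (A : ℕ → ℕ → Prop) : ℕ → ℕ → ℕ → Prop
  | nil (i : ℕ) : Walk A 0 i i
  | snoc (t i j k : ℕ) : Walk A t i j → A j k → Walk A (t + 1) i k

/-- `BRR x h r`: `[0, h]` is cut into `r` consecutive runs, the last one is `[x, h]`, the first one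
has end points in `A` (or is a point), the union of two consecutive runs has its end points in `S`. -/
inductive BRR (A S : ℕ → ℕ → Prop) : ℕ → ℕ → ℕ → Prop
  | base0 : BRR A S 0 0 1
  | base (h : ℕ) : A 0 h → BRR A S 0 h 1
  | step (x h h' r : ℕ) : BRR A S x h r → h < h' → S x h' → BRR A S (h + 1) h' (r + 1)

/-- The predicate `E(b)` of the proof of Lemma (Q). -/
inductive BE (A S : ℕ → ℕ → Prop) : ℕ → Prop
  | zero : BE A S 0
  | one (b r : ℕ) : A b (b + 1) → BRR A S b b r → BE A S (b + 1)
  | two (x b r : ℕ) : A x (b + 1) → BRR A S x b r → BE A S x → BE A S (b + 1)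

/-- At least two of `a(k)`, `b(k)`, `c(k)`. -/
def Two (a b c : Prop) : Prop := (a ∧ b) ∨ (a ∧ c) ∨ (b ∧ c)

section Q

variable {A S : ℕ → ℕ → Prop}

theorem BRR.le {x h r : ℕ} (hb : BRR A S x h r) : x ≤ h := by
  cases hb with
  | base0 => exact le_rfl
  | base _ _ => exact Nat.zero_le _
  | step x h h' r _ hlt _ => omega

/-- Lemma D of the proof of (Q). -/
theorem lemD (m : ℕ) (hc : ∀ i j k, k ≤ m → A i j → A j k → A i k ∨ S i k) (k : ℕ) (hk : k ≤ m)
    (hlt : ∀ i j, A i j → i < j)
    (hind : ∀ k' < k, Two (∃ r, BRR A S k' k' r) (BE A S k')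
      (∃ x r, A x k' ∧ BRR A S x k' r ∧ BE A S x)) (e : ℕ) (hek : A e k) (hE : BE A S e) :
    ∃ x r, A x k ∧ BRR A S x k r ∧ BE A S x := by
  induction e using Nat.strong_induction_on with
  | _ e ih =>
    have hlt1 := hlt e k hek
    cases hE with
    | zero => exact ⟨0, 1, hek, BRR.base k hek, BE.zero⟩
    | two x b r hx hb hEx =>
      rcases hc x (b + 1) k hk hx hek with h1 | h1
      · exact ih x (by have := hb.le; omega) h1 hEx
      · exact ⟨b + 1, r + 1, hek, BRR.step x b k r hb (by omega) h1, BE.two x b r hx hb hEx⟩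
    | one b r hx hb =>
      have hE1 : BE A S (b + 1) := BE.one b r hx hb
      rcases hc b (b + 1) k hk hx hek with h1 | h1
      · by_cases hEb : BE A S b
        · exact ih b (by omega) h1 hEb
        · have h2 := hind b (by omega)
          have h3 : ∃ x r, A x b ∧ BRR A S x b r ∧ BE A S x := by
            rcases h2 with h2 | h2 | h2
            · exact absurd h2.2 hEb
            · exact h2.2
            · exact absurd h2.1 hEb
          obtain ⟨x, r', hxb, hbr, hEx⟩ := h3
          have hxlt := hlt x b hxb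
          rcases hc x b k hk hxb h1 with h4 | h4
          · exact ih x (by omega) h4 hEx
          · exact ⟨b + 1, r' + 1, hek, BRR.step x b k r' hbr (by omega) h4, hE1⟩
      · exact ⟨b + 1, r + 1, hek, BRR.step b b k r hb (by omega) h1, hE1⟩

/-- The induction of Lemma (Q): at every vertex at least two of the three states are reached. -/
theorem two_states (m : ℕ) (hu : ∀ i < m, A i (i + 1)) (hlt : ∀ i j, A i j → i < j)
    (hc : ∀ i j k, k ≤ m → A i j → A j k → A i k ∨ S i k) (k : ℕ) (hk : k ≤ m) :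
    Two (∃ r, BRR A S k k r) (BE A S k) (∃ x r, A x k ∧ BRR A S x k r ∧ BE A S x) := by
  induction k using Nat.strong_induction_on with
  | _ k ih =>
    rcases k with _ | k
    · exact Or.inl ⟨⟨1, BRR.base0⟩, BE.zero⟩
    · have hD := lemD m hc (k + 1) hk hlt (fun k' hk' => ih k' hk' (by omega))
      have hukk := hu k (by omega)
      -- (1)
      have h1 : (∃ r, BRR A S k k r) → BE A S (k + 1) := fun ⟨r, hr⟩ => BE.one k r hukk hr
      -- (2)
      have h2 : BE A S k → ∃ x r, A x (k + 1) ∧ BRR A S x (k + 1) r ∧ BE A S x :=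
        fun h => hD k hukk h
      -- (3)
      have h3 : (∃ x r, A x k ∧ BRR A S x k r ∧ BE A S x) →
          (∃ r, BRR A S (k + 1) (k + 1) r) ∨
            (BE A S (k + 1) ∧ ∃ x r, A x (k + 1) ∧ BRR A S x (k + 1) r ∧ BE A S x) := by
        rintro ⟨x, r, hxk, hb, hE⟩
        rcases hc x k (k + 1) hk hxk hukk with h4 | h4
        · exact Or.inr ⟨BE.two x k r h4 hb hE, hD x h4 hE⟩
        · exact Or.inl ⟨r + 1, BRR.step x k (k + 1) r hb (by omega) h4⟩
      rcases ih k (by omega) (by omega) with ⟨ha, hb⟩ | ⟨ha, hc'⟩ | ⟨hb, hc'⟩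
      · exact Or.inr (Or.inr ⟨h1 ha, h2 hb⟩)
      · rcases h3 hc' with h4 | h4
        · exact Or.inl ⟨h4, h1 ha⟩
        · exact Or.inr (Or.inr h4)
      · rcases h3 hc' with h4 | h4
        · exact Or.inr (Or.inl ⟨h4, h2 hb⟩)
        · exact Or.inr (Or.inr h4)

theorem Walk.trans_step {t i j k : ℕ} (h : Walk A t i j) (h1 : A j k) : Walk A (t + 1) i k :=
  Walk.snoc t i j k h h1

/-- Distances along a block reversal, if `S` consists of compositions of `A`: there are walks from `0`
to the start `x` of the last run and to its end `h`. (`2 t ≤ 3 r - 1`.) -/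
theorem BRR.walk (m : ℕ) (hu : ∀ i < m, A i (i + 1)) (hS : ∀ i k, S i k → ∃ j, A i j ∧ A j k)
    {x h r : ℕ} (hb : BRR A S x h r) (hm : h ≤ m) :
    (∃ t, 2 * t + 3 ≤ 3 * r ∧ (r % 2 = 1) ∧ Walk A t 0 x) ∨
    (∃ t, 2 * t + 2 ≤ 3 * r ∧ (r % 2 = 0) ∧ Walk A t 0 h) := by
  induction hb with
  | base0 => exact Or.inl ⟨0, by omega, by omega, Walk.nil 0⟩
  | base h hA => exact Or.inl ⟨0, by omega, by omega, Walk.nil 0⟩
  | step x h h' r hb hlt hs ih =>
    rcases ih (by omega) with ⟨t, ht, hr, hw⟩ | ⟨t, ht, hr, hw⟩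
    · right
      obtain ⟨j, h1, h2⟩ := hS x h' hs
      exact ⟨t + 2, by omega, by omega, (hw.trans_step h1).trans_step h2⟩
    · left
      exact ⟨t + 1, by omega, by omega, hw.trans_step (hu h (by omega))⟩

end Q

/-! ### From runs to lists -/

/-- The interval `[x, x+1, …, x+n]` as a list. -/
def up (x : ℕ) : ℕ → List ℕ
  | 0 => [x]
  | n + 1 => x :: up (x + 1) n

theorem up_ne_nil (x n : ℕ) : up x n ≠ [] := by
  cases n <;> simp [up]

theorem mem_up (x n y : ℕ) : y ∈ up x n ↔ x ≤ y ∧ y ≤ x + n := by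
  induction n generalizing x with
  | zero =>
    simp only [up, List.mem_singleton]
    omega
  | succ n ih =>
    simp only [up, List.mem_cons, ih]
    omega

theorem up_head (x n : ℕ) : (up x n).head? = some x := by
  cases n <;> simp [up]

theorem up_getLast (x n : ℕ) : (up x n).getLast? = some (x + n) := by
  induction n generalizing x with
  | zero => simp [up]
  | succ n ih =>
    have h1 : up x (n + 1) = x :: up (x + 1) n := rfl
    rw [h1]
    obtain ⟨y, l, hl⟩ := List.exists_cons_of_ne_nil (up_ne_nil (x + 1) n)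
    rw [hl, List.getLast?_cons_cons, ← hl, ih]
    congr 1
    omega

theorem up_nodup (x n : ℕ) : (up x n).Nodup := by
  induction n generalizing x with
  | zero => simp [up]
  | succ n ih =>
    simp only [up, List.nodup_cons, mem_up]
    exact ⟨by omega, ih (x + 1)⟩

theorem up_chain (R : ℕ → ℕ → Prop) (x n : ℕ) (h : ∀ i, x ≤ i → i < x + n → R i (i + 1)) :
    (up x n).IsChain R := by
  induction n generalizing x with
  | zero => simp [up]
  | succ n ih =>
    have h1 : up x (n + 1) = x :: up (x + 1) n := rfl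
    rw [h1, List.isChain_cons]
    refine ⟨?_, ih (x + 1) fun i h1 h2 => h i (by omega) (by omega)⟩
    intro y hy
    rw [up_head] at hy
    simp only [Option.mem_def, Option.some.injEq] at hy
    rw [← hy]
    exact h x le_rfl (by omega)

theorem des_up (x n : ℕ) : des (up x n) = 0 := by
  induction n generalizing x with
  | zero => simp [up, des]
  | succ n ih =>
    have h1 : up x (n + 1) = x :: up (x + 1) n := rfl
    rw [h1]
    have h2 := ih (x + 1)
    cases n with
    | zero => simp [up, des]
    | succ n =>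
      have h3 : up (x + 1) (n + 1) = (x + 1) :: up (x + 1 + 1) n := rfl
      rw [h3] at h2 ⊢
      simp only [des, h2]
      simp

theorem jmp_up (x n : ℕ) : jmp (up x n) = 0 := by
  induction n generalizing x with
  | zero => simp [up, jmp]
  | succ n ih =>
    have h1 : up x (n + 1) = x :: up (x + 1) n := rfl
    rw [h1]
    have h2 := ih (x + 1)
    cases n with
    | zero => simp [up, jmp]
    | succ n =>
      have h3 : up (x + 1) (n + 1) = (x + 1) :: up (x + 1 + 1) n := rfl
      rw [h3] at h2 ⊢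
      simp only [jmp, h2]
      simp

theorem des_append (l₁ l₂ : List ℕ) (a b : ℕ) (h1 : l₁.getLast? = some a) (h2 : l₂.head? = some b) :
    des (l₁ ++ l₂) = des l₁ + (if b < a then 1 else 0) + des l₂ := by
  induction l₁ with
  | nil => simp at h1
  | cons x l ih =>
    cases l with
    | nil =>
      simp only [List.getLast?_singleton, Option.some.injEq] at h1
      subst h1
      cases l₂ with
      | nil => simp at h2
      | cons y l₂ =>
        simp only [List.head?_cons, Option.some.injEq] at h2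
        subst h2
        simp [des]
    | cons y l =>
      rw [List.getLast?_cons_cons] at h1
      have h3 := ih h1
      simp only [List.cons_append, des] at h3 ⊢
      rw [h3]
      omega

theorem jmp_append (l₁ l₂ : List ℕ) (a b : ℕ) (h1 : l₁.getLast? = some a) (h2 : l₂.head? = some b) :
    jmp (l₁ ++ l₂) = jmp l₁ + (if a + 2 ≤ b then 1 else 0) + jmp l₂ := by
  induction l₁ with
  | nil => simp at h1
  | cons x l ih =>
    cases l with
    | nil =>
      simp only [List.getLast?_singleton, Option.some.injEq] at h1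
      subst h1
      cases l₂ with
      | nil => simp at h2
      | cons y l₂ =>
        simp only [List.head?_cons, Option.some.injEq] at h2
        subst h2
        simp [jmp]
    | cons y l =>
      rw [List.getLast?_cons_cons] at h1
      have h3 := ih h1
      simp only [List.cons_append, jmp] at h3 ⊢
      rw [h3]
      omega

/-- A valid rearrangement `w` of the window `[a, b]`. -/
structure Rear (A S : ℕ → ℕ → Prop) (a b : ℕ) (w : List ℕ) : Prop where
  nodup : w.Nodup
  mem : ∀ x, x ∈ w ↔ a ≤ x ∧ x ≤ b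
  chain : w.IsChain (fun i j => (i < j ∧ A i j) ∨ (j < i ∧ S j i))

/-- The list of a block reversal. -/
theorem BRR.list {A S : ℕ → ℕ → Prop} (m : ℕ) (hu : ∀ i < m, A i (i + 1)) {x h r : ℕ}
    (hb : BRR A S x h r) (hm : h ≤ m) :
    ∃ w : List ℕ, Rear A S 0 h w ∧ des w + 1 = r ∧ jmp w = 0 ∧ w.head? = some x := by
  have hup : ∀ x h : ℕ, x ≤ h → h ≤ m →
      (up x (h - x)).IsChain (fun i j => (i < j ∧ A i j) ∨ (j < i ∧ S j i)) :=
    fun x h _ _ => up_chain _ _ _ fun i _ _ => Or.inl ⟨by omega, hu i (by omega)⟩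
  induction hb with
  | base0 =>
    refine ⟨up 0 (0 - 0), ⟨up_nodup _ _, fun y => ?_, hup 0 0 le_rfl (by omega)⟩, ?_, jmp_up _ _,
      up_head _ _⟩
    · rw [mem_up]
    · rw [des_up]
  | base h hA =>
    refine ⟨up 0 (h - 0), ⟨up_nodup _ _, fun y => ?_, hup 0 h (Nat.zero_le _) (by omega)⟩, ?_,
      jmp_up _ _, up_head _ _⟩
    · rw [mem_up]
      omega
    · rw [des_up]
  | step x h h' r hb hlt hs ih =>
    obtain ⟨w, hw, hd, hj, hh⟩ := ih (by omega)
    have hxh := hb.le
    have hlast : (up (h + 1) (h' - (h + 1))).getLast? = some h' := by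
      rw [up_getLast]
      congr 1
      omega
    refine ⟨up (h + 1) (h' - (h + 1)) ++ w, ⟨?_, fun y => ?_, ?_⟩, ?_, ?_, ?_⟩
    · rw [List.nodup_append]
      refine ⟨up_nodup _ _, hw.nodup, ?_⟩
      intro a ha b hb' hab
      rw [mem_up] at ha
      rw [hw.mem] at hb'
      omega
    · rw [List.mem_append, mem_up, hw.mem]
      omega
    · rw [List.isChain_append]
      refine ⟨hup (h + 1) h' (by omega) hm, hw.chain, ?_⟩
      intro a ha b hb'
      rw [hlast] at ha
      rw [hh] at hb'
      simp only [Option.mem_def, Option.some.injEq] at ha hb'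
      subst ha
      subst hb'
      exact Or.inr ⟨by omega, hs⟩
    · rw [des_append _ _ _ _ hlast hh, des_up, if_pos (by omega)]
      omega
    · rw [jmp_append _ _ _ _ hlast hh, jmp_up, hj, if_neg (by omega)]
    · rw [List.head?_append_of_ne_nil _ (up_ne_nil _ _)]
      exact up_head _ _

/-- **Lemma (Q)** (helper68, note 2449), generalised.  `A` contains the units of `[0, m]` and all
compositions of `A` are in `A` or in `S`.  Then there is a block reversal `w` of `[0, m]` with unit
up steps and all down steps in `S` such that there is an `A`-walk from `0` to `m` of length `t` with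
`2 t + 1 ≤ 3 (des w + 1)`. -/
theorem lemQ {A S : ℕ → ℕ → Prop} (m : ℕ) (hu : ∀ i < m, A i (i + 1))
    (hlt : ∀ i j, A i j → i < j) (hc : ∀ i j k, k ≤ m → A i j → A j k → A i k ∨ S i k) :
    ∃ w : List ℕ, Rear A S 0 m w ∧ jmp w = 0 ∧
      ∃ t, Walk A t 0 m ∧ 2 * t + 1 ≤ 3 * (des w + 1) := by
  obtain ⟨S', hS'⟩ : ∃ S' : ℕ → ℕ → Prop, S' = fun i k => S i k ∧ ∃ j, A i j ∧ A j k := ⟨_, rfl⟩
  have hc' : ∀ i j k, k ≤ m → A i j → A j k → A i k ∨ S' i k := by
    intro i j k hk h1 h2
    rcases hc i j k hk h1 h2 with h3 | h3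
    · exact Or.inl h3
    · right
      rw [hS']
      exact ⟨h3, j, h1, h2⟩
  have h2 := two_states m hu hlt hc' m le_rfl
  have h3 : ∃ x r, BRR A S' x m r ∧ (x = m ∨ A x m) := by
    rcases h2 with ⟨⟨r, hr⟩, _⟩ | ⟨⟨r, hr⟩, _⟩ | ⟨_, x, r, h4, h5, _⟩
    · exact ⟨m, r, hr, Or.inl rfl⟩
    · exact ⟨m, r, hr, Or.inl rfl⟩
    · exact ⟨x, r, h5, Or.inr h4⟩
  obtain ⟨x, r, hb, hx⟩ := h3
  obtain ⟨w, hw, hd, hj, hh⟩ := hb.list m hu le_rfl
  refine ⟨w, ⟨hw.nodup, hw.mem, ?_⟩, hj, ?_⟩
  · refine hw.chain.imp ?_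
    rintro a b (h4 | h4)
    · exact Or.inl h4
    · rw [hS'] at h4
      exact Or.inr ⟨h4.1, h4.2.1⟩
  · rcases hb.walk m hu (fun i k h4 => by rw [hS'] at h4; exact h4.2) le_rfl with
      ⟨t, ht, _, hwk⟩ | ⟨t, ht, _, hwk⟩
    · rcases hx with rfl | hx
      · exact ⟨t, hwk, by omega⟩
      · exact ⟨t + 1, hwk.trans_step hx, by omega⟩
    · exact ⟨t, hwk, by omega⟩

/-! ### Theorem V -/

/-- The usual down relation of a pattern: not in `A`, at `A`-distance `2`. -/
def Sc (A : ℕ → ℕ → Prop) (i k : ℕ) : Prop := ¬ A i k ∧ ∃ j, A i j ∧ A j k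

/-- `BV A x h r`: `[0, h]` is cut into `r` runs, the last one is `[x, h]`, every run has end points in
`A` (or is a point), and for consecutive runs `[l, h]`, `[h+1, h']`: `(l, h')` is not in `A`, and
`(l, h+1)` or `(h, h')` is in `A`. -/
inductive BV (A : ℕ → ℕ → Prop) : ℕ → ℕ → ℕ → Prop
  | base0 : BV A 0 0 1
  | base (h : ℕ) : A 0 h → BV A 0 h 1
  | step (x h h' r : ℕ) : BV A x h r → h < h' → (h' = h + 1 ∨ A (h + 1) h') → ¬ A x h' →
      (A x (h + 1) ∨ A h h') → BV A (h + 1) h' (r + 1)

/-- The grounded vertices of the proof of Theorem V. -/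
inductive BG (A : ℕ → ℕ → Prop) : ℕ → Prop
  | zero : BG A 0
  | one (x r : ℕ) : BV A x x r → BG A (x + 1)
  | two (x y r : ℕ) : BV A y x r → A y (x + 1) → BG A y → BG A (x + 1)

section V

variable {A : ℕ → ℕ → Prop}

theorem BV.le {x h r : ℕ} (hb : BV A x h r) : x ≤ h := by
  cases hb with
  | base0 => exact le_rfl
  | base _ _ => exact Nat.zero_le _
  | step x h h' r _ hlt _ _ _ => omega

theorem BV.ends {x h r : ℕ} (hb : BV A x h r) : x = h ∨ A x h := by
  cases hb with
  | base0 => exact Or.inl rfl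
  | base _ h => exact Or.inr h
  | step x h h' r _ _ h1 _ _ =>
    rcases h1 with h1 | h1
    · exact Or.inl h1.symm
    · exact Or.inr h1

theorem BV.toBRR {x h r : ℕ} (hb : BV A x h r) : BRR A (Sc A) x h r := by
  induction hb with
  | base0 => exact BRR.base0
  | base h hA => exact BRR.base h hA
  | step x h h' r hb hlt h1 h2 h3 ih =>
    refine BRR.step x h h' r ih hlt ⟨h2, ?_⟩
    rcases h3 with h3 | h3
    · rcases h1 with h1 | h1
      · rw [h1] at h2
        exact absurd h3 h2
      · exact ⟨h + 1, h3, h1⟩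
    · rcases hb.ends with h4 | h4
      · rw [h4] at h2
        exact absurd h3 h2
      · exact ⟨h, h4, h3⟩

theorem BV.walk (m : ℕ) (hu : ∀ i < m, A i (i + 1)) {x h r : ℕ} (hb : BV A x h r) (hm : h ≤ m) :
    ∃ t, t + 2 ≤ 2 * r ∧ Walk A t 0 x := by
  induction hb with
  | base0 => exact ⟨0, by omega, Walk.nil 0⟩
  | base h hA => exact ⟨0, by omega, Walk.nil 0⟩
  | step x h h' r hb hlt _ _ _ ih =>
    obtain ⟨t, ht, hw⟩ := ih (by omega)
    rcases hb.ends with h4 | h4
    · rw [h4] at hw
      exact ⟨t + 1, by omega, hw.trans_step (hu h (by omega))⟩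
    · exact ⟨t + 2, by omega, (hw.trans_step h4).trans_step (hu h (by omega))⟩

/-- The claim of the proof of Theorem V. -/
theorem claimZ (m : ℕ) (hu : ∀ i < m, A i (i + 1)) (hlt : ∀ i j, A i j → i < j) (k : ℕ)
    (hk : k ≤ m) : ∃ x r, BV A x k r ∧ BG A x := by
  induction k using Nat.strong_induction_on with
  | _ k ih =>
    rcases k with _ | k
    · exact ⟨0, 1, BV.base0, BG.zero⟩
    · have huk := hu k (by omega)
      have hJ : ∀ j, j + 1 ≤ k → (¬ ∃ r, BV A (j + 1) (j + 1) r) → BG A (j + 1) := by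
        intro j hj hnot
        obtain ⟨y, r, hy, hG⟩ := ih j (by omega) (by omega)
        by_cases hyA : A y (j + 1)
        · exact BG.two j y r hy hyA hG
        · exact absurd ⟨r + 1, BV.step y j (j + 1) r hy (by omega) (Or.inl rfl) hyA
            (Or.inr (hu j (by omega)))⟩ hnot
      by_cases hcase : ∃ y, A y (k + 1) ∧ BG A y
      · classical
        have hy := Nat.find_spec hcase
        have hmin : ∀ z < Nat.find hcase, ¬ (A z (k + 1) ∧ BG A z) :=
          fun z hz => Nat.find_min hcase hz
        obtain ⟨y, hydef⟩ : ∃ y, y = Nat.find hcase := ⟨_, rfl⟩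
        rw [← hydef] at hy hmin
        rcases y with _ | y
        · exact ⟨0, 1, BV.base (k + 1) hy.1, BG.zero⟩
        · have hylt := hlt _ _ hy.1
          by_cases hR : ∃ r, BV A (y + 1) (k + 1) r
          · obtain ⟨r, hr⟩ := hR
            exact ⟨y + 1, r, hr, hy.2⟩
          · exfalso
            have hab : ∀ z r, BV A z y r → (A z (y + 1) ∨ A y (k + 1)) → A z (k + 1) := by
              intro z r hz hor
              by_contra hzk
              exact hR ⟨r + 1, BV.step z y (k + 1) r hz (by omega) (Or.inr hy.1) hzk hor⟩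
            cases hy.2 with
            | one _ r hyy =>
              have h1 : A y (k + 1) := hab y r hyy (Or.inl (hu y (by omega)))
              obtain ⟨z, r', hz, hG⟩ := ih y (by omega) (by omega)
              have h2 := hab z r' hz (Or.inr h1)
              have h3 := hz.le
              exact hmin z (by omega) ⟨h2, hG⟩
            | two _ z r hz hzA hG =>
              have h2 := hab z r hz (Or.inl hzA)
              have h3 := hz.le
              exact hmin z (by omega) ⟨h2, hG⟩
      · push Not at hcase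
        have hkG : ¬ BG A k := hcase k huk
        have hkR : ∃ r, BV A k k r := by
          by_contra hnot
          rcases k with _ | k
          · exact hkG BG.zero
          · exact hkG (hJ k le_rfl hnot)
        obtain ⟨r, hr⟩ := hkR
        obtain ⟨y, r', hy, hG⟩ := ih k (by omega) (by omega)
        have hyk : ¬ A y (k + 1) := fun h => hcase y h hG
        exact ⟨k + 1, r' + 1, BV.step y k (k + 1) r' hy (by omega) (Or.inl rfl) hyk (Or.inr huk),
          BG.one k r hr⟩

/-- **Theorem V** (helper99, note 2458), run form. -/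
theorem thmV_runs (m : ℕ) (hu : ∀ i < m, A i (i + 1)) (hlt : ∀ i j, A i j → i < j) :
    ∃ x r, BV A x m r := by
  obtain ⟨x, r, h, _⟩ := claimZ m hu hlt m le_rfl
  exact ⟨x, r, h⟩

/-- **Theorem V**, list form: a block reversal of `[0, m]` with unit up steps and down steps in
`Sc A`, and an `A`-walk from `0` to `m` of length at most `2 des w + 1`. -/
theorem thmV (m : ℕ) (hu : ∀ i < m, A i (i + 1)) (hlt : ∀ i j, A i j → i < j) :
    ∃ w : List ℕ, Rear A (Sc A) 0 m w ∧ jmp w = 0 ∧ ∃ t, Walk A t 0 m ∧ t ≤ 2 * des w + 1 := by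
  obtain ⟨x, r, hb⟩ := thmV_runs m hu hlt
  obtain ⟨w, hw, hd, hj, _⟩ := hb.toBRR.list m hu le_rfl
  refine ⟨w, hw, hj, ?_⟩
  obtain ⟨t, ht, hwk⟩ := hb.walk m hu le_rfl
  rcases hb.ends with h | h
  · rw [h] at hwk
    exact ⟨t, hwk, by omega⟩
  · exact ⟨t + 1, hwk.trans_step h, by omega⟩

end V

end Pool.Agent.Sul
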