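import Pool.Agent.Sul.GM

/-!
# MP_109285_co, module CM: a window with low ends is a clique
-/

set_option autoImplicit false

namespace Pool.Agent.Sul

/-- `CM_T` lemma. In the window `[p, q]` let `y_p ≤ y_j + δ`, `x_q ≤ x_j + δ` for all `j`, let the
window be feasible with tolerance `T ≤ δ`, and `2 δ < M`. Then all pairs of the window are in the
closure `Gc`.

Strong induction on `q - p` (`q = p`: nothing to prove).
(1) `Gc p q`: otherwise `GM` gives `a, c` in the window with `x_a + y_c + M ≤ x_q + y_p ≤
x_a + y_c + 2δ`.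
(2) If `Gc c q` for all `c ∈ [p, q-1]`: feasibility of `(c, q)` at `k = q-1` gives `x_(q-1) ≤ x_c + T`,
so `[p, q-1]` satisfies the hypotheses, hence is a clique by induction; done.
(3) Otherwise let `c₁` be the least `c ∈ [p, q-1]` with `¬ Gc c q`; `c₁ > p` by (1), `c₁ < q - 1`
(`unit`), `ce = c₁ - 1`, `Gc ce q`.
(4) `GM` for `(c₁, q)` gives `a ∈ [c₁, q)`, `c' ∈ (c₁, q]` with `x_a + y_c' + M ≤ x_q + y_c₁ ≤
x_a + δ + y_c₁`; let `c₂` be a place of the minimum of `y` on `[c₁, q]`: `y_c₂ ≤ y_c₁ - M + δ`, so
`c₂ > c₁` (as `δ < M`).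
(5) `[c₂, q]` is a clique by induction.
(6) `Gc ce a` for all `a ∈ [c₂, q]`: otherwise let `a'` be the largest `a ∈ [c₂, q]` with `¬ Gc ce a`;
`a' < q`; `a₀ = a' + 1`; `Gc ce a₀` must come from the constructor `left` (not `unit` because
`a₀ > ce + 1`, not `right` because `¬ Gc ce a'`), so `Gc c₁ a₀` and `a₀ ≠ q`. Let `a₁` be the least
`a > a₀` with `¬ Gc c₁ a` (`a₁ ≤ q`). Then `Gc c₁ (a₁ - 1)`, so `Bad c₁ a₁` (else constructor `right`);
at `k = a₁ - 1`: `y_a₁ ≤ y_c₁ - M + (x_a₁ - x_(a₁-1))`. And `x_a₁ ≤ x_(a₁-1) + δ`: if `a₁ = q` by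
hypothesis; if `a₁ < q` by feasibility of the pair `(a₁-1, a₁+1)` of the clique `[c₂, q]` at
`k = a₁` (`a₁ - 1 ≥ a₀ > c₂`). So `y_a₁ ≤ y_c₁ - M + δ`. But `Gc ce a₁` (as `a₁ > a'`), and its
feasibility at `k = ce` says `y_c₁ ≤ y_a₁ + T`; contradiction to `M > 2δ ≥ δ + T`.
(7) So `Gc ce c₂`; feasibility at `k = ce`: `y_c₁ ≤ y_c₂ + T ≤ y_c₁ - M + δ + T`, contradiction. -/
theorem CM (x y : ℕ → ℝ) (M T δ : ℝ) (hT : 0 ≤ T) (hTδ : T ≤ δ) (hM : 2 * δ < M) (p q : ℕ)
    (hf : Feas x y M T p q) (hy : ∀ j, p ≤ j → j ≤ q → y p ≤ y j + δ)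
    (hx : ∀ j, p ≤ j → j ≤ q → x q ≤ x j + δ) : Cliq x y M p q := by
  have hδ : 0 ≤ δ := hT.trans hTδ
  induction hn : q - p using Nat.strong_induction_on generalizing p q with
  | _ n ih =>
    have ih' : ∀ p' q', q' - p' < q - p → Feas x y M T p' q' →
        (∀ j, p' ≤ j → j ≤ q' → y p' ≤ y j + δ) → (∀ j, p' ≤ j → j ≤ q' → x q' ≤ x j + δ) →
        Cliq x y M p' q' := by
      intro p' q' h1 h2 h3 h4
      exact ih (q' - p') (by omega) p' q' h2 h3 h4 rfl
    rcases Nat.lt_or_ge p q with hpq | hpq
    swap
    · intro i j h1 h2 h3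
      omega
    -- (1)
    have hpq' : Gc x y M p q := by
      by_contra hcon
      obtain ⟨a, c, h1, h2, -, h3, h4, -, h5⟩ := GM x y M (by linarith) p q hpq hcon
      have h6 := hy c (by omega) h4
      have h7 := hx a h1 (by omega)
      linarith
    by_cases hall : ∀ c, p ≤ c → c < q → Gc x y M c q
    · -- (2)
      have hcl : Cliq x y M p (q - 1) := by
        apply ih' p (q - 1) (by omega)
        · intro i j h1 h2 h3
          exact hf i j h1 (by omega) h3
        · intro j h1 h2
          exact hy j h1 (by omega)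
        · intro j h1 h2
          have h3 := hf j q h1 le_rfl (hall j h1 (by omega)) (q - 1) h2 (by omega)
          rw [show q - 1 + 1 = q by omega] at h3
          linarith
      intro i j h1 h2 h3
      rcases Nat.lt_or_ge j q with h4 | h4
      · exact hcl i j h1 h2 (by omega)
      · have h5 : j = q := by omega
        subst h5
        exact hall i h1 h2
    · -- (3)
      exfalso
      have hex : ∃ c, p ≤ c ∧ c < q ∧ ¬ Gc x y M c q := by
        by_contra hcon
        apply hall
        intro c h1 h2
        by_contra h3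
        exact hcon ⟨c, h1, h2, h3⟩
      obtain ⟨c1, ⟨hpc, hcq, hnot⟩, hleast⟩ : ∃ c, (p ≤ c ∧ c < q ∧ ¬ Gc x y M c q) ∧
          ∀ m, m < c → ¬ (p ≤ m ∧ m < q ∧ ¬ Gc x y M m q) := by
        classical
        exact ⟨Nat.find hex, Nat.find_spec hex, fun m hm => Nat.find_min hex hm⟩
      have hc1p : c1 ≠ p := by
        rintro rfl
        exact hnot hpq'
      have hceq : Gc x y M (c1 - 1) q := by
        by_contra hcon
        exact hleast (c1 - 1) (by omega) ⟨by omega, by omega, hcon⟩
      obtain ⟨ce, hce⟩ : ∃ ce, c1 = ce + 1 := ⟨c1 - 1, by omega⟩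
      rw [show c1 - 1 = ce by omega] at hceq
      -- (4)
      obtain ⟨a, c', h1, h2, -, h3, h4, -, h5⟩ := GM x y M (by linarith) c1 q hcq hnot
      have h6 := hx a (by omega) (by omega)
      obtain ⟨c2, hc2, hmin⟩ := Finset.exists_min_image (Finset.Icc c1 q) y
        ⟨c1, by simp [hcq.le]⟩
      simp only [Finset.mem_Icc] at hc2 hmin
      have h7 := hmin c' ⟨h3.le, h4⟩
      have h8 : y c2 + M ≤ y c1 + δ := by linarith
      have h9 : c1 < c2 := by
        rcases Nat.eq_or_lt_of_le hc2.1 with h | h
        · rw [← h] at h8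
          linarith
        · exact h
      -- (5)
      have hcl : Cliq x y M c2 q := by
        apply ih' c2 q (by omega)
        · intro i j h1 h2 h3
          exact hf i j (by omega) h2 h3
        · intro j h1 h2
          have := hmin j ⟨by omega, h2⟩
          linarith
        · intro j h1 h2
          exact hx j (by omega) h2
      -- (6)
      have hsix : ∀ a, c2 ≤ a → a ≤ q → Gc x y M ce a := by
        by_contra hcon
        have hex2 : ∃ m, c2 ≤ q - m ∧ m ≤ q ∧ ¬ Gc x y M ce (q - m) := by
          by_contra hc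
          apply hcon
          intro a h1 h2
          by_contra h3
          apply hc
          refine ⟨q - a, ?_, by omega, ?_⟩
          · rw [show q - (q - a) = a by omega]
            exact h1
          · rw [show q - (q - a) = a by omega]
            exact h3
        obtain ⟨m, ⟨hm1, hm2, hm3⟩, hmleast⟩ : ∃ m, (c2 ≤ q - m ∧ m ≤ q ∧ ¬ Gc x y M ce (q - m)) ∧
            ∀ l, l < m → ¬ (c2 ≤ q - l ∧ l ≤ q ∧ ¬ Gc x y M ce (q - l)) := by
          classical
          exact ⟨Nat.find hex2, Nat.find_spec hex2, fun l hl => Nat.find_min hex2 hl⟩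
        obtain ⟨a', ha'⟩ : ∃ a', a' = q - m := ⟨_, rfl⟩
        rw [← ha'] at hm1 hm3
        have hbig : ∀ b, a' < b → b ≤ q → Gc x y M ce b := by
          intro b hb1 hb2
          by_contra hb3
          apply hmleast (q - b) (by omega)
          refine ⟨?_, by omega, ?_⟩
          · rw [show q - (q - b) = b by omega]
            omega
          · rw [show q - (q - b) = b by omega]
            exact hb3
        have ha'q : a' < q := by
          rcases Nat.lt_or_ge a' q with h | h
          · exact h
          · exfalso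
            apply hm3
            rw [show a' = q by omega]
            exact hceq
        have ha0 : Gc x y M ce (a' + 1) := hbig (a' + 1) (by omega) (by omega)
        have ha0' : Gc x y M c1 (a' + 1) := by
          rw [hce]
          generalize hb : a' + 1 = b at ha0 ⊢
          cases ha0 with
          | unit => omega
          | right _ j hj _ =>
            exfalso
            apply hm3
            rw [show a' = j by omega]
            exact hj
          | left _ _ hj _ => exact hj
        have ha0q : a' + 1 ≠ q := by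
          intro h
          rw [h] at ha0'
          exact hnot ha0'
        have hex3 : ∃ b, a' + 1 < b ∧ b ≤ q ∧ ¬ Gc x y M c1 b := ⟨q, by omega, le_rfl, hnot⟩
        obtain ⟨a1, ⟨hb1, hb2, hb3⟩, hbleast⟩ : ∃ b, (a' + 1 < b ∧ b ≤ q ∧ ¬ Gc x y M c1 b) ∧
            ∀ l, l < b → ¬ (a' + 1 < l ∧ l ≤ q ∧ ¬ Gc x y M c1 l) := by
          classical
          exact ⟨Nat.find hex3, Nat.find_spec hex3, fun l hl => Nat.find_min hex3 hl⟩
        have hprev : Gc x y M c1 (a1 - 1) := by
          rcases Nat.eq_or_lt_of_le (show a' + 1 ≤ a1 - 1 by omega) with h | h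
          · rw [← h]
            exact ha0'
          · by_contra hcon2
            exact hbleast (a1 - 1) (by omega) ⟨h, by omega, hcon2⟩
        have hbad : Bad x y M c1 a1 := by
          by_contra hcon2
          apply hb3
          obtain ⟨b, hb⟩ : ∃ b, a1 = b + 1 := ⟨a1 - 1, by omega⟩
          rw [hb] at hcon2 hprev ⊢
          exact Gc.right _ _ hprev hcon2
        have h10 := hbad (a1 - 1) (by omega) (by omega)
        rw [show a1 - 1 + 1 = a1 by omega] at h10
        have h11 : x a1 ≤ x (a1 - 1) + δ := by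
          rcases Nat.eq_or_lt_of_le hb2 with h | h
          · rw [h]
            exact hx (q - 1) (by omega) (by omega)
          · have h12 := hcl (a1 - 1) (a1 + 1) (by omega) (by omega) (by omega)
            have h13 := hf (a1 - 1) (a1 + 1) (by omega) (by omega) h12 a1 (by omega) (by omega)
            linarith
        have h14 := hf ce a1 (by omega) hb2 (hbig a1 (by omega) hb2) ce le_rfl (by omega)
        rw [← hce] at h14
        linarith
      -- (7)
      have h15 := hf ce c2 (by omega) hc2.2 (hsix c2 le_rfl hc2.2) ce le_rfl (by omega)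
      rw [← hce] at h15
      linarith

end Pool.Agent.Sul
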