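import Pool.Agent.Sul.MC

/-!
# MP_109285_co, module P2: the two-point inequality

For the backward walk `Kb adj` (from `v` to a uniformly random in-neighbour `w`), with stationary
distribution `π`:  `E[d(X_k) π(X_(k+1)) φ(X_i, X_j)] ≤ ∑ u u', π u * π u' * φ u u'` for
`i ≤ k < j`.
-/

set_option autoImplicit false

open Finset

namespace Pool.Agent.Sul

variable {V : Type} [Fintype V]

/-- One-sided version. Induction on `k`.
`k = 0`: `Ex (n+1) v = ∑ w, K v w * d v * π w * E_w[ψ (X_(j-1))] ≤ ∑ w, π w * E_w[ψ(X_(j-1))]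
= ∑ π ψ` by `Ep_one` (`K v w * d v ≤ 1`: it is the indicator of `adj w v`).
`k + 1`: `Ex (n+1) v (..) = ∑ w, K v w * E_w[d(X_k) π(X_(k+1)) ψ(X_(j-1))] ≤ ∑ w, K v w * ∑ π ψ`. -/
theorem two_point_aux (adj : V → V → Prop) (π : V → ℝ) (h : Chain (Kb adj) π)
    (ψ : V → ℝ) (hψ : ∀ v, 0 ≤ ψ v) (k j n : ℕ) (hk : k < j) (hj : j ≤ n) (v : V) :
    Ex (Kb adj) n v (fun g => dg adj (g k) * π (g (k + 1)) * ψ (g j)) ≤ ∑ u, π u * ψ u := by
  have hK := h.knn
  have hn0 : ∀ (m : ℕ) (w : V) (i : ℕ), 0 ≤ Ex (Kb adj) m w (fun g => ψ (g i)) := by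
    intro m w i
    have h1 := Ex_mono hK m w (fun _ => (0 : ℝ)) (fun g => ψ (g i)) (fun g _ _ => hψ _)
    rwa [Ex_const h.row] at h1
  have hs0 : 0 ≤ ∑ u, π u * ψ u := Finset.sum_nonneg fun u _ => mul_nonneg (h.pnn u) (hψ u)
  induction k generalizing j n v with
  | zero =>
    obtain ⟨n', rfl⟩ : ∃ n', n = n' + 1 := ⟨n - 1, by omega⟩
    obtain ⟨j', rfl⟩ : ∃ j', j = j' + 1 := ⟨j - 1, by omega⟩
    have h1 : Ex (Kb adj) (n' + 1) v (fun g => dg adj (g 0) * π (g (0 + 1)) * ψ (g (j' + 1))) =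
        ∑ w, Kb adj v w * (dg adj v * π w * Ex (Kb adj) n' w (fun g => ψ (g j'))) := by
      show ∑ w, Kb adj v w * Ex (Kb adj) n' w (fun g => dg adj v * π (g 0) * ψ (g j')) = _
      refine Finset.sum_congr rfl fun w _ => ?_
      have h5 : dg adj v * π w * Ex (Kb adj) n' w (fun g => ψ (g j')) =
          Ex (Kb adj) n' w (fun g => dg adj v * π w * ψ (g j')) := (Ex_mul_left n' w _ _).symm
      rw [h5]
      congr 1
      refine Ex_congr hK n' w _ _ fun g hg _ => ?_
      rw [hg]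
    rw [h1]
    have h2 : ∑ u, π u * ψ u = ∑ w, π w * Ex (Kb adj) n' w (fun g => ψ (g j')) := by
      rw [← Ep_one h j' n' (by omega) ψ]
      rfl
    rw [h2]
    refine Finset.sum_le_sum fun w _ => ?_
    have h3 : Kb adj v w * dg adj v ≤ 1 := by
      unfold Kb
      split_ifs with hh
      · by_cases hd : dg adj v = 0
        · rw [hd]
          norm_num
        · rw [one_div, inv_mul_cancel₀ hd]
      · norm_num
    have h4 : 0 ≤ π w * Ex (Kb adj) n' w (fun g => ψ (g j')) := mul_nonneg (h.pnn w) (hn0 _ _ _)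
    calc Kb adj v w * (dg adj v * π w * Ex (Kb adj) n' w (fun g => ψ (g j')))
        = (Kb adj v w * dg adj v) * (π w * Ex (Kb adj) n' w (fun g => ψ (g j'))) := by ring
      _ ≤ 1 * (π w * Ex (Kb adj) n' w (fun g => ψ (g j'))) := mul_le_mul_of_nonneg_right h3 h4
      _ = _ := one_mul _
  | succ k ih =>
    obtain ⟨n', rfl⟩ : ∃ n', n = n' + 1 := ⟨n - 1, by omega⟩
    obtain ⟨j', rfl⟩ : ∃ j', j = j' + 1 := ⟨j - 1, by omega⟩
    show ∑ w, Kb adj v w * Ex (Kb adj) n' w
      (fun g => dg adj (g k) * π (g (k + 1)) * ψ (g j')) ≤ _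
    calc ∑ w, Kb adj v w * Ex (Kb adj) n' w (fun g => dg adj (g k) * π (g (k + 1)) * ψ (g j'))
        ≤ ∑ w, Kb adj v w * ∑ u, π u * ψ u := by
          refine Finset.sum_le_sum fun w _ => ?_
          exact mul_le_mul_of_nonneg_left (ih j' n' (by omega) (by omega) w) (hK v w)
      _ = ∑ u, π u * ψ u := by rw [← Finset.sum_mul, h.row v, one_mul]

/-- (P2): use `Ep_shift` to reduce to `i = 0` (`W = i + n`, `k = i + k'`, `j = i + j'`); then
`Ex ... v (fun g => d(g k') π(g(k'+1)) φ (g 0) (g j'))` equals the same with `φ v (g j')`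
(`Ex_congr`), apply `two_point_aux` with `ψ = φ v` and sum over `v` with the weights `π v`. -/
theorem two_point (adj : V → V → Prop) (π : V → ℝ) (h : Chain (Kb adj) π)
    (φ : V → V → ℝ) (hφ : ∀ u v, 0 ≤ φ u v) (i k j W : ℕ) (hi : i ≤ k) (hk : k < j) (hj : j ≤ W) :
    Ep (Kb adj) π W (fun g => dg adj (g k) * π (g (k + 1)) * φ (g i) (g j)) ≤
      ∑ u, ∑ u', π u * π u' * φ u u' := by
  obtain ⟨n, rfl⟩ : ∃ n, W = i + n := ⟨W - i, by omega⟩
  obtain ⟨k', rfl⟩ : ∃ k', k = i + k' := ⟨k - i, by omega⟩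
  obtain ⟨j', rfl⟩ : ∃ j', j = i + j' := ⟨j - i, by omega⟩
  have h1 := Ep_shift h i n (fun g => dg adj (g k') * π (g (k' + 1)) * φ (g 0) (g j'))
  have h2 : Ep (Kb adj) π (i + n)
      (fun g => dg adj (g (i + k')) * π (g (i + k' + 1)) * φ (g i) (g (i + j'))) =
      Ep (Kb adj) π n (fun g => dg adj (g k') * π (g (k' + 1)) * φ (g 0) (g j')) := by
    rw [← h1]
    rfl
  rw [h2]
  unfold Ep
  refine Finset.sum_le_sum fun u _ => ?_
  have h3 : Ex (Kb adj) n u (fun g => dg adj (g k') * π (g (k' + 1)) * φ (g 0) (g j')) =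
      Ex (Kb adj) n u (fun g => dg adj (g k') * π (g (k' + 1)) * φ u (g j')) := by
    refine Ex_congr h.knn n u _ _ fun g hg _ => ?_
    rw [hg]
  rw [h3]
  have h4 := two_point_aux adj π h (φ u) (fun v => hφ u v) k' j' n (by omega) (by omega) u
  calc π u * Ex (Kb adj) n u (fun g => dg adj (g k') * π (g (k' + 1)) * φ u (g j'))
      ≤ π u * ∑ u', π u' * φ u u' := mul_le_mul_of_nonneg_left h4 (h.pnn u)
    _ = ∑ u', π u * π u' * φ u u' := by
      rw [Finset.mul_sum]
      refine Finset.sum_congr rfl fun u' _ => ?_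
      ring

/-- The stationary weight is at most `1 / d` if all in-degrees are at least `d > 0`
(`π w = ∑ v, π v * Kb adj v w ≤ ∑ v, π v * (1/d)`). -/
theorem pi_le (adj : V → V → Prop) (π : V → ℝ) (h : Chain (Kb adj) π) (d : ℝ) (hd : 0 < d)
    (hdeg : ∀ v, d ≤ dg adj v) (w : V) : π w ≤ 1 / d := by
  rw [← h.stat w]
  calc ∑ v, π v * Kb adj v w ≤ ∑ v, π v * (1 / d) := by
        refine Finset.sum_le_sum fun v _ => mul_le_mul_of_nonneg_left ?_ (h.pnn v)
        unfold Kb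
        split_ifs with hh
        · exact one_div_le_one_div_of_le hd (hdeg v)
        · positivity
    _ = 1 / d := by rw [← Finset.sum_mul, h.psum, one_mul]

/-- Positivity along a path with positive transition weights: by induction on `i`,
`π (g (i+1)) ≥ π (g i) * K (g i) (g (i+1)) > 0`. -/
theorem pi_pos {K : V → V → ℝ} {π : V → ℝ} (h : Chain K π) (W : ℕ) (g : ℕ → V) (h0 : 0 < π (g 0))
    (hg : ∀ i, i < W → 0 < K (g i) (g (i + 1))) (i : ℕ) (hi : i ≤ W) : 0 < π (g i) := by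
  induction i with
  | zero => exact h0
  | succ i ih =>
    have h1 := ih (by omega)
    rw [← h.stat (g (i + 1))]
    have h2 : 0 < π (g i) * K (g i) (g (i + 1)) := mul_pos h1 (hg i (by omega))
    refine lt_of_lt_of_le h2 ?_
    exact Finset.single_le_sum (f := fun v => π v * K v (g (i + 1)))
      (fun v _ => mul_nonneg (h.pnn v) (h.knn v _)) (Finset.mem_univ (g i))

end Pool.Agent.Sul
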