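import Pool.Agent.Sul.MC

/-!
# MP_109285_co, module P3: long cliques are rare

The vertices `X_i, ..., X_(i+k+1)` of the backward walk are all pairwise adjacent with probability at
most `2^(-k) n / d`.
-/

set_option autoImplicit false

open Finset

namespace Pool.Agent.Sul

variable {V : Type} [Fintype V] [DecidableEq V]

/-- In a set `S` of an oriented graph there are at most `|S|^2/2` arcs: pairs `(w, u) ∈ S × S` with
`adj u w`; the map swapping the pair is an involution without fixed points taking such pairs to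
pairs which are not of this kind. -/
theorem arcs_le (adj : V → V → Prop) (has : ∀ x y, adj x y → ¬ adj y x) (S : Finset V)
    [DecidableRel adj] :
    ∑ w ∈ S, ((S.filter (fun u => adj u w)).card : ℝ) ≤ (S.card : ℝ) ^ 2 / 2 := by
  have h1 : ∀ w ∈ S, ((S.filter (fun u => adj u w)).card : ℝ) =
      ∑ u ∈ S, (if adj u w then (1 : ℝ) else 0) := by
    intro w _
    rw [card_filter]
    push_cast
    rfl
  rw [sum_congr rfl h1]
  have h2 : ∑ w ∈ S, ∑ u ∈ S, (if adj u w then (1 : ℝ) else 0) =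
      ∑ w ∈ S, ∑ u ∈ S, (if adj w u then (1 : ℝ) else 0) := sum_comm
  have h3 : ∑ w ∈ S, ∑ u ∈ S, ((if adj u w then (1 : ℝ) else 0) +
      (if adj w u then (1 : ℝ) else 0)) ≤ ∑ w ∈ S, ∑ u ∈ S, (1 : ℝ) := by
    refine sum_le_sum fun w _ => sum_le_sum fun u _ => ?_
    by_cases ha : adj u w
    · rw [if_pos ha, if_neg (has u w ha)]
      norm_num
    · rw [if_neg ha, zero_add]
      split_ifs
      · exact le_rfl
      · exact zero_le_one
  simp only [sum_add_distrib, sum_const, nsmul_eq_mul, mul_one] at h3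
  have h4 : (S.card : ℝ) ^ 2 = S.card * S.card := sq _
  rw [h4]
  linarith

theorem p3_dg_eq_card (adj : V → V → Prop) (v : V) [DecidableRel adj] :
    dg adj v = ((univ.filter (fun u => adj u v)).card : ℝ) := by
  unfold dg
  rw [Set.ncard_eq_toFinset_card' {u | adj u v}]
  congr 2
  ext u
  simp

theorem p3_Kb_nonneg (adj : V → V → Prop) (v w : V) : 0 ≤ Kb adj v w := by
  unfold Kb
  split_ifs
  · exact div_nonneg zero_le_one (by unfold dg; positivity)
  · exact le_rfl

theorem p3_Kb_row (adj : V → V → Prop) (v : V) (hv : 0 < dg adj v) : ∑ w, Kb adj v w = 1 := by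
  classical
  have h1 : ∀ w, Kb adj v w = if adj w v then 1 / dg adj v else 0 := by
    intro w
    unfold Kb
    split_ifs <;> rfl
  have h2 : ((univ.filter (fun a => adj a v)).card : ℝ) = dg adj v := by
    rw [p3_dg_eq_card adj v]
  rw [sum_congr rfl fun w _ => h1 w, ← sum_filter, sum_const, nsmul_eq_mul, h2,
    mul_one_div_cancel hv.ne']

theorem p3_Kb_sum_le (adj : V → V → Prop) (v : V) (hv : 0 < dg adj v) (S : Finset V)
    (hS : ∀ w ∈ S, adj w v) (ψ : V → ℝ) (F : V → ℝ)
    (hF : ∀ w ∈ S, F w ≤ ψ w) (hF0 : ∀ w, w ∉ S → F w ≤ 0) :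
    ∑ w, Kb adj v w * F w ≤ 1 / dg adj v * ∑ w ∈ S, ψ w := by
  rw [← sum_add_sum_compl S fun w => Kb adj v w * F w]
  have h1 : ∑ w ∈ Sᶜ, Kb adj v w * F w ≤ 0 := by
    refine sum_nonpos fun w hw => ?_
    exact mul_nonpos_of_nonneg_of_nonpos (p3_Kb_nonneg adj v w) (hF0 w (mem_compl.1 hw))
  have h2 : ∑ w ∈ S, Kb adj v w * F w ≤ 1 / dg adj v * ∑ w ∈ S, ψ w := by
    rw [mul_sum]
    refine sum_le_sum fun w hw => ?_
    have e : Kb adj v w = 1 / dg adj v := by
      unfold Kb
      rw [if_pos (hS w hw)]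
    rw [e]
    exact mul_le_mul_of_nonneg_left (hF w hw) (by positivity)
  linarith

theorem p3_ind_mono {P Q : Prop} (h : P → Q) : ind P ≤ ind Q := by
  unfold ind
  split_ifs with h1 h2
  · exact le_rfl
  · exact absurd (h h1) h2
  · exact zero_le_one
  · exact le_rfl

theorem p3_ind_le_one (P : Prop) : ind P ≤ 1 := by
  unfold ind
  split_ifs
  · exact le_rfl
  · exact zero_le_one

theorem p3_ind_false {P : Prop} (h : ¬ P) : ind P = 0 := by
  unfold ind
  rw [if_neg h]

/-- The main induction. `S` is a set of in-neighbours of `v` (the common in-neighbours of the vertices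
visited so far), `m + 1 ≤ n`. Induction on `m` (generalizing `n v S`).
`m = 0`: `E_v[1(X_1 ∈ S)] = ∑ w ∈ S, K v w = |S| / d v ≤ |S| / d`.
Step: `E_v[..] = ∑ w ∈ S, (1 / d v) * E_w[the event for S ∩ N^-(w) and m] ≤
(1 / d v) * ∑ w ∈ S, 2^(-m) |S ∩ N^-(w)| / d ≤ (1 / d v) * 2^(-m) * (|S|^2 / 2) / d ≤
2^(-(m+1)) |S| / d` since `|S| ≤ d v`. (Use `Ex_mono` to compare the indicators.) -/
theorem clique_aux (adj : V → V → Prop) (has : ∀ x y, adj x y → ¬ adj y x) (d : ℝ) (hd : 0 < d)
    (hdeg : ∀ v, d ≤ dg adj v) (m n : ℕ) (hm : m + 1 ≤ n) (v : V) (S : Finset V)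
    (hS : ∀ w ∈ S, adj w v) :
    Ex (Kb adj) n v (fun g => ind ((∀ j, 1 ≤ j → j ≤ m + 1 → g j ∈ S) ∧
      ∀ i j, 1 ≤ i → i < j → j ≤ m + 1 → adj (g j) (g i))) ≤ (S.card : ℝ) / (2 ^ m * d) := by
  classical
  have hpos : ∀ v, 0 < dg adj v := fun v => hd.trans_le (hdeg v)
  have hrow : ∀ v, ∑ w, Kb adj v w = 1 := fun v => p3_Kb_row adj v (hpos v)
  induction m generalizing n v S with
  | zero =>
    obtain ⟨n', rfl⟩ : ∃ n', n = n' + 1 := ⟨n - 1, by omega⟩
    show ∑ w, Kb adj v w * Ex (Kb adj) n' w _ ≤ _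
    have h1 := p3_Kb_sum_le adj v (hpos v) S hS (fun _ => 1)
      (fun w => Ex (Kb adj) n' w (fun g => ind ((∀ j, 1 ≤ j → j ≤ 0 + 1 → cons v g j ∈ S) ∧
        ∀ i j, 1 ≤ i → i < j → j ≤ 0 + 1 → adj (cons v g j) (cons v g i)))) ?_ ?_
    · refine h1.trans ?_
      rw [sum_const, nsmul_eq_mul, mul_one, pow_zero, one_mul, one_div, inv_mul_eq_div]
      exact div_le_div_of_nonneg_left (Nat.cast_nonneg _) hd (hdeg v)
    · intro w _
      have h2 := Ex_mono (p3_Kb_nonneg adj) n' w
        (fun g => ind ((∀ j, 1 ≤ j → j ≤ 0 + 1 → cons v g j ∈ S) ∧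
        ∀ i j, 1 ≤ i → i < j → j ≤ 0 + 1 → adj (cons v g j) (cons v g i))) (fun _ => 1)
        (fun g _ _ => p3_ind_le_one _)
      rwa [Ex_const hrow] at h2
    · intro w hw
      have h2 := Ex_mono (p3_Kb_nonneg adj) n' w
        (fun g => ind ((∀ j, 1 ≤ j → j ≤ 0 + 1 → cons v g j ∈ S) ∧
        ∀ i j, 1 ≤ i → i < j → j ≤ 0 + 1 → adj (cons v g j) (cons v g i))) (fun _ => 0)
        (fun g hg _ => by
          rw [p3_ind_false]
          rintro ⟨hj, _⟩
          have h3 := hj 1 le_rfl le_rfl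
          have h4 : cons v g 1 = g 0 := rfl
          rw [h4, hg] at h3
          exact hw h3)
      rwa [Ex_const hrow] at h2
  | succ m ih =>
    obtain ⟨n', rfl⟩ : ∃ n', n = n' + 1 := ⟨n - 1, by omega⟩
    show ∑ w, Kb adj v w * Ex (Kb adj) n' w _ ≤ _
    have h1 := p3_Kb_sum_le adj v (hpos v) S hS
      (fun w => ((S.filter (fun u => adj u w)).card : ℝ) / (2 ^ m * d))
      (fun w => Ex (Kb adj) n' w (fun g => ind ((∀ j, 1 ≤ j → j ≤ m + 1 + 1 → cons v g j ∈ S) ∧
        ∀ i j, 1 ≤ i → i < j → j ≤ m + 1 + 1 → adj (cons v g j) (cons v g i)))) ?_ ?_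
    · refine h1.trans ?_
      have h2 := arcs_le adj has S
      rw [← sum_div]
      have h3 : (S.card : ℝ) ≤ dg adj v := by
        rw [p3_dg_eq_card]
        exact_mod_cast card_le_card fun w hw => by
          rw [mem_filter]
          exact ⟨mem_univ w, hS w hw⟩
      have hp := hpos v
      calc 1 / dg adj v * ((∑ w ∈ S, ((S.filter (fun u => adj u w)).card : ℝ)) / (2 ^ m * d))
          ≤ 1 / dg adj v * (((S.card : ℝ) ^ 2 / 2) / (2 ^ m * d)) := by gcongr
        _ = (S.card / dg adj v) * (S.card / (2 ^ (m + 1) * d)) := by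
            field_simp
            ring
        _ ≤ 1 * (S.card / (2 ^ (m + 1) * d)) := by
            refine mul_le_mul_of_nonneg_right ?_ (by positivity)
            rw [div_le_one hp]
            exact h3
        _ = S.card / (2 ^ (m + 1) * d) := one_mul _
    · intro w hw
      refine le_trans ?_ (ih n' (by omega) w (S.filter (fun u => adj u w))
        (fun u hu => (mem_filter.1 hu).2))
      refine Ex_mono (p3_Kb_nonneg adj) n' w _ _ fun g hg _ => p3_ind_mono ?_
      rintro ⟨hj, hij⟩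
      refine ⟨fun j h1j hjm => ?_, fun i j hi hlt hjm => ?_⟩
      · rw [mem_filter]
        have h5 := hj (j + 1) (by omega) (by omega)
        have h6 := hij 1 (j + 1) le_rfl (by omega) (by omega)
        have h7 : cons v g 1 = g 0 := rfl
        have h8 : cons v g (j + 1) = g j := rfl
        rw [h7, h8, hg] at h6
        rw [h8] at h5
        exact ⟨h5, h6⟩
      · have h6 := hij (i + 1) (j + 1) (by omega) (by omega) (by omega)
        exact h6
    · intro w hw
      have h2 := Ex_mono (p3_Kb_nonneg adj) n' w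
        (fun g => ind ((∀ j, 1 ≤ j → j ≤ m + 1 + 1 → cons v g j ∈ S) ∧
        ∀ i j, 1 ≤ i → i < j → j ≤ m + 1 + 1 → adj (cons v g j) (cons v g i))) (fun _ => 0)
        (fun g hg _ => by
          rw [p3_ind_false]
          rintro ⟨hj, _⟩
          have h3 := hj 1 le_rfl (by omega)
          have h4 : cons v g 1 = g 0 := rfl
          rw [h4, hg] at h3
          exact hw h3)
      rwa [Ex_const hrow] at h2

/-- (P3): use `Ep_shift` to reduce to `i = 0`, then `clique_aux` with `S = N^-(v)`, `|S| ≤ |V|`. -/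
theorem clique_prob (adj : V → V → Prop) (has : ∀ x y, adj x y → ¬ adj y x) (π : V → ℝ)
    (h : Chain (Kb adj) π) (d : ℝ) (hd : 0 < d) (hdeg : ∀ v, d ≤ dg adj v) (i k W : ℕ)
    (hi : i + k + 1 ≤ W) :
    Ep (Kb adj) π W (fun g => ind (∀ a b, i ≤ a → a < b → b ≤ i + k + 1 → adj (g b) (g a))) ≤
      (Fintype.card V : ℝ) / (2 ^ k * d) := by
  classical
  obtain ⟨n, rfl⟩ : ∃ n, W = i + n := ⟨W - i, by omega⟩
  have h1 := Ep_shift h i n
    (fun g => ind (∀ a b, a < b → b ≤ k + 1 → adj (g b) (g a)))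
  have e : (fun g : ℕ → V => ind (∀ a b, i ≤ a → a < b → b ≤ i + k + 1 → adj (g b) (g a))) =
      fun g => (fun g' : ℕ → V => ind (∀ a b, a < b → b ≤ k + 1 → adj (g' b) (g' a)))
        (fun j => g (i + j)) := by
    funext g
    show ind _ = ind _
    congr 1
    apply propext
    constructor
    · intro hh a b hab hb
      exact hh (i + a) (i + b) (by omega) (by omega) (by omega)
    · intro hh a b ha hab hb
      have h2 : adj (g (i + (b - i))) (g (i + (a - i))) := hh (a - i) (b - i) (by omega) (by omega)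
      have e1 : i + (a - i) = a := by omega
      have e2 : i + (b - i) = b := by omega
      rw [e1, e2] at h2
      exact h2
  rw [e, h1]
  show ∑ v, π v * Ex (Kb adj) n v _ ≤ _
  have h3 : ∀ v, π v * Ex (Kb adj) n v
      (fun g => ind (∀ a b, a < b → b ≤ k + 1 → adj (g b) (g a))) ≤
      π v * ((Fintype.card V : ℝ) / (2 ^ k * d)) := by
    intro v
    refine mul_le_mul_of_nonneg_left ?_ (h.pnn v)
    have h4 := clique_aux adj has d hd hdeg k n (by omega) v (univ.filter (fun u => adj u v))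
      (fun w hw => (mem_filter.1 hw).2)
    have h5 : ((univ.filter (fun u => adj u v)).card : ℝ) / (2 ^ k * d) ≤
        (Fintype.card V : ℝ) / (2 ^ k * d) := by
      have h6 : (((univ : Finset V).filter (fun u => adj u v)).card : ℝ) ≤ Fintype.card V := by
        exact_mod_cast card_le_univ _
      gcongr
    refine le_trans ?_ (h4.trans h5)
    refine Ex_mono (p3_Kb_nonneg adj) n v _ _ fun g hg _ => p3_ind_mono ?_
    intro hh
    refine ⟨fun j h1j hjm => ?_, fun a b _ hab hb => hh a b hab hb⟩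
    rw [mem_filter]
    refine ⟨mem_univ _, ?_⟩
    have h7 := hh 0 j (by omega) hjm
    rwa [hg] at h7
  calc ∑ v, π v * Ex (Kb adj) n v (fun g => ind (∀ a b, a < b → b ≤ k + 1 → adj (g b) (g a)))
      ≤ ∑ v, π v * ((Fintype.card V : ℝ) / (2 ^ k * d)) := sum_le_sum fun v _ => h3 v
    _ = (Fintype.card V : ℝ) / (2 ^ k * d) := by rw [← sum_mul, h.psum, one_mul]

end Pool.Agent.Sul
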