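import Pool.Agent.Sul.Defs
import Pool.Agent.Lib.Brouwer

/-!
# MP_109285_co, module Stat: existence of a stationary distribution
-/

set_option autoImplicit false

open Finset

namespace Pool.Agent.Sul

/-- Brouwer (`Pool.Lib.brouwer_fixed_point_convex`) for the map `π ↦ (w ↦ ∑ v, π v * K v w)` on
`stdSimplex ℝ V`; compare the proof of `exists_stationary` in
`Pool/Agent/Hhelper10/Dom/Stationary.lean`. -/
theorem exists_stat {V : Type} [Fintype V] [Nonempty V] (K : V → V → ℝ) (hK : ∀ v w, 0 ≤ K v w)
    (hrow : ∀ v, ∑ w, K v w = 1) : ∃ π : V → ℝ, Chain K π := by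
  classical
  obtain ⟨lam, hlam, hfix⟩ := Pool.Lib.brouwer_fixed_point_convex (V := V → ℝ)
    (K := stdSimplex ℝ V) (isCompact_stdSimplex ℝ V) (convex_stdSimplex ℝ V)
    ⟨Pi.single (Classical.arbitrary V) 1, single_mem_stdSimplex ℝ (Classical.arbitrary V)⟩
    (f := fun lam w => ∑ v, lam v * K v w)
    (by
      refine Continuous.continuousOn ?_
      refine continuous_pi fun w => ?_
      refine continuous_finsetSum _ fun v _ => ?_
      exact (continuous_apply v).mul continuous_const)
    (by
      intro lam hlam
      refine ⟨fun w => ?_, ?_⟩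
      · exact Finset.sum_nonneg fun v _ => mul_nonneg (hlam.1 v) (hK v w)
      · rw [Finset.sum_comm]
        simp_rw [← Finset.mul_sum, hrow, mul_one]
        exact hlam.2)
  refine ⟨lam, hK, hrow, hlam.1, hlam.2, fun w => ?_⟩
  exact congrFun hfix w

/-- The backward walk, if all in-degrees are positive. -/
theorem exists_chain {V : Type} [Fintype V] [Nonempty V] (adj : V → V → Prop)
    (hdeg : ∀ v, 0 < dg adj v) : ∃ π : V → ℝ, Chain (Kb adj) π := by
  classical
  refine exists_stat (Kb adj) (fun v w => ?_) (fun v => ?_)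
  · unfold Kb
    split_ifs
    · exact (one_div_pos.2 (hdeg v)).le
    · exact le_rfl
  · have h1 : ∑ w, Kb adj v w = (∑ w : V, if adj w v then (1 : ℝ) else 0) * (1 / dg adj v) := by
      rw [Finset.sum_mul]
      refine Finset.sum_congr rfl fun w _ => ?_
      unfold Kb
      split_ifs
      · rw [one_mul]
      · rw [zero_mul]
    have h2 : (∑ w : V, if adj w v then (1 : ℝ) else 0) = dg adj v := by
      unfold dg
      rw [Set.ncard_eq_toFinset_card', Finset.sum_boole]
      congr 2
      ext w
      simp
    rw [h1, h2]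
    exact mul_one_div_cancel (hdeg v).ne'

end Pool.Agent.Sul
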