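import Pool.Agent.Sul.Win
import Pool.Agent.Sul.P2
import Pool.Agent.Sul.P3
import Pool.Agent.Sul.Stat

/-!
# MP_109285_co, module Fin: assembly
-/

set_option autoImplicit false

open Finset

namespace Pool.Agent.Sul

variable {V : Type} [Fintype V] [DecidableEq V]

private theorem Fin_ind_nonneg (P : Prop) : 0 ≤ ind P := by
  unfold ind
  split_ifs <;> norm_num

private theorem Fin_ind_true {P : Prop} (h : P) : ind P = 1 := by
  unfold ind
  rw [if_pos h]

private theorem Fin_sum_ind (P : V → Prop) : ∑ v, ind (P v) = ({v | P v}.ncard : ℝ) := by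
  classical
  unfold ind
  rw [Set.ncard_eq_toFinset_card', Finset.sum_boole]
  congr 2
  ext w
  simp

private theorem Fin_dg_nonneg (adj : V → V → Prop) (v : V) : 0 ≤ dg adj v := by
  unfold dg
  exact Nat.cast_nonneg _

/-- Second-neighbour cells. -/
theorem prob_second (adj : V → V → Prop) (π : V → ℝ) (h : Chain (Kb adj) π)
    (hpos : ∀ v, 0 < dg adj v) (γ M : ℝ) (hγ : ∀ v, n2 adj v ≤ γ * dg adj v) (i k j W : ℕ)
    (hi : i ≤ k) (hk : k < j) (hj : j ≤ W) :
    Ep (Kb adj) π W (fun g => ind ((g i ≠ g j ∧ ¬ adj (g j) (g i) ∧ ∃ u, adj (g j) u ∧ adj u (g i)) ∧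
      Real.log (dg adj (g j)) + Real.log (π (g i)) <
        Real.log (dg adj (g k)) + Real.log (π (g (k + 1))) + M)) ≤ Real.exp M * γ := by
  set φ : V → V → ℝ := fun u u' =>
    ind (u ≠ u' ∧ ¬ adj u' u ∧ ∃ w, adj u' w ∧ adj w u) / (dg adj u' * π u) with hφ
  have hφ0 : ∀ u u', 0 ≤ φ u u' := fun u u' =>
    div_nonneg (Fin_ind_nonneg _) (mul_nonneg (hpos u').le (h.pnn u))
  have h1 := Ep_markov h W
    (fun g => (g i ≠ g j ∧ ¬ adj (g j) (g i) ∧ ∃ u, adj (g j) u ∧ adj u (g i)) ∧
      Real.log (dg adj (g j)) + Real.log (π (g i)) <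
        Real.log (dg adj (g k)) + Real.log (π (g (k + 1))) + M)
    (fun g => dg adj (g k) * π (g (k + 1)) * φ (g i) (g j)) (Real.exp M) (Real.exp_pos M).le
    (fun g _ _ => mul_nonneg (mul_nonneg (hpos _).le (h.pnn _)) (hφ0 _ _))
    (by
      intro g h0 hg hB
      have p1 := pi_pos h W g h0 hg i (by omega)
      have p2 := pi_pos h W g h0 hg (k + 1) (by omega)
      have d1 := hpos (g j)
      have d2 := hpos (g k)
      have h2 : φ (g i) (g j) = 1 / (dg adj (g j) * π (g i)) := by
        simp only [hφ]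
        rw [Fin_ind_true hB.1]
      have h3 : Real.log (dg adj (g j) * π (g i)) <
          Real.log (dg adj (g k) * π (g (k + 1)) * Real.exp M) := by
        rw [Real.log_mul d1.ne' p1.ne', Real.log_mul (mul_pos d2 p2).ne' (Real.exp_pos M).ne',
          Real.log_mul d2.ne' p2.ne', Real.log_exp]
        exact hB.2
      have h4 := (Real.log_lt_log_iff (mul_pos d1 p1)
        (mul_pos (mul_pos d2 p2) (Real.exp_pos M))).1 h3
      show 1 ≤ Real.exp M * (dg adj (g k) * π (g (k + 1)) * φ (g i) (g j))
      rw [h2]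
      have h5 : Real.exp M * (dg adj (g k) * π (g (k + 1)) * (1 / (dg adj (g j) * π (g i)))) =
          (dg adj (g k) * π (g (k + 1)) * Real.exp M) / (dg adj (g j) * π (g i)) := by ring
      rw [h5, le_div_iff₀ (mul_pos d1 p1), one_mul]
      exact h4.le)
  refine h1.trans (mul_le_mul_of_nonneg_left ?_ (Real.exp_pos M).le)
  refine (two_point adj π h φ hφ0 i k j W hi hk hj).trans ?_
  rw [Finset.sum_comm]
  calc ∑ u', ∑ u, π u * π u' * φ u u'
      ≤ ∑ u', π u' * γ := by
        refine Finset.sum_le_sum fun u' _ => ?_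
        calc ∑ u, π u * π u' * φ u u'
            ≤ ∑ u, π u' / dg adj u' *
                ind (u ≠ u' ∧ ¬ adj u' u ∧ ∃ w, adj u' w ∧ adj w u) := by
              refine Finset.sum_le_sum fun u _ => ?_
              simp only [hφ]
              by_cases hu : π u = 0
              · rw [hu]
                simp only [zero_mul]
                exact mul_nonneg (div_nonneg (h.pnn _) (hpos _).le) (Fin_ind_nonneg _)
              · refine le_of_eq ?_
                have hd := (hpos u').ne'
                field_simp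
          _ = π u' / dg adj u' * n2 adj u' := by
              rw [← Finset.mul_sum, Fin_sum_ind]
              rfl
          _ ≤ π u' / dg adj u' * (γ * dg adj u') :=
              mul_le_mul_of_nonneg_left (hγ u') (div_nonneg (h.pnn _) (hpos _).le)
          _ = π u' * γ := by
              have hd := (hpos u').ne'
              field_simp
    _ = γ := by rw [← Finset.sum_mul, h.psum, one_mul]

/-- Arc cells. -/
theorem prob_arc (adj : V → V → Prop) (π : V → ℝ) (h : Chain (Kb adj) π)
    (hpos : ∀ v, 0 < dg adj v) (T : ℝ) (i k j W : ℕ) (hi : i ≤ k) (hk : k < j) (hj : j ≤ W) :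
    Ep (Kb adj) π W (fun g => ind (adj (g j) (g i) ∧
      Real.log (dg adj (g i)) + Real.log (π (g j)) + T <
        Real.log (dg adj (g k)) + Real.log (π (g (k + 1))))) ≤ Real.exp (-T) := by
  set φ : V → V → ℝ := fun u u' => ind (adj u' u) / (dg adj u * π u') with hφ
  have hφ0 : ∀ u u', 0 ≤ φ u u' := fun u u' =>
    div_nonneg (Fin_ind_nonneg _) (mul_nonneg (hpos u).le (h.pnn u'))
  have h1 := Ep_markov h W
    (fun g => adj (g j) (g i) ∧
      Real.log (dg adj (g i)) + Real.log (π (g j)) + T <
        Real.log (dg adj (g k)) + Real.log (π (g (k + 1))))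
    (fun g => dg adj (g k) * π (g (k + 1)) * φ (g i) (g j)) (Real.exp (-T)) (Real.exp_pos _).le
    (fun g _ _ => mul_nonneg (mul_nonneg (hpos _).le (h.pnn _)) (hφ0 _ _))
    (by
      intro g h0 hg hB
      have p1 := pi_pos h W g h0 hg j (by omega)
      have p2 := pi_pos h W g h0 hg (k + 1) (by omega)
      have d1 := hpos (g i)
      have d2 := hpos (g k)
      have h2 : φ (g i) (g j) = 1 / (dg adj (g i) * π (g j)) := by
        simp only [hφ]
        rw [Fin_ind_true hB.1]
      have h3 : Real.log (dg adj (g i) * π (g j) * Real.exp T) <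
          Real.log (dg adj (g k) * π (g (k + 1))) := by
        rw [Real.log_mul (mul_pos d1 p1).ne' (Real.exp_pos T).ne', Real.log_mul d1.ne' p1.ne',
          Real.log_mul d2.ne' p2.ne', Real.log_exp]
        exact hB.2
      have h4 := (Real.log_lt_log_iff (mul_pos (mul_pos d1 p1) (Real.exp_pos T))
        (mul_pos d2 p2)).1 h3
      show 1 ≤ Real.exp (-T) * (dg adj (g k) * π (g (k + 1)) * φ (g i) (g j))
      rw [h2, Real.exp_neg]
      have h5 : (Real.exp T)⁻¹ * (dg adj (g k) * π (g (k + 1)) * (1 / (dg adj (g i) * π (g j)))) =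
          (dg adj (g k) * π (g (k + 1))) / (dg adj (g i) * π (g j) * Real.exp T) := by
        have e1 := d1.ne'
        have e2 := p1.ne'
        have e3 := (Real.exp_pos T).ne'
        field_simp
      rw [h5, le_div_iff₀ (mul_pos (mul_pos d1 p1) (Real.exp_pos T)), one_mul]
      exact h4.le)
  refine h1.trans ?_
  have h6 : Ep (Kb adj) π W (fun g => dg adj (g k) * π (g (k + 1)) * φ (g i) (g j)) ≤ 1 := by
    refine (two_point adj π h φ hφ0 i k j W hi hk hj).trans ?_
    calc ∑ u, ∑ u', π u * π u' * φ u u'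
        ≤ ∑ u, π u := by
          refine Finset.sum_le_sum fun u _ => ?_
          calc ∑ u', π u * π u' * φ u u'
              ≤ ∑ u', π u / dg adj u * ind (adj u' u) := by
                refine Finset.sum_le_sum fun u' _ => ?_
                simp only [hφ]
                by_cases hu : π u' = 0
                · rw [hu]
                  simp only [mul_zero, zero_mul]
                  exact mul_nonneg (div_nonneg (h.pnn _) (hpos _).le) (Fin_ind_nonneg _)
                · refine le_of_eq ?_
                  have hd := (hpos u).ne'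
                  field_simp
            _ = π u / dg adj u * dg adj u := by
                rw [← Finset.mul_sum, Fin_sum_ind]
                rfl
            _ = π u := by
                have hd := (hpos u).ne'
                field_simp
      _ = 1 := h.psum
  calc Real.exp (-T) * Ep (Kb adj) π W (fun g => dg adj (g k) * π (g (k + 1)) * φ (g i) (g j))
      ≤ Real.exp (-T) * 1 := mul_le_mul_of_nonneg_left h6 (Real.exp_pos _).le
    _ = Real.exp (-T) := mul_one _

/-- Small stationary weight: `P(π(X_i) < ε / n) ≤ ε`, by `Ep_one`. -/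
theorem prob_small (adj : V → V → Prop) [Nonempty V] (π : V → ℝ) (h : Chain (Kb adj) π) (ε : ℝ)
    (hε : 0 ≤ ε) (i W : ℕ) (hi : i ≤ W) :
    Ep (Kb adj) π W (fun g => ind (π (g i) < ε / Fintype.card V)) ≤ ε := by
  have hn : (0 : ℝ) < Fintype.card V := by
    exact_mod_cast Fintype.card_pos
  rw [Ep_one h i W hi (fun v => ind (π v < ε / Fintype.card V))]
  calc ∑ v, π v * ind (π v < ε / Fintype.card V) ≤ ∑ _v : V, ε / Fintype.card V := by
        refine Finset.sum_le_sum fun v _ => ?_
        unfold ind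
        split_ifs with hv
        · rw [mul_one]
          exact hv.le
        · rw [mul_zero]
          exact div_nonneg hε hn.le
    _ = ε := by
        rw [Finset.sum_const, Finset.card_univ, nsmul_eq_mul]
        field_simp

/-- Assembly. -/
theorem main (adj : V → V → Prop) [Nonempty V] (has : ∀ x y, adj x y → ¬ adj y x) (d : ℝ)
    (hd : 0 < d) (hdeg : ∀ v, d ≤ dg adj v) (δ : ℝ) (W k a b : ℕ) (hδ0 : 0 < δ)
    (hδ : Real.log (8 * ((W : ℝ) + 1) ^ 3) ≤ δ)
    (hk : 4 * ((W : ℝ) + 1) * (Fintype.card V / d) ≤ 2 ^ k)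
    (ha : Real.log (Fintype.card V / d) < a * δ)
    (hb : Real.log (Fintype.card V / d) + Real.log (4 * ((W : ℝ) + 1)) < b * δ)
    (hW : (2 ^ (a + b) - 1) * (k + 1) < W + 1) :
    ∃ v, Real.exp (-(4 * δ)) * dg adj v ≤ n2 adj v := by
  classical
  by_contra hcon
  push Not at hcon
  have hpos : ∀ v, 0 < dg adj v := fun v => lt_of_lt_of_le hd (hdeg v)
  obtain ⟨π, h⟩ := exists_chain adj hpos
  have hn : (0 : ℝ) < Fintype.card V := by
    exact_mod_cast Fintype.card_pos
  have hW1 : (0 : ℝ) < (W : ℝ) + 1 := by positivity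
  set ε : ℝ := 1 / (4 * ((W : ℝ) + 1)) with hε
  have hε0 : 0 < ε := by rw [hε]; positivity
  -- the index sets
  set s1 : Finset (ℕ × ℕ × ℕ) :=
    (Finset.range (W + 1) ×ˢ (Finset.range (W + 1) ×ˢ Finset.range (W + 1))).filter
      (fun e => e.1 ≤ e.2.1 ∧ e.2.1 < e.2.2) with hs1
  set s4 : Finset ℕ := (Finset.range (W + 1)).filter (fun i => i + k + 1 ≤ W) with hs4
  set B1 : ℕ × ℕ × ℕ → (ℕ → V) → Prop := fun e g =>
    (g e.1 ≠ g e.2.2 ∧ ¬ adj (g e.2.2) (g e.1) ∧ ∃ u, adj (g e.2.2) u ∧ adj u (g e.1)) ∧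
      Real.log (dg adj (g e.2.2)) + Real.log (π (g e.1)) <
        Real.log (dg adj (g e.2.1)) + Real.log (π (g (e.2.1 + 1))) + 3 * δ with hB1
  set B2 : ℕ × ℕ × ℕ → (ℕ → V) → Prop := fun e g =>
    adj (g e.2.2) (g e.1) ∧
      Real.log (dg adj (g e.1)) + Real.log (π (g e.2.2)) + δ <
        Real.log (dg adj (g e.2.1)) + Real.log (π (g (e.2.1 + 1))) with hB2
  set B3 : ℕ → (ℕ → V) → Prop := fun i g => π (g i) < ε / Fintype.card V with hB3
  set B4 : ℕ → (ℕ → V) → Prop := fun i g =>
    ∀ a b, i ≤ a → a < b → b ≤ i + k + 1 → adj (g b) (g a) with hB4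
  -- bounds
  have hexp : Real.exp (-δ) ≤ 1 / (8 * ((W : ℝ) + 1) ^ 3) := by
    have h1 : 8 * ((W : ℝ) + 1) ^ 3 ≤ Real.exp δ := by
      have h2 := Real.exp_le_exp.2 hδ
      rwa [Real.exp_log (by positivity)] at h2
    rw [Real.exp_neg, inv_eq_one_div]
    exact one_div_le_one_div_of_le (by positivity) h1
  have hcard1 : (s1.card : ℝ) ≤ ((W : ℝ) + 1) ^ 3 := by
    have h1 : s1.card ≤ (W + 1) * ((W + 1) * (W + 1)) := by
      refine (Finset.card_filter_le _ _).trans ?_
      rw [Finset.card_product, Finset.card_product, Finset.card_range]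
    have h2 : (s1.card : ℝ) ≤ (((W + 1) * ((W + 1) * (W + 1)) : ℕ) : ℝ) := by exact_mod_cast h1
    refine h2.trans (le_of_eq ?_)
    push_cast
    ring
  have hmul1 : ((W : ℝ) + 1) ^ 3 * Real.exp (-δ) ≤ 1 / 8 := by
    calc ((W : ℝ) + 1) ^ 3 * Real.exp (-δ) ≤ ((W : ℝ) + 1) ^ 3 * (1 / (8 * ((W : ℝ) + 1) ^ 3)) :=
          mul_le_mul_of_nonneg_left hexp (by positivity)
      _ = 1 / 8 := by
          have := hW1.ne'
          field_simp
  have S1 : ∑ e ∈ s1, Ep (Kb adj) π W (fun g => ind (B1 e g)) ≤ 1 / 8 := by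
    calc ∑ e ∈ s1, Ep (Kb adj) π W (fun g => ind (B1 e g)) ≤ ∑ _e ∈ s1, Real.exp (-δ) := by
          refine Finset.sum_le_sum fun e he => ?_
          simp only [hs1, Finset.mem_filter, Finset.mem_product, Finset.mem_range] at he
          have h1 := prob_second adj π h hpos (Real.exp (-(4 * δ))) (3 * δ)
            (fun v => (hcon v).le) e.1 e.2.1 e.2.2 W he.2.1 he.2.2 (by omega)
          refine h1.trans (le_of_eq ?_)
          rw [← Real.exp_add]
          congr 1
          ring
      _ = s1.card * Real.exp (-δ) := by rw [Finset.sum_const, nsmul_eq_mul]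
      _ ≤ ((W : ℝ) + 1) ^ 3 * Real.exp (-δ) :=
          mul_le_mul_of_nonneg_right hcard1 (Real.exp_pos _).le
      _ ≤ 1 / 8 := hmul1
  have S2 : ∑ e ∈ s1, Ep (Kb adj) π W (fun g => ind (B2 e g)) ≤ 1 / 8 := by
    calc ∑ e ∈ s1, Ep (Kb adj) π W (fun g => ind (B2 e g)) ≤ ∑ _e ∈ s1, Real.exp (-δ) := by
          refine Finset.sum_le_sum fun e he => ?_
          simp only [hs1, Finset.mem_filter, Finset.mem_product, Finset.mem_range] at he
          exact prob_arc adj π h hpos δ e.1 e.2.1 e.2.2 W he.2.1 he.2.2 (by omega)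
      _ = s1.card * Real.exp (-δ) := by rw [Finset.sum_const, nsmul_eq_mul]
      _ ≤ ((W : ℝ) + 1) ^ 3 * Real.exp (-δ) :=
          mul_le_mul_of_nonneg_right hcard1 (Real.exp_pos _).le
      _ ≤ 1 / 8 := hmul1
  have S3 : ∑ e ∈ (Finset.range (W + 1)), Ep (Kb adj) π W (fun g => ind (B3 e g)) ≤ 1 / 4 := by
    calc ∑ e ∈ (Finset.range (W + 1)), Ep (Kb adj) π W (fun g => ind (B3 e g)) ≤ ∑ _e ∈ (Finset.range (W + 1)), ε := by
          refine Finset.sum_le_sum fun e he => ?_
          simp only [Finset.mem_range] at he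
          exact prob_small adj π h ε hε0.le e W (by omega)
      _ = ((W : ℝ) + 1) * ε := by
          rw [Finset.sum_const, nsmul_eq_mul, Finset.card_range]
          push_cast
          ring
      _ = 1 / 4 := by
          rw [hε]
          have := hW1.ne'
          field_simp
      _ ≤ 1 / 4 := le_rfl
  have S4 : ∑ e ∈ s4, Ep (Kb adj) π W (fun g => ind (B4 e g)) ≤ 1 / 4 := by
    have h2 : (Fintype.card V : ℝ) / (2 ^ k * d) ≤ ε := by
      rw [hε, div_le_div_iff₀ (by positivity) (by positivity)]
      have h3 := mul_le_mul_of_nonneg_right hk hd.le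
      have h4 : 4 * ((W : ℝ) + 1) * (Fintype.card V / d) * d =
          Fintype.card V * (4 * ((W : ℝ) + 1)) := by
        have := hd.ne'
        field_simp
      rw [h4] at h3
      linarith
    calc ∑ e ∈ s4, Ep (Kb adj) π W (fun g => ind (B4 e g)) ≤ ∑ _e ∈ s4, ε := by
          refine Finset.sum_le_sum fun e he => ?_
          simp only [hs4, Finset.mem_filter, Finset.mem_range] at he
          exact (clique_prob adj has π h d hd hdeg e k W he.2).trans h2
      _ = s4.card * ε := by rw [Finset.sum_const, nsmul_eq_mul]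
      _ ≤ ((W : ℝ) + 1) * ε := by
          refine mul_le_mul_of_nonneg_right ?_ hε0.le
          have h1 : s4.card ≤ W + 1 := (Finset.card_filter_le _ _).trans
            (le_of_eq (Finset.card_range _))
          exact_mod_cast h1
      _ = 1 / 4 := by
          rw [hε]
          have := hW1.ne'
          field_simp
      _ ≤ 1 / 4 := le_rfl
  obtain ⟨g, hg0, hgs, hgB⟩ := exists_path h
    (s := (s1.disjSum s1).disjSum ((Finset.range (W + 1)).disjSum s4)) W
    (Sum.elim (Sum.elim B1 B2) (Sum.elim B3 B4)) (by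
      rw [Finset.sum_disjSum, Finset.sum_disjSum, Finset.sum_disjSum]
      simp only [Sum.elim_inl, Sum.elim_inr]
      linarith)
  have G1 : ∀ e ∈ s1, ¬ B1 e g := fun e he =>
    hgB (Sum.inl (Sum.inl e)) (by simp [he])
  have G2 : ∀ e ∈ s1, ¬ B2 e g := fun e he =>
    hgB (Sum.inl (Sum.inr e)) (by simp [he])
  have G3 : ∀ e ∈ (Finset.range (W + 1)), ¬ B3 e g := fun e he =>
    hgB (Sum.inr (Sum.inl e)) (by simp [he])
  have G4 : ∀ e ∈ s4, ¬ B4 e g := fun e he =>
    hgB (Sum.inr (Sum.inr e)) (by simp [he])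
  have hm1 : ∀ i l j, i ≤ l → l < j → j ≤ W → (i, l, j) ∈ s1 := by
    intro i l j h1 h2 h3
    simp only [hs1, Finset.mem_filter, Finset.mem_product, Finset.mem_range]
    omega
  have hstep : ∀ i, i < W → adj (g (i + 1)) (g i) := by
    intro i hi
    have h1 := hgs i hi
    unfold Kb at h1
    by_contra hc
    rw [if_neg hc] at h1
    exact lt_irrefl _ h1
  have hsec : ∀ i j, i < j → j ≤ W → g i ≠ g j → ¬ adj (g j) (g i) →
      (∃ u, adj (g j) u ∧ adj u (g i)) →
      Bad (fun i => Real.log (dg adj (g i))) (fun i => Real.log (π (g i))) (3 * δ) i j := by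
    intro i j hij hj h1 h2 h3 l hl1 hl2
    have h4 := G1 (i, l, j) (hm1 i l j hl1 hl2 hj)
    by_contra hc
    push Not at hc
    exact h4 ⟨⟨h1, h2, h3⟩, hc⟩
  have hwin := window_A (fun i => Real.log (dg adj (g i))) (fun i => Real.log (π (g i))) (3 * δ) δ δ
    hδ0.le le_rfl (by linarith) k W (fun i j => adj (g j) (g i)) hstep
    (by
      intro i j hij hj hA
      by_cases hc : adj (g (j + 1)) (g i)
      · exact Or.inl hc
      · right
        refine hsec i (j + 1) (by omega) hj ?_ hc ⟨g j, hstep j (by omega), hA⟩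
        intro he
        rw [he] at hA
        exact has _ _ hA (hstep j (by omega)))
    (by
      intro i j hij hj hA
      by_cases hc : adj (g j) (g i)
      · exact Or.inl hc
      · right
        refine hsec i j (by omega) hj ?_ hc ⟨g (i + 1), hA, hstep i (by omega)⟩
        intro he
        rw [← he] at hA
        exact has _ _ hA (hstep i (by omega)))
    (by
      intro i j hij hj hA l hl1 hl2
      have h4 := G2 (i, l, j) (hm1 i l j hl1 hl2 hj)
      by_contra hc
      push Not at hc
      exact h4 ⟨hA, hc⟩)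
    (by
      intro i hi hA
      have h4 := G4 i (by
        simp only [hs4, Finset.mem_filter, Finset.mem_range]
        omega)
      exact h4 hA)
    a b (Real.log d) (Real.log (ε / Fintype.card V))
    (by
      intro j hj
      have hlogn : Real.log (Fintype.card V / d) = Real.log (Fintype.card V) - Real.log d :=
        Real.log_div hn.ne' hd.ne'
      have hpj := pi_pos h W g hg0 hgs j hj
      refine ⟨Real.log_le_log hd (hdeg _), ?_, ?_, ?_⟩
      · have h1 : dg adj (g j) ≤ Fintype.card V := by
          unfold dg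
          have h2 : {u | adj u (g j)}.ncard ≤ Fintype.card V := by
            rw [← Nat.card_eq_fintype_card, ← Set.ncard_univ]
            exact Set.ncard_le_ncard (Set.subset_univ _) (Set.toFinite _)
          exact_mod_cast h2
        have h2 := Real.log_le_log (hpos (g j)) h1
        linarith
      · have h1 := G3 j (by
          simp only [Finset.mem_range]
          omega)
        exact Real.log_le_log (div_pos hε0 hn) (not_lt.1 h1)
      · have h1 := Real.log_le_log hpj (pi_le adj π h d hd hdeg (g j))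
        rw [Real.log_div one_ne_zero hd.ne', Real.log_one] at h1
        have h2 : Real.log (ε / Fintype.card V) =
            -Real.log (4 * ((W : ℝ) + 1)) - Real.log (Fintype.card V) := by
          rw [Real.log_div hε0.ne' hn.ne', hε, Real.log_div one_ne_zero (by positivity),
            Real.log_one]
          ring
        rw [h2]
        linarith)
  omega

end Pool.Agent.Sul
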