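import Pool.Agent.Sul.Rearr
import Pool.Agent.Sul.Fin

/-!
# MP_109285_co, module Deduce: from patterns to approximate Sullivan vertices

A *pattern* on `[0, W]` is a relation `A` on pairs `i < j ≤ W` containing all `(i, i+1)`.  Suppose that
every pattern on `[0, W]` without an interval clique on `k + 2` consecutive vertices has a window
`[a, b]` and a Hamiltonian path `w` of it (ascents in `A`, descents at `A`-distance two) such that
either `jmp w + M ≤ q * des w`, or `w` goes from `a` to `b`, `1 ≤ des w` and `jmp w ≤ q * des w`.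
Then every oriented graph with `n` vertices and all in-degrees at least `d`, where
`4 (W+1) (n/d) ≤ 2^k` and `64 (W+1) (n/d)^2 ≤ 2^M`, has a vertex `v` with
`|N2+(v)| ≥ (4 (W+1)^2)^(-(q+4)) |N-(v)|`.
-/

set_option autoImplicit false

open Finset

namespace Pool.Agent.Sul

/-! ### Encoding by runs -/

/-- The concatenation of the intervals `[p.1, p.2]`. -/
def dec (l : List (ℕ × ℕ)) : List ℕ := l.flatMap (fun p => List.range' p.1 (p.2 + 1 - p.1))

theorem exists_runs (w : List ℕ) (hw : w ≠ []) (hnd : w.Nodup) :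
    ∃ l : List (ℕ × ℕ), dec l = w ∧ l.length ≤ des w + jmp w + 1 ∧ l ≠ [] ∧
      ∀ p ∈ l, p.1 ≤ p.2 ∧ p.1 ∈ w ∧ p.2 ∈ w := by
  induction w with
  | nil => exact absurd rfl hw
  | cons x t ih =>
    rcases t with _ | ⟨y, t⟩
    · refine ⟨[(x, x)], ?_, ?_, by simp, ?_⟩
      · simp [dec]
      · simp
      · intro p hp
        simp only [List.mem_singleton] at hp
        subst hp
        simp
    · have hnd' : (y :: t).Nodup := (List.nodup_cons.1 hnd).2
      have hxy : x ≠ y := by
        intro h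
        have := (List.nodup_cons.1 hnd).1
        rw [h] at this
        simp at this
      obtain ⟨l', h1, h2, h3, h4⟩ := ih (by simp) hnd'
      rcases l' with _ | ⟨⟨u, z⟩, l''⟩
      · exact absurd rfl h3
      have huz := (h4 (u, z) (by simp)).1
      have hdec : dec ((u, z) :: l'') = u :: (List.range' (u + 1) (z - u) ++ dec l'') := by
        unfold dec
        rw [List.flatMap_cons]
        have e : z + 1 - u = (z - u) + 1 := by
          simp only at huz
          omega
        show List.range' u (z + 1 - u) ++ _ = _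
        rw [e, List.range'_succ]
        rfl
      have huy : u = y ∧ List.range' (u + 1) (z - u) ++ dec l'' = t := by
        rw [hdec] at h1
        exact List.cons.inj h1
      obtain ⟨rfl, ht⟩ := huy
      simp only at huz
      by_cases hc : u = x + 1
      · refine ⟨(x, z) :: l'', ?_, ?_, by simp, ?_⟩
        · unfold dec
          rw [List.flatMap_cons]
          have e : z + 1 - x = (z + 1 - u) + 1 := by omega
          show List.range' x (z + 1 - x) ++ dec l'' = _
          rw [e, List.range'_succ, ← hc]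
          have h5 : List.range' u (z + 1 - u) ++ dec l'' = u :: t := by
            have e2 : z + 1 - u = (z - u) + 1 := by omega
            rw [e2, List.range'_succ]
            show u :: (List.range' (u + 1) (z - u) ++ dec l'') = _
            rw [ht]
          show x :: (List.range' u (z + 1 - u) ++ dec l'') = _
          rw [h5]
        · simp only [List.length_cons] at h2 ⊢
          simp only [des, jmp]
          omega
        · intro p hp
          rcases List.mem_cons.1 hp with hp | hp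
          · subst hp
            have h6 := h4 (u, z) (by simp)
            refine ⟨by simp only; omega, by simp, ?_⟩
            exact List.mem_cons_of_mem _ h6.2.2
          · have h6 := h4 p (List.mem_cons_of_mem _ hp)
            exact ⟨h6.1, List.mem_cons_of_mem _ h6.2.1, List.mem_cons_of_mem _ h6.2.2⟩
      · refine ⟨(x, x) :: (u, z) :: l'', ?_, ?_, by simp, ?_⟩
        · unfold dec at h1 ⊢
          rw [List.flatMap_cons, h1]
          simp
        · simp only [List.length_cons] at h2 ⊢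
          simp only [des, jmp]
          split_ifs <;> omega
        · intro p hp
          rcases List.mem_cons.1 hp with hp | hp
          · subst hp
            simp
          · have h6 := h4 p hp
            exact ⟨h6.1, List.mem_cons_of_mem _ h6.2.1, List.mem_cons_of_mem _ h6.2.2⟩

theorem des_add_jmp_le (w : List ℕ) : des w + jmp w ≤ w.length := by
  induction w with
  | nil => simp [des, jmp]
  | cons x t ih =>
    rcases t with _ | ⟨y, t⟩
    · simp [des, jmp]
    · simp only [des, jmp, List.length_cons] at ih ⊢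
      split_ifs <;> omega

/-! ### The union bound -/

/-- The index set of the union bound: sequences of at most `W + 2` intervals in `[0, W]`. -/
def Codes (W : ℕ) : Finset ((ρ : ℕ) × (Fin ρ → ℕ × ℕ)) :=
  (range (W + 3)).sigma fun _ => Fintype.piFinset fun _ => range (W + 1) ×ˢ range (W + 1)

theorem codes_sum (W : ℕ) (θ κ : ℝ) (hθ0 : 0 ≤ θ) (hθ : ((W : ℝ) + 1) ^ 2 * θ ≤ 1 / 4) (hκ : 0 ≤ κ)
    (p : ((ρ : ℕ) × (Fin ρ → ℕ × ℕ)) → ℝ) (hp : ∀ e, p e ≤ κ * θ ^ e.1) :
    ∑ e ∈ Codes W, p e ≤ 2 * κ := by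
  unfold Codes
  rw [Finset.sum_sigma]
  calc ∑ ρ ∈ range (W + 3), ∑ f ∈ Fintype.piFinset fun _ : Fin ρ => range (W + 1) ×ˢ range (W + 1),
        p ⟨ρ, f⟩
      ≤ ∑ ρ ∈ range (W + 3), κ * (1 / 2) ^ ρ := by
        refine sum_le_sum fun ρ _ => ?_
        calc ∑ f ∈ Fintype.piFinset fun _ : Fin ρ => range (W + 1) ×ˢ range (W + 1), p ⟨ρ, f⟩
            ≤ ∑ _f ∈ Fintype.piFinset fun _ : Fin ρ => range (W + 1) ×ˢ range (W + 1), κ * θ ^ ρ :=
              sum_le_sum fun f _ => hp ⟨ρ, f⟩
          _ = κ * (((W : ℝ) + 1) ^ 2 * θ) ^ ρ := by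
              rw [sum_const, Fintype.card_piFinset_const, card_product, card_range, nsmul_eq_mul,
                mul_pow (((W : ℝ) + 1) ^ 2) θ ρ]
              push_cast
              rw [← pow_two]
              ring
          _ ≤ κ * (1 / 2) ^ ρ := by
              refine mul_le_mul_of_nonneg_left (pow_le_pow_left₀ (by positivity) ?_ ρ) hκ
              linarith
    _ = κ * ∑ ρ ∈ range (W + 3), (1 / 2 : ℝ) ^ ρ := by rw [mul_sum]
    _ ≤ κ * 2 := by
        refine mul_le_mul_of_nonneg_left ?_ hκ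
        have h1 : ∀ m : ℕ, ∑ ρ ∈ range m, (1 / 2 : ℝ) ^ ρ = 2 - 2 * (1 / 2) ^ m := by
          intro m
          induction m with
          | zero => simp
          | succ m ih =>
            rw [sum_range_succ, ih]
            ring
        rw [h1]
        have : (0 : ℝ) ≤ (1 / 2) ^ (W + 3) := by positivity
        linarith
    _ = 2 * κ := by ring

variable {V : Type} [Fintype V]

/-- Bound for one code. -/
theorem code_prob (adj : V → V → Prop) (π : V → ℝ) (h : Chain (Kb adj) π)
    (hpos : ∀ v, 0 < dg adj v) (θ : ℝ) (hθ0 : 0 < θ) (hθ1 : θ ≤ 1) (Q : ℕ)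
    (hγ : ∀ v, n2 adj v ≤ θ ^ Q * dg adj v) (W : ℕ) (L : ℝ) (hL : 0 ≤ L) (s : ℕ) (w : List ℕ)
    (C : List ℕ → Prop) (hC : C w → s ≤ Q * des w) :
    Ep (Kb adj) π W (fun g => ind (∃ a b, ∃ hw : w ≠ [], b ≤ W ∧ w.Nodup ∧
      (∀ x, x ∈ w ↔ a ≤ x ∧ x ≤ b) ∧ C w ∧ w.IsChain (StepOK adj g) ∧
      dg adj (g b) * π (g a) ≤ L * (dg adj (g (w.getLast hw)) * π (g (w.head hw))))) ≤
      L * θ ^ s := by
  by_cases hS : ∃ a b, w ≠ [] ∧ b ≤ W ∧ w.Nodup ∧ (∀ x, x ∈ w ↔ a ≤ x ∧ x ≤ b) ∧ C w
  · obtain ⟨a, b, hw, hb, hnd, hmem, hCw⟩ := hS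
    have h1 := rearr_prob adj π h hpos (θ ^ Q) hγ a b W hb w hw hnd hmem L hL
    have h2 : L * (θ ^ Q) ^ des w ≤ L * θ ^ s := by
      refine mul_le_mul_of_nonneg_left ?_ hL
      rw [← pow_mul]
      exact pow_le_pow_of_le_one hθ0.le hθ1 (hC hCw)
    refine le_trans ?_ (h1.trans h2)
    refine sum_le_sum fun v _ => mul_le_mul_of_nonneg_left ?_ (h.pnn v)
    refine Ex_mono h.knn W v _ _ fun g _ _ => ?_
    unfold ind
    split_ifs with h3 h4 h4
    · exact le_rfl
    · exfalso
      obtain ⟨a', b', hw', _, _, hmem', _, hch, hbd⟩ := h3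
      have hne : a ≤ b := by
        obtain ⟨x, hx⟩ := List.exists_mem_of_ne_nil w hw
        have := (hmem x).1 hx
        omega
      have ea : a = a' := by
        have e1 := (hmem' a).1 ((hmem a).2 ⟨le_rfl, hne⟩)
        have e2 := (hmem a').1 ((hmem' a').2 ⟨le_rfl, by omega⟩)
        omega
      have eb : b = b' := by
        have e1 := (hmem' b).1 ((hmem b).2 ⟨hne, le_rfl⟩)
        have e2 := (hmem b').1 ((hmem' b').2 ⟨by omega, le_rfl⟩)
        omega
      subst ea eb
      exact h4 ⟨hch, hbd⟩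
    · exact zero_le_one
    · exact le_rfl
  · have h1 : Ep (Kb adj) π W (fun g => ind (∃ a b, ∃ hw : w ≠ [], b ≤ W ∧ w.Nodup ∧
        (∀ x, x ∈ w ↔ a ≤ x ∧ x ≤ b) ∧ C w ∧ w.IsChain (StepOK adj g) ∧
        dg adj (g b) * π (g a) ≤ L * (dg adj (g (w.getLast hw)) * π (g (w.head hw))))) ≤ 0 := by
      have h2 : Ep (Kb adj) π W (fun _ => (0 : ℝ)) = 0 := by
        unfold Ep
        refine sum_eq_zero fun v _ => ?_
        rw [Ex_const h.row, mul_zero]
      rw [← h2]
      refine sum_le_sum fun v _ => mul_le_mul_of_nonneg_left ?_ (h.pnn v)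
      refine Ex_mono h.knn W v _ _ fun g _ _ => ?_
      unfold ind
      rw [if_neg]
      rintro ⟨a, b, hw, hb, hnd, hmem, hCw, _⟩
      exact hS ⟨a, b, hw, hb, hnd, hmem, hCw⟩
    exact h1.trans (mul_nonneg hL (pow_nonneg hθ0.le _))

/-! ### The pattern hypothesis and the deduction -/

/-- The pattern hypothesis with window `[0, W]`: every pattern without interval clique on `k + 2`
consecutive vertices has a window `[a, b]` with a valid Hamiltonian path `w` such that either
`jmp w + M ≤ q * des w`, or `w` goes from `a` to `b` with `1 ≤ des w` and `jmp w ≤ q * des w`. -/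
def PatHyp (q W k M : ℕ) : Prop :=
  ∀ A : ℕ → ℕ → Prop, (∀ i j, A i j → i < j ∧ j ≤ W) → (∀ i, i < W → A i (i + 1)) →
    (∀ i, i + k + 1 ≤ W → ∃ a b, i ≤ a ∧ a < b ∧ b ≤ i + k + 1 ∧ ¬ A a b) →
    ∃ a b w, a ≤ b ∧ b ≤ W ∧ Rear A (Sc A) a b w ∧
      (jmp w + M ≤ q * des w ∨
        (w.head? = some a ∧ w.getLast? = some b ∧ 1 ≤ des w ∧ jmp w ≤ q * des w))

theorem deduce (adj : V → V → Prop) [Nonempty V] (has : ∀ x y, adj x y → ¬ adj y x) (d : ℝ)
    (hd : 0 < d) (hdeg : ∀ v, d ≤ dg adj v) (q W k M : ℕ) (hyp : PatHyp q W k M)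
    (hk : 4 * ((W : ℝ) + 1) * (Fintype.card V / d) ≤ 2 ^ k)
    (hM : 64 * ((W : ℝ) + 1) * (Fintype.card V / d) ^ 2 ≤ 2 ^ M) :
    ∃ v, (1 / (4 * ((W : ℝ) + 1) ^ 2)) ^ (q + 4) * dg adj v ≤ n2 adj v := by
  classical
  by_contra hcon
  push Not at hcon
  have hpos : ∀ v, 0 < dg adj v := fun v => lt_of_lt_of_le hd (hdeg v)
  obtain ⟨π, h⟩ := exists_chain adj hpos
  have hn : (0 : ℝ) < Fintype.card V := by
    exact_mod_cast Fintype.card_pos
  have hW1 : (1 : ℝ) ≤ (W : ℝ) + 1 := by
    have : (0 : ℝ) ≤ W := Nat.cast_nonneg _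
    linarith
  have hW0 : (0 : ℝ) < (W : ℝ) + 1 := by linarith
  have hdgn : ∀ v, dg adj v ≤ Fintype.card V := by
    intro v
    unfold dg
    have h2 : {u | adj u v}.ncard ≤ Fintype.card V := by
      rw [← Nat.card_eq_fintype_card, ← Set.ncard_univ]
      exact Set.ncard_le_ncard (Set.subset_univ _) (Set.toFinite _)
    exact_mod_cast h2
  set N : ℝ := (Fintype.card V : ℝ) with hN
  have hNd : 1 ≤ N / d := by
    obtain ⟨v⟩ := (inferInstance : Nonempty V)
    rw [le_div_iff₀ hd, one_mul]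
    exact (hdeg v).trans (hdgn v)
  set θ : ℝ := 1 / (4 * ((W : ℝ) + 1) ^ 2) with hθ
  have hθ0 : 0 < θ := by rw [hθ]; positivity
  have hθW : ((W : ℝ) + 1) ^ 2 * θ = 1 / 4 := by
    rw [hθ]
    field_simp
  have hθ4 : θ ≤ 1 / 4 := by
    have h1 : (1 : ℝ) ≤ ((W : ℝ) + 1) ^ 2 := one_le_pow₀ hW1
    nlinarith
  set ε : ℝ := 1 / (4 * ((W : ℝ) + 1)) with hε
  have hε0 : 0 < ε := by rw [hε]; positivity
  set L : ℝ := (N / d) ^ 2 / ε with hL
  have hL0 : 0 < L := by rw [hL]; positivity
  have hLM : 16 * L ≤ 2 ^ M := by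
    have e : 16 * L = 64 * ((W : ℝ) + 1) * (N / d) ^ 2 := by
      rw [hL, hε]
      field_simp
      ring
    rw [e]
    exact hM
  have hM1 : 1 ≤ M := by
    by_contra hc
    have h0 : M = 0 := by omega
    rw [h0, pow_zero] at hM
    have h1 : (1 : ℝ) ≤ (N / d) ^ 2 := one_le_pow₀ hNd
    nlinarith
  -- events
  set s4 : Finset ℕ := (Finset.range (W + 1)).filter (fun i => i + k + 1 ≤ W) with hs4
  set C1 : ℕ → List ℕ → Prop := fun ρ w => ρ ≤ des w + jmp w + 1 ∧ jmp w + M ≤ q * des w with hC1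
  set C2 : ℕ → List ℕ → Prop := fun ρ w => ρ ≤ des w + jmp w + 1 ∧ 1 ≤ des w ∧ jmp w ≤ q * des w
    with hC2
  set B1 : ((ρ : ℕ) × (Fin ρ → ℕ × ℕ)) → (ℕ → V) → Prop := fun e g =>
    ∃ a b, ∃ hw : dec (List.ofFn e.2) ≠ [], b ≤ W ∧ (dec (List.ofFn e.2)).Nodup ∧
      (∀ x, x ∈ dec (List.ofFn e.2) ↔ a ≤ x ∧ x ≤ b) ∧ C1 e.1 (dec (List.ofFn e.2)) ∧
      (dec (List.ofFn e.2)).IsChain (StepOK adj g) ∧
      dg adj (g b) * π (g a) ≤ L * (dg adj (g ((dec (List.ofFn e.2)).getLast hw)) *
        π (g ((dec (List.ofFn e.2)).head hw))) with hB1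
  set B2 : ((ρ : ℕ) × (Fin ρ → ℕ × ℕ)) → (ℕ → V) → Prop := fun e g =>
    ∃ a b, ∃ hw : dec (List.ofFn e.2) ≠ [], b ≤ W ∧ (dec (List.ofFn e.2)).Nodup ∧
      (∀ x, x ∈ dec (List.ofFn e.2) ↔ a ≤ x ∧ x ≤ b) ∧ C2 e.1 (dec (List.ofFn e.2)) ∧
      (dec (List.ofFn e.2)).IsChain (StepOK adj g) ∧
      dg adj (g b) * π (g a) ≤ 1 * (dg adj (g ((dec (List.ofFn e.2)).getLast hw)) *
        π (g ((dec (List.ofFn e.2)).head hw))) with hB2
  set B3 : ℕ → (ℕ → V) → Prop := fun i g => π (g i) < ε / N with hB3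
  set B4 : ℕ → (ℕ → V) → Prop := fun i g =>
    ∀ a b, i ≤ a → a < b → b ≤ i + k + 1 → adj (g b) (g a) with hB4
  have hγ : ∀ v, n2 adj v ≤ θ ^ (q + 4) * dg adj v := fun v => (hcon v).le
  have S1 : ∑ e ∈ Codes W, Ep (Kb adj) π W (fun g => ind (B1 e g)) ≤ 1 / 4 := by
    have h1 := codes_sum W θ (L * θ ^ (M - 1)) hθ0.le hθW.le (by positivity)
      (fun e => Ep (Kb adj) π W (fun g => ind (B1 e g))) (fun e => by
        have h2 := code_prob adj π h hpos θ hθ0 (by linarith) (q + 4) hγ W L hL0.le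
          (M - 1 + e.1) (dec (List.ofFn e.2)) (C1 e.1) (fun hC => by
            obtain ⟨h3, h4⟩ := hC
            rw [add_mul]
            omega)
        rw [pow_add, ← mul_assoc] at h2
        exact h2)
    refine h1.trans ?_
    have h3 : θ ^ (M - 1) ≤ (1 / 4) ^ (M - 1) := pow_le_pow_left₀ hθ0.le hθ4 _
    have h4 : ((1 : ℝ) / 4) ^ (M - 1) * 2 ^ M ≤ 2 := by
      obtain ⟨m, rfl⟩ : ∃ m, M = m + 1 := ⟨M - 1, by omega⟩
      rw [Nat.add_sub_cancel, pow_succ, ← mul_assoc, ← mul_pow]
      have h5 : ((1 : ℝ) / 4 * 2) ^ m ≤ 1 := pow_le_one₀ (by norm_num) (by norm_num)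
      linarith
    have h5 : L * θ ^ (M - 1) ≤ 2 ^ M / 16 * (1 / 4) ^ (M - 1) :=
      mul_le_mul (by linarith) h3 (by positivity) (by positivity)
    nlinarith
  have S2 : ∑ e ∈ Codes W, Ep (Kb adj) π W (fun g => ind (B2 e g)) ≤ 1 / 8 := by
    have h1 := codes_sum W θ (1 * θ ^ 2) hθ0.le hθW.le (by positivity)
      (fun e => Ep (Kb adj) π W (fun g => ind (B2 e g))) (fun e => by
        have h2 := code_prob adj π h hpos θ hθ0 (by linarith) (q + 4) hγ W 1 zero_le_one
          (2 + e.1) (dec (List.ofFn e.2)) (C2 e.1) (fun hC => by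
            obtain ⟨h3, h4, h5⟩ := hC
            rw [add_mul]
            omega)
        rw [pow_add, ← mul_assoc] at h2
        exact h2)
    refine h1.trans ?_
    nlinarith
  have S3 : ∑ e ∈ (Finset.range (W + 1)), Ep (Kb adj) π W (fun g => ind (B3 e g)) ≤ 1 / 4 := by
    calc ∑ e ∈ (Finset.range (W + 1)), Ep (Kb adj) π W (fun g => ind (B3 e g))
        ≤ ∑ _e ∈ (Finset.range (W + 1)), ε := by
          refine Finset.sum_le_sum fun e he => ?_
          simp only [Finset.mem_range] at he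
          exact prob_small adj π h ε hε0.le e W (by omega)
      _ = ((W : ℝ) + 1) * ε := by
          rw [Finset.sum_const, nsmul_eq_mul, Finset.card_range]
          push_cast
          ring
      _ = 1 / 4 := by
          rw [hε]
          field_simp
      _ ≤ 1 / 4 := le_rfl
  have S4 : ∑ e ∈ s4, Ep (Kb adj) π W (fun g => ind (B4 e g)) ≤ 1 / 4 := by
    have h2 : N / (2 ^ k * d) ≤ ε := by
      rw [hε, div_le_div_iff₀ (by positivity) (by positivity)]
      have h3 := mul_le_mul_of_nonneg_right hk hd.le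
      have h4 : 4 * ((W : ℝ) + 1) * (N / d) * d = N * (4 * ((W : ℝ) + 1)) := by
        have := hd.ne'
        field_simp
      rw [h4] at h3
      linarith
    calc ∑ e ∈ s4, Ep (Kb adj) π W (fun g => ind (B4 e g)) ≤ ∑ _e ∈ s4, ε := by
          refine Finset.sum_le_sum fun e he => ?_
          simp only [hs4, Finset.mem_filter, Finset.mem_range] at he
          exact (clique_prob adj has π h d hd hdeg e k W he.2).trans h2
      _ = s4.card * ε := by rw [Finset.sum_const, nsmul_eq_mul]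
      _ ≤ ((W : ℝ) + 1) * ε := by
          refine mul_le_mul_of_nonneg_right ?_ hε0.le
          have h1 : s4.card ≤ W + 1 := (Finset.card_filter_le _ _).trans
            (le_of_eq (Finset.card_range _))
          exact_mod_cast h1
      _ = 1 / 4 := by
          rw [hε]
          field_simp
      _ ≤ 1 / 4 := le_rfl
  obtain ⟨g, hg0, hgs, hgB⟩ := exists_path h
    (s := ((Codes W).disjSum (Codes W)).disjSum ((Finset.range (W + 1)).disjSum s4)) W
    (Sum.elim (Sum.elim B1 B2) (Sum.elim B3 B4)) (by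
      rw [Finset.sum_disjSum, Finset.sum_disjSum, Finset.sum_disjSum]
      simp only [Sum.elim_inl, Sum.elim_inr]
      linarith)
  have G1 : ∀ e ∈ Codes W, ¬ B1 e g := fun e he =>
    hgB (Sum.inl (Sum.inl e)) (by simp [he])
  have G2 : ∀ e ∈ Codes W, ¬ B2 e g := fun e he =>
    hgB (Sum.inl (Sum.inr e)) (by simp [he])
  have G3 : ∀ e ∈ (Finset.range (W + 1)), ¬ B3 e g := fun e he =>
    hgB (Sum.inr (Sum.inl e)) (by simp [he])
  have G4 : ∀ e ∈ s4, ¬ B4 e g := fun e he =>
    hgB (Sum.inr (Sum.inr e)) (by simp [he])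
  have hstep : ∀ i, i < W → adj (g (i + 1)) (g i) := by
    intro i hi
    have h1 := hgs i hi
    unfold Kb at h1
    by_contra hc
    rw [if_neg hc] at h1
    exact lt_irrefl _ h1
  obtain ⟨a, b, w, hab, hbW, hR, hor⟩ := hyp (fun i j => i < j ∧ j ≤ W ∧ adj (g j) (g i))
    (fun i j hij => ⟨hij.1, hij.2.1⟩) (fun i hi => ⟨by omega, by omega, hstep i hi⟩) (by
      intro i hi
      have h4 := G4 i (by
        simp only [hs4, Finset.mem_filter, Finset.mem_range]
        omega)
      simp only [hB4] at h4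
      push Not at h4
      obtain ⟨a, b, h5, h6, h7, h8⟩ := h4
      exact ⟨a, b, h5, h6, h7, fun h9 => h8 h9.2.2⟩)
  have hw : w ≠ [] := by
    intro h0
    have h1 := (hR.mem a).2 ⟨le_rfl, hab⟩
    rw [h0] at h1
    simp at h1
  have hch : w.IsChain (StepOK adj g) := by
    refine List.IsChain.imp ?_ hR.chain
    rintro i j (⟨h1, h2⟩ | ⟨h1, h2, m, h3, h4⟩)
    · exact Or.inl ⟨h1, h2.2.2⟩
    · refine Or.inr ⟨h1, ?_, ?_, g m, h4.2.2, h3.2.2⟩
      · intro he
        have h5 := h3.2.2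
        rw [he] at h5
        exact has _ _ h5 h4.2.2
      · intro h5
        exact h2 ⟨h1, h4.2.1, h5⟩
  obtain ⟨l, hl1, hl2, hl3, hl4⟩ := exists_runs w hw hR.nodup
  have hwW : ∀ x ∈ w, x < W + 1 := by
    intro x hx
    have := (hR.mem x).1 hx
    omega
  have hlen : w.length ≤ W + 1 := by
    have h1 : w.toFinset ⊆ Finset.range (W + 1) := by
      intro x hx
      rw [List.mem_toFinset] at hx
      exact Finset.mem_range.2 (hwW x hx)
    have h2 := Finset.card_le_card h1
    rwa [List.toFinset_card_of_nodup hR.nodup, Finset.card_range] at h2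
  have hcode : (⟨l.length, l.get⟩ : (ρ : ℕ) × (Fin ρ → ℕ × ℕ)) ∈ Codes W := by
    unfold Codes
    rw [Finset.mem_sigma]
    refine ⟨?_, ?_⟩
    · rw [Finset.mem_range]
      have := des_add_jmp_le w
      show l.length < W + 3
      omega
    · rw [Fintype.mem_piFinset]
      intro t
      rw [Finset.mem_product, Finset.mem_range, Finset.mem_range]
      have h1 := hl4 (l.get t) (List.get_mem l t)
      exact ⟨hwW _ h1.2.1, hwW _ h1.2.2⟩
  have hdecw : dec (List.ofFn (⟨l.length, l.get⟩ : (ρ : ℕ) × (Fin ρ → ℕ × ℕ)).2) = w := by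
    show dec (List.ofFn l.get) = w
    rw [List.ofFn_get, hl1]
  rcases hor with hor | ⟨ho1, ho2, ho3, ho4⟩
  · refine G1 _ hcode ?_
    simp only [hB1]
    have hb1 : dg adj (g b) * π (g a) ≤ L * (dg adj (g (w.getLast hw)) * π (g (w.head hw))) := by
      have e1 : dg adj (g b) * π (g a) ≤ N * (1 / d) :=
        mul_le_mul (hdgn _) (pi_le adj π h d hd hdeg _) (h.pnn _) hn.le
      have hin : w.head hw < W + 1 := hwW _ (List.head_mem hw)
      have h6 := G3 (w.head hw) (Finset.mem_range.2 hin)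
      simp only [hB3, not_lt] at h6
      have e2 : d * (ε / N) ≤ dg adj (g (w.getLast hw)) * π (g (w.head hw)) :=
        mul_le_mul (hdeg _) h6 (by positivity) (hpos _).le
      have e3 : L * (d * (ε / N)) = N * (1 / d) := by
        rw [hL]
        have := hd.ne'
        have := hε0.ne'
        have := hn.ne'
        field_simp
      calc dg adj (g b) * π (g a) ≤ N * (1 / d) := e1
        _ = L * (d * (ε / N)) := e3.symm
        _ ≤ L * (dg adj (g (w.getLast hw)) * π (g (w.head hw))) :=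
            mul_le_mul_of_nonneg_left e2 hL0.le
    refine ⟨a, b, ?_⟩
    rw [hdecw]
    exact ⟨hw, hbW, hR.nodup, hR.mem, ⟨hl2, hor⟩, hch, hb1⟩
  · refine G2 _ hcode ?_
    simp only [hB2]
    have hh : w.head hw = a := by
      rw [List.head?_eq_some_head hw] at ho1
      exact Option.some.inj ho1
    have hl : w.getLast hw = b := by
      rw [List.getLast?_eq_some_getLast hw] at ho2
      exact Option.some.inj ho2
    refine ⟨a, b, ?_⟩
    rw [hdecw]
    refine ⟨hw, hbW, hR.nodup, hR.mem, ⟨hl2, ho3, ho4⟩, hch, ?_⟩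
    rw [hh, hl, one_mul]

end Pool.Agent.Sul
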