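import Mathlib

/-!
# MP_109285_co (Sullivan's second neighbourhood problem): definitions

*Combinatorial part.*  Sequences `x y : ℕ → ℝ` (`x i` is the logarithm of the in-degree and `y i` the
logarithm of the stationary weight of the `i`-th vertex of a backward walk), and real numbers `M T`.

*Probabilistic part.*  Expectations along a Markov chain with finite state space, as iterated sums.
-/

set_option autoImplicit false

namespace Pool.Agent.Sul

/-! ## Combinatorial part -/

/-- The pair `(i, j)` is *bad*: `x_k + y_(k+1) + M ≤ x_j + y_i` for all `k ∈ [i, j)`. -/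
def Bad (x y : ℕ → ℝ) (M : ℝ) (i j : ℕ) : Prop :=
  ∀ k, i ≤ k → k < j → x k + y (k + 1) + M ≤ x j + y i

/-- The closure: consecutive pairs are in, and a pair which is not bad and extends a pair of the
closure by one step (on either side) is in. -/
inductive Gc (x y : ℕ → ℝ) (M : ℝ) : ℕ → ℕ → Prop
  | unit (i : ℕ) : Gc x y M i (i + 1)
  | right (i j : ℕ) : Gc x y M i j → ¬ Bad x y M i (j + 1) → Gc x y M i (j + 1)
  | left (i j : ℕ) : Gc x y M (i + 1) j → ¬ Bad x y M i j → Gc x y M i j

/-- Feasibility with tolerance `T` in the window `[p, q]`. -/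
def Feas (x y : ℕ → ℝ) (M T : ℝ) (p q : ℕ) : Prop :=
  ∀ i j, p ≤ i → j ≤ q → Gc x y M i j → ∀ k, i ≤ k → k < j → x k + y (k + 1) ≤ x i + y j + T

/-- All pairs of the window `[p, q]` are in the closure. -/
def Cliq (x y : ℕ → ℝ) (M : ℝ) (p q : ℕ) : Prop :=
  ∀ i j, p ≤ i → i < j → j ≤ q → Gc x y M i j

/-! ### The growth lemma -/

/-- `[c, a]` is shielded: some `m` strictly between `c` and `a` has `X m ≥ Y c` and `Y m > X a`. -/
def Shield (X Y : ℕ → ℝ) (c a : ℕ) : Prop :=
  ∃ m, c < m ∧ m < a ∧ Y c ≤ X m ∧ X a < Y m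

/-- The intervals `[c, a]` reached by the growth started at the unit interval `[v, v+1]`: a red
interval (`Y c ≤ X a`) grows to the right, a blue interval (`X a < Y c`) grows to the left, if the new
interval is shielded. -/
inductive Reach (X Y : ℕ → ℝ) (v : ℕ) : ℕ → ℕ → Prop
  | unit : Reach X Y v v (v + 1)
  | right (c a : ℕ) : Reach X Y v c a → Y c ≤ X a → Shield X Y c (a + 1) → Reach X Y v c (a + 1)
  | left (c a : ℕ) : Reach X Y v (c + 1) a → X a < Y (c + 1) → Shield X Y c a → Reach X Y v c a

/-! ## Probabilistic part -/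

/-- Prepend a state to a path. -/
def cons {V : Type} (v : V) (g : ℕ → V) : ℕ → V
  | 0 => v
  | i + 1 => g i

/-- Expectation of `F` along the first `n` steps of the chain with transition matrix `K` started at
`v` (later entries of the path are constant). -/
noncomputable def Ex {V : Type} [Fintype V] (K : V → V → ℝ) : ℕ → V → ((ℕ → V) → ℝ) → ℝ
  | 0, v, F => F (fun _ => v)
  | n + 1, v, F => ∑ w, K v w * Ex K n w (fun g => F (cons v g))

/-- Expectation with initial weights `π`. -/
noncomputable def Ep {V : Type} [Fintype V] (K : V → V → ℝ) (π : V → ℝ) (n : ℕ)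
    (F : (ℕ → V) → ℝ) : ℝ :=
  ∑ v, π v * Ex K n v F

/-- `K` is a stochastic matrix with stationary distribution `π`. -/
structure Chain {V : Type} [Fintype V] (K : V → V → ℝ) (π : V → ℝ) : Prop where
  knn : ∀ v w, 0 ≤ K v w
  row : ∀ v, ∑ w, K v w = 1
  pnn : ∀ v, 0 ≤ π v
  psum : ∑ v, π v = 1
  stat : ∀ w, ∑ v, π v * K v w = π w

open Classical in
/-- Indicator of a proposition. -/
noncomputable def ind (P : Prop) : ℝ := if P then 1 else 0

/-- In-degree. -/
noncomputable def dg {V : Type} (adj : V → V → Prop) (v : V) : ℝ := ({u | adj u v}.ncard : ℝ)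

/-- Size of the second out-neighbourhood. -/
noncomputable def n2 {V : Type} (adj : V → V → Prop) (v : V) : ℝ :=
  ({w | w ≠ v ∧ ¬ adj v w ∧ ∃ u, adj v u ∧ adj u w}.ncard : ℝ)

open Classical in
/-- The backward step: from `v` to a uniformly random in-neighbour `w` of `v`. -/
noncomputable def Kb {V : Type} (adj : V → V → Prop) (v w : V) : ℝ :=
  if adj w v then 1 / dg adj v else 0

end Pool.Agent.Sul
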