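import Pool.Agent.Sul.LemG

/-!
# MP_109285_co, module GM: a pair outside the closure
-/

set_option autoImplicit false

namespace Pool.Agent.Sul

theorem Gc.lt {x y : ℕ → ℝ} {M : ℝ} {i j : ℕ} (h : Gc x y M i j) : i < j := by
  induction h with
  | unit i => exact Nat.lt_succ_self i
  | right i j _ _ ih => omega
  | left i j _ _ ih => omega

theorem GM (x y : ℕ → ℝ) (M : ℝ) (hM : 0 ≤ M) (i j : ℕ) (hij : i < j) (h : ¬ Gc x y M i j) :
    ∃ a c, i ≤ a ∧ a < j ∧ (a = i ∨ Gc x y M i a) ∧ i < c ∧ c ≤ j ∧ (c = j ∨ Gc x y M c j) ∧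
      x a + y c + M ≤ x j + y i := by
  classical
  obtain ⟨a0, ha0, hmin⟩ := Finset.exists_min_image
    ((Finset.Ico i j).filter (fun a => a = i ∨ Gc x y M i a)) x
    ⟨i, by simp [hij]⟩
  simp only [Finset.mem_filter, Finset.mem_Ico] at ha0 hmin
  obtain ⟨α, hα⟩ : ∃ α, α = x a0 := ⟨_, rfl⟩
  obtain ⟨X, hX⟩ : ∃ X : ℕ → ℝ, X = fun m => x (i + m - 1) := ⟨_, rfl⟩
  obtain ⟨Y, hY⟩ : ∃ Y : ℕ → ℝ, Y = fun c => if c = 0 then α else y (i + c) + (α - y i + M) :=
    ⟨_, rfl⟩
  have hY0 : Y 0 = α := by rw [hY]; simp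
  have hYs : ∀ c, 0 < c → Y c = y (i + c) + (α - y i + M) := by
    intro c hc
    rw [hY]
    simp [hc.ne']
  have hXm : ∀ m, X m = x (i + m - 1) := by
    intro m
    rw [hX]
  have hsh : ∀ c a, Shield X Y c a → ¬ Bad x y M (i + c) (i + a - 1) := by
    rintro c a ⟨m, h1, h2, h3, h4⟩ hb
    have h5 := hb (i + m - 1) (by omega) (by omega)
    rw [show i + m - 1 + 1 = i + m by omega] at h5
    rw [hXm] at h3 h4
    rw [hYs m (by omega)] at h4
    rcases Nat.eq_zero_or_pos c with h6 | h6
    · subst h6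
      rw [hY0] at h3
      rw [Nat.add_zero] at h5
      linarith
    · rw [hYs c h6] at h3
      linarith
  have hre : ∀ v c a, Reach X Y v c a → i + a - 1 = i + c ∨ Gc x y M (i + c) (i + a - 1) := by
    intro v c a hr
    induction hr with
    | unit => exact Or.inl (by omega)
    | right c a hr' _ hs ih =>
      right
      have hb := hr'.bounds
      have h5 := hsh _ _ hs
      rcases ih with ih | ih
      · rw [show i + (a + 1) - 1 = i + c + 1 by omega]
        exact Gc.unit _
      · rw [show i + (a + 1) - 1 = i + a - 1 + 1 by omega] at h5 ⊢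
        exact Gc.right _ _ ih h5
    | left c a hr' _ hs ih =>
      right
      have h5 := hsh _ _ hs
      rcases ih with ih | ih
      · rw [ih, ← Nat.add_assoc]
        exact Gc.unit _
      · exact Gc.left _ _ ih h5
  obtain ⟨v, hv, c, a, h1, h2, h3⟩ := lemG X Y (j - i + 1) (by omega)
  have hb := h1.bounds
  have h4 := hre v c a h1
  rcases h3 with ⟨h3, h5⟩ | ⟨h3, h5⟩
  · have h6 : i + a - 1 = j := by omega
    rw [h6] at h4
    rcases Nat.eq_zero_or_pos c with h7 | h7
    · subst h7
      rw [Nat.add_zero] at h4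
      rcases h4 with h4 | h4
      · omega
      · exact absurd h4 h
    · rw [hYs c h7, hXm, h6] at h3
      refine ⟨a0, i + c, ha0.1.1, ha0.1.2, ha0.2, by omega, by omega, ?_, ?_⟩
      · rcases h4 with h4 | h4
        · exact Or.inl h4.symm
        · exact Or.inr h4
      · rw [← hα]
        linarith
  · subst h5
    rw [hY0, hXm] at h3
    rw [Nat.add_zero] at h4
    exfalso
    rcases Nat.eq_or_lt_of_le h2 with h6 | h6
    · have h7 : i + a - 1 = j := by omega
      rw [h7] at h4
      rcases h4 with h4 | h4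
      · omega
      · exact h h4
    · have h8 := hmin (i + a - 1) ⟨⟨by omega, by omega⟩, h4⟩
      rw [← hα] at h8
      linarith

end Pool.Agent.Sul
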