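import Pool.Agent.Sul.Defs

/-!
# MP_109285_co, module LemG: the growth lemma
-/

set_option autoImplicit false

namespace Pool.Agent.Sul

variable {X Y : ℕ → ℝ}

theorem Reach.bounds {v c a : ℕ} (h : Reach X Y v c a) : c ≤ v ∧ v < a := by
  induction h with
  | unit => exact ⟨le_rfl, Nat.lt_succ_self _⟩
  | right c a _ _ _ ih => exact ⟨ih.1, by omega⟩
  | left c a _ _ _ ih => exact ⟨by omega, ih.2⟩

theorem Reach.inv {v c a : ℕ} (h : Reach X Y v c a) :
    (∀ k, v < k → k ≤ a → min (X a) (Y c) ≤ X k) ∧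
    (∀ k, c ≤ k → k ≤ v → min (X a) (Y c) ≤ Y k) ∧
    (∀ k, c < k → k ≤ v → min (X a) (Y c) < Y k) := by
  induction h with
  | unit =>
    refine ⟨fun k h1 h2 => ?_, fun k h1 h2 => ?_, fun k h1 h2 => ?_⟩
    · have : k = v + 1 := by omega
      subst this
      exact min_le_left _ _
    · have : k = v := by omega
      subst this
      exact min_le_right _ _
    · omega
  | right c a _ hr _ ih =>
    have hmin : min (X a) (Y c) = Y c := min_eq_right hr
    rw [hmin] at ih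
    refine ⟨fun k h1 h2 => ?_, fun k h1 h2 => ?_, fun k h1 h2 => ?_⟩
    · rcases Nat.lt_or_ge k (a + 1) with h3 | h3
      · exact (min_le_right _ _).trans (ih.1 k h1 (by omega))
      · have : k = a + 1 := by omega
        subst this
        exact min_le_left _ _
    · exact (min_le_right _ _).trans (ih.2.1 k h1 h2)
    · exact lt_of_le_of_lt (min_le_right _ _) (ih.2.2 k h1 h2)
  | left c a _ hb _ ih =>
    have hmin : min (X a) (Y (c + 1)) = X a := min_eq_left hb.le
    rw [hmin] at ih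
    refine ⟨fun k h1 h2 => ?_, fun k h1 h2 => ?_, fun k h1 h2 => ?_⟩
    · exact (min_le_left _ _).trans (ih.1 k h1 h2)
    · rcases Nat.eq_or_lt_of_le h1 with h3 | h3
      · subst h3
        exact min_le_right _ _
      · exact (min_le_left _ _).trans (ih.2.1 k h3 h2)
    · rcases Nat.eq_or_lt_of_le (Nat.succ_le_of_lt h1) with h3 | h3
      · have h4 : k = c + 1 := by omega
        subst h4
        exact lt_of_le_of_lt (min_le_left _ _) hb
      · exact lt_of_le_of_lt (min_le_left _ _) (ih.2.2 k h3 h2)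

/-- (F1) A row absorbed by a step to the left was shielded. -/
theorem Reach.row {u c a : ℕ} (h : Reach X Y u c a) (k : ℕ) (hk : c ≤ k) (hku : k < u) :
    ∃ a' m, a' ≤ a ∧ k < m ∧ m < a' ∧ Y k ≤ X m := by
  induction h with
  | unit => omega
  | right c a _ _ _ ih =>
    obtain ⟨a', m, h1, h2, h3, h4⟩ := ih hk
    exact ⟨a', m, by omega, h2, h3, h4⟩
  | left c a _ _ hs ih =>
    rcases Nat.eq_or_lt_of_le hk with h3 | h3
    · subst h3
      obtain ⟨m, h1, h2, h3, _⟩ := hs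
      exact ⟨a, m, le_rfl, h1, h2, h3⟩
    · exact ih h3

/-- (F2) If the unit is blue, the first step is to the left. -/
theorem Reach.blue {u c a : ℕ} (h : Reach X Y u c a) (hb : X (u + 1) < Y u) :
    (c = u ∧ a = u + 1) ∨ ∃ u', u = u' + 1 ∧ Y u' ≤ X u := by
  induction h with
  | unit => exact Or.inl ⟨rfl, rfl⟩
  | right c a _ hr _ ih =>
    rcases ih with ⟨h1, h2⟩ | h1
    · subst h1 h2
      exact absurd hr (not_le.2 hb)
    · exact Or.inr h1
  | left c a _ _ hs ih =>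
    rcases ih with ⟨h1, h2⟩ | h1
    · obtain ⟨m, h3, h4, h5, _⟩ := hs
      have h6 : m = u := by omega
      subst h6
      exact Or.inr ⟨c, h1.symm, h5⟩
    · exact Or.inr h1

/-- (F3) If the unit is red, the first step is to the right. -/
theorem Reach.red {u c a : ℕ} (h : Reach X Y u c a) (hr : Y u ≤ X (u + 1)) :
    (c = u ∧ a = u + 1) ∨ (u + 2 ≤ a ∧ X (u + 2) < Y (u + 1)) := by
  induction h with
  | unit => exact Or.inl ⟨rfl, rfl⟩
  | right c a _ _ hs ih =>
    rcases ih with ⟨h1, h2⟩ | ⟨h1, h2⟩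
    · subst h1 h2
      obtain ⟨m, h3, h4, _, h5⟩ := hs
      have h6 : m = c + 1 := by omega
      subst h6
      exact Or.inr ⟨le_rfl, h5⟩
    · exact Or.inr ⟨by omega, h2⟩
  | left c a _ hb _ ih =>
    rcases ih with ⟨h1, h2⟩ | h1
    · subst h2
      rw [h1] at hb
      exact absurd hr (not_le.2 hb)
    · exact Or.inr h1

/-- The key step: a red stuck interval of an earlier growth is not an obstacle. -/
theorem key {u c a v i x : ℕ} (hu : Reach X Y u c a) (hred : Y c ≤ X a)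
    (hns : ¬ Shield X Y c (a + 1)) (hva : a ≤ v) (hv : Reach X Y v (i + 1) x)
    (hblue : X x < Y (i + 1)) (hci : c < i + 1) (hia : i + 1 ≤ a) : Shield X Y i x := by
  by_contra hns2
  have bu := hu.bounds
  have bv := hv.bounds
  obtain ⟨iu1, iu2, iu3⟩ := hu.inv
  obtain ⟨iv1, iv2, iv3⟩ := hv.inv
  rw [min_eq_right hred] at iu1 iu2 iu3
  rw [min_eq_left hblue.le] at iv1 iv2 iv3
  have hrow : ∀ m, i + 1 ≤ m → m ≤ v → X x < Y m := by
    intro m h1 h2
    rcases Nat.eq_or_lt_of_le h1 with h3 | h3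
    · subst h3
      exact hblue
    · exact iv3 m h3 h2
  have hlow : ∀ m, i + 1 ≤ m → m ≤ v → X m < Y i := by
    intro m h1 h2
    by_contra h3
    exact hns2 ⟨m, by omega, by omega, not_lt.1 h3, hrow m h1 h2⟩
  have h1 : X a < Y i := hlow a hia hva
  have h2 : c < i := by
    rcases Nat.eq_or_lt_of_le (Nat.le_of_lt_succ hci) with h3 | h3
    · subst h3
      exact absurd hred (not_le.2 h1)
    · exact h3
  by_cases h3 : Y c ≤ X i
  · have h4 : Y i ≤ X (a + 1) := by
      by_contra h5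
      exact hns ⟨i, h2, by omega, h3, not_le.1 h5⟩
    have h5 : Y a ≤ X (a + 1) := by
      by_contra h6
      exact hns ⟨a, by omega, by omega, hred, not_le.1 h6⟩
    rcases Nat.eq_or_lt_of_le hva with h6 | h6
    · subst h6
      rcases hv.red h5 with ⟨h7, h8⟩ | ⟨h7, h8⟩
      · subst h8
        rw [h7] at hblue
        exact absurd h5 (not_le.2 hblue)
      · have h9 : X x ≤ X (a + 2) := iv1 (a + 2) (by omega) h7
        exact hns2 ⟨a + 1, by omega, by omega, h4, lt_of_le_of_lt h9 h8⟩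
    · exact absurd h4 (not_le.2 (hlow (a + 1) (by omega) (by omega)))
  · have h3' : X i < Y c := not_le.1 h3
    have h4 : i ≤ u := by
      by_contra h5
      exact h3 (iu1 i (by omega) (by omega))
    rcases Nat.eq_or_lt_of_le h4 with h5 | h5
    · subst h5
      have h6 : X (i + 1) < Y i := hlow (i + 1) le_rfl (by omega)
      rcases hu.blue h6 with ⟨h7, _⟩ | ⟨u', h7, h8⟩
      · omega
      · have h9 : Y c ≤ Y u' := iu2 u' (by omega) (by omega)
        linarith
    · obtain ⟨a', m, h6, h7, h8, h9⟩ := hu.row i (by omega) h5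
      exact absurd h9 (not_le.2 (hlow m (by omega) (by omega)))

/-- Every growth reaches the boundary or is stuck. -/
theorem stuck (n v : ℕ) (N : ℕ) : ∀ c a, Reach X Y v c a → a ≤ n → (n - a) + c ≤ N →
    ∃ c a, Reach X Y v c a ∧ a ≤ n ∧ ((Y c ≤ X a ∧ a = n) ∨ (X a < Y c ∧ c = 0) ∨
      (Y c ≤ X a ∧ a < n ∧ ¬ Shield X Y c (a + 1)) ∨
      (∃ i, c = i + 1 ∧ X a < Y c ∧ ¬ Shield X Y i a)) := by
  induction N with
  | zero =>
    intro c a h h1 h2
    have h3 : a = n := by omega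
    have h4 : c = 0 := by omega
    rcases le_or_gt (Y c) (X a) with h5 | h5
    · exact ⟨c, a, h, h1, Or.inl ⟨h5, h3⟩⟩
    · exact ⟨c, a, h, h1, Or.inr (Or.inl ⟨h5, h4⟩)⟩
  | succ N ih =>
    intro c a h h1 h2
    rcases le_or_gt (Y c) (X a) with h5 | h5
    · rcases Nat.eq_or_lt_of_le h1 with h3 | h3
      · exact ⟨c, a, h, h1, Or.inl ⟨h5, h3⟩⟩
      · by_cases hs : Shield X Y c (a + 1)
        · exact ih c (a + 1) (Reach.right c a h h5 hs) h3 (by omega)
        · exact ⟨c, a, h, h1, Or.inr (Or.inr (Or.inl ⟨h5, h3, hs⟩))⟩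
    · rcases Nat.eq_zero_or_pos c with h4 | h4
      · exact ⟨c, a, h, h1, Or.inr (Or.inl ⟨h5, h4⟩)⟩
      · obtain ⟨i, rfl⟩ : ∃ i, c = i + 1 := ⟨c - 1, by omega⟩
        by_cases hs : Shield X Y i a
        · exact ih i a (Reach.left i a h h5 hs) h1 (by omega)
        · exact ⟨i + 1, a, h, h1, Or.inr (Or.inr (Or.inr ⟨i, rfl, h5, hs⟩))⟩

theorem lemG (X Y : ℕ → ℝ) (n : ℕ) (hn : 0 < n) :
    ∃ v, v < n ∧ ∃ c a, Reach X Y v c a ∧ a ≤ n ∧
      ((Y c ≤ X a ∧ a = n) ∨ (X a < Y c ∧ c = 0)) := by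
  by_contra hcon
  have hst : ∀ v, v < n → (∃ c a, Reach X Y v c a ∧ a < n ∧ Y c ≤ X a ∧ ¬ Shield X Y c (a + 1)) ∨
      (∃ i a, Reach X Y v (i + 1) a ∧ X a < Y (i + 1) ∧ ¬ Shield X Y i a) := by
    intro v hv
    obtain ⟨c, a, h1, h2, h3⟩ := stuck (X := X) (Y := Y) n v ((n - (v + 1)) + v) v (v + 1)
      Reach.unit hv le_rfl
    rcases h3 with h3 | h3 | h3 | ⟨i, hi, h3⟩
    · exact absurd ⟨v, hv, c, a, h1, h2, Or.inl h3⟩ hcon
    · exact absurd ⟨v, hv, c, a, h1, h2, Or.inr h3⟩ hcon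
    · exact Or.inl ⟨c, a, h1, h3.2.1, h3.1, h3.2.2⟩
    · subst hi
      exact Or.inr ⟨i, a, h1, h3.1, h3.2⟩
  have hmain : ∀ N v, v < n → n - v ≤ N → (∀ i, 0 < i → i ≤ v → ∃ u c a, Reach X Y u c a ∧
      Y c ≤ X a ∧ ¬ Shield X Y c (a + 1) ∧ c < i ∧ i ≤ a ∧ a ≤ v) → False := by
    intro N
    induction N with
    | zero => intro v hv h1 _; omega
    | succ N ih =>
      intro v hv h1 hP
      rcases hst v hv with ⟨c, a, h2, h3, h4, h5⟩ | ⟨i, a, h2, h3, h4⟩
      · have hb := h2.bounds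
        refine ih a h3 (by omega) ?_
        intro i hi hia
        rcases Nat.lt_or_ge v i with h6 | h6
        · exact ⟨v, c, a, h2, h4, h5, by omega, hia, le_rfl⟩
        · obtain ⟨u, c', a', g1, g2, g3, g4, g5, g6⟩ := hP i hi h6
          exact ⟨u, c', a', g1, g2, g3, g4, g5, by omega⟩
      · have hb := h2.bounds
        obtain ⟨u, c', a', g1, g2, g3, g4, g5, g6⟩ := hP (i + 1) (by omega) hb.1
        exact h4 (key g1 g2 g3 g6 h2 h3 g4 g5)
  exact hmain (n - 0) 0 hn le_rfl (fun i h1 h2 => by omega)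

end Pool.Agent.Sul
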