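import Pool.Agent.Sul.Defs

/-!
# MP_109285_co, module MC: basic facts on `Ex`, `Ep`

All proofs are by induction on the number of steps, unfolding `Ex K (n+1) v F = ∑ w, K v w * Ex K n w
(F ∘ cons v)`.
-/

set_option autoImplicit false

open Finset

namespace Pool.Agent.Sul

variable {V : Type} [Fintype V] {K : V → V → ℝ} {π : V → ℝ}

/-- Monotonicity; only the paths `g` from `v` with positive transition weights matter. Induction on
`n` (generalizing `v F G`): for `n + 1`, if `K v w = 0` the terms vanish, else apply the induction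
hypothesis at `w` to `F ∘ cons v`, `G ∘ cons v` (`cons v g 0 = v`, `cons v g (i+1) = g i`). -/
theorem Ex_mono (hK : ∀ v w, 0 ≤ K v w) (n : ℕ) (v : V) (F G : (ℕ → V) → ℝ)
    (h : ∀ g : ℕ → V, g 0 = v → (∀ i, i < n → 0 < K (g i) (g (i + 1))) → F g ≤ G g) :
    Ex K n v F ≤ Ex K n v G := by
  induction n generalizing v F G with
  | zero =>
    exact h (fun _ => v) rfl (fun i hi => absurd hi (Nat.not_lt_zero i))
  | succ n ih =>
    show ∑ w, K v w * Ex K n w (fun g => F (cons v g)) ≤ ∑ w, K v w * Ex K n w (fun g => G (cons v g))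
    refine sum_le_sum fun w _ => ?_
    rcases (hK v w).eq_or_lt with h0 | h0
    · rw [← h0, zero_mul, zero_mul]
    · refine mul_le_mul_of_nonneg_left ?_ h0.le
      refine ih w _ _ fun g hg hp => h (cons v g) rfl fun i hi => ?_
      rcases i with _ | i
      · show 0 < K v (g 0)
        rw [hg]
        exact h0
      · exact hp i (by omega)

theorem Ex_congr (hK : ∀ v w, 0 ≤ K v w) (n : ℕ) (v : V) (F G : (ℕ → V) → ℝ)
    (h : ∀ g : ℕ → V, g 0 = v → (∀ i, i < n → 0 < K (g i) (g (i + 1))) → F g = G g) :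
    Ex K n v F = Ex K n v G := by
  exact le_antisymm (Ex_mono hK n v F G fun g hg hp => (h g hg hp).le)
    (Ex_mono hK n v G F fun g hg hp => (h g hg hp).ge)

theorem Ex_const (hrow : ∀ v, ∑ w, K v w = 1) (n : ℕ) (v : V) (c : ℝ) :
    Ex K n v (fun _ => c) = c := by
  induction n generalizing v with
  | zero => rfl
  | succ n ih =>
    show ∑ w, K v w * Ex K n w (fun _ => c) = c
    have h1 : ∀ w, K v w * Ex K n w (fun _ => c) = K v w * c := fun w => by rw [ih w]
    rw [sum_congr rfl fun w _ => h1 w, ← sum_mul, hrow v, one_mul]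

theorem Ex_mul_left (n : ℕ) (v : V) (c : ℝ) (F : (ℕ → V) → ℝ) :
    Ex K n v (fun g => c * F g) = c * Ex K n v F := by
  induction n generalizing v F with
  | zero => rfl
  | succ n ih =>
    show ∑ w, K v w * Ex K n w (fun g => c * F (cons v g)) = c * ∑ w, K v w * Ex K n w (fun g => F (cons v g))
    rw [mul_sum]
    refine sum_congr rfl fun w _ => ?_
    rw [ih w (fun g => F (cons v g))]
    ring

theorem Ex_sum {ι : Type} (s : Finset ι) (n : ℕ) (v : V) (F : ι → (ℕ → V) → ℝ) :
    Ex K n v (fun g => ∑ e ∈ s, F e g) = ∑ e ∈ s, Ex K n v (F e) := by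
  induction n generalizing v F with
  | zero => rfl
  | succ n ih =>
    show ∑ w, K v w * Ex K n w (fun g => ∑ e ∈ s, F e (cons v g)) =
      ∑ e ∈ s, ∑ w, K v w * Ex K n w (fun g => F e (cons v g))
    rw [sum_comm]
    refine sum_congr rfl fun w _ => ?_
    rw [ih w (fun e g => F e (cons v g)), mul_sum]

/-- A function of the first state. (From `Ex_congr` and `Ex_const`.) -/
theorem Ex_head (hK : ∀ v w, 0 ≤ K v w) (hrow : ∀ v, ∑ w, K v w = 1) (n : ℕ) (v : V) (ψ : V → ℝ) :
    Ex K n v (fun g => ψ (g 0)) = ψ v := by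
  rw [Ex_congr hK n v (fun g => ψ (g 0)) (fun _ => ψ v) (fun g hg _ => by rw [hg])]
  exact Ex_const hrow n v (ψ v)

/-- Stationarity, one step. -/
theorem Ep_shift_one (h : Chain K π) (n : ℕ) (F : (ℕ → V) → ℝ) :
    Ep K π (n + 1) (fun g => F (fun i => g (i + 1))) = Ep K π n F := by
  show ∑ v, π v * ∑ w, K v w * Ex K n w F = ∑ w, π w * Ex K n w F
  have h1 : ∀ v, π v * ∑ w, K v w * Ex K n w F = ∑ w, π v * K v w * Ex K n w F := by
    intro v
    rw [mul_sum]
    exact sum_congr rfl fun w _ => by ring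
  rw [sum_congr rfl fun v _ => h1 v, sum_comm]
  refine sum_congr rfl fun w _ => ?_
  rw [← sum_mul, h.stat w]

/-- Stationarity: induction on `m` from `Ep_shift_one`. -/
theorem Ep_shift (h : Chain K π) (m n : ℕ) (F : (ℕ → V) → ℝ) :
    Ep K π (m + n) (fun g => F (fun i => g (m + i))) = Ep K π n F := by
  induction m with
  | zero =>
    have e : (fun g : ℕ → V => F (fun i => g (0 + i))) = F := by
      funext g
      congr 1
      funext i
      rw [Nat.zero_add]
    rw [e, Nat.zero_add]
  | succ m ih =>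
    have e : (fun g : ℕ → V => F (fun i => g (m + 1 + i))) =
        fun g => (fun g' : ℕ → V => F (fun i => g' (m + i))) (fun i => g (i + 1)) := by
      funext g
      show F (fun i => g (m + 1 + i)) = F (fun i => g (m + i + 1))
      congr 1
      funext i
      congr 1
      omega
    have e2 : m + 1 + n = m + n + 1 := by omega
    rw [e, e2, Ep_shift_one h (m + n) (fun g' : ℕ → V => F (fun i => g' (m + i)))]
    exact ih

/-- (P1) A function of one state. From `Ep_shift` and `Ex_head`. -/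
theorem Ep_one (h : Chain K π) (i W : ℕ) (hi : i ≤ W) (ψ : V → ℝ) :
    Ep K π W (fun g => ψ (g i)) = ∑ v, π v * ψ v := by
  obtain ⟨n, rfl⟩ := Nat.exists_eq_add_of_le hi
  have h1 := Ep_shift h i n (fun g => ψ (g 0))
  have e : (fun g : ℕ → V => ψ (g i)) = fun g => (fun g' : ℕ → V => ψ (g' 0)) (fun j => g (i + j)) := by
    funext g
    show ψ (g i) = ψ (g (i + 0))
    rw [Nat.add_zero]
  rw [e]
  rw [h1]
  show ∑ v, π v * Ex K n v (fun g => ψ (g 0)) = ∑ v, π v * ψ v
  exact sum_congr rfl fun v _ => by rw [Ex_head h.knn h.row]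

/-- The union bound: if the expected number of bad events is less than `1`, then there is a path with
positive weights avoiding all bad events. Proof: otherwise `1 ≤ ∑ e ∈ s, ind (B e g)` for all paths
with positive weights; apply `Ex_mono` at all `v` with `π v > 0` and sum: `1 ≤ ∑ e ∈ s, Ep ... < 1`
(by `Ex_const`, `Ex_sum`). -/
theorem exists_path (h : Chain K π) {ι : Type} (s : Finset ι) (W : ℕ) (B : ι → (ℕ → V) → Prop)
    (hB : ∑ e ∈ s, Ep K π W (fun g => ind (B e g)) < 1) :
    ∃ g : ℕ → V, 0 < π (g 0) ∧ (∀ i, i < W → 0 < K (g i) (g (i + 1))) ∧ ∀ e ∈ s, ¬ B e g := by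
  classical
  by_contra hcon
  push Not at hcon
  have h1 : ∀ v, π v * 1 ≤ π v * Ex K W v (fun g => ∑ e ∈ s, ind (B e g)) := by
    intro v
    rcases (h.pnn v).eq_or_lt with h0 | h0
    · rw [← h0, zero_mul, zero_mul]
    · refine mul_le_mul_of_nonneg_left ?_ h0.le
      have h2 : Ex K W v (fun _ => (1 : ℝ)) ≤ Ex K W v (fun g => ∑ e ∈ s, ind (B e g)) := by
        refine Ex_mono h.knn W v _ _ fun g hg hp => ?_
        obtain ⟨e, he, hBe⟩ := hcon g (by rw [hg]; exact h0) hp
        have h3 : ind (B e g) = 1 := by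
          unfold ind
          rw [if_pos hBe]
        have h4 : ind (B e g) ≤ ∑ e ∈ s, ind (B e g) := by
          refine single_le_sum (f := fun e => ind (B e g)) (fun e' _ => ?_) he
          show 0 ≤ ind (B e' g)
          unfold ind
          split_ifs
          · exact zero_le_one
          · exact le_rfl
        rw [h3] at h4
        exact h4
      rwa [Ex_const h.row W v 1] at h2
  have h5 : (1 : ℝ) ≤ ∑ v, π v * Ex K W v (fun g => ∑ e ∈ s, ind (B e g)) := by
    have h6 := sum_le_sum fun v (_ : v ∈ (univ : Finset V)) => h1 v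
    simp only [mul_one] at h6
    rwa [h.psum] at h6
  have h7 : ∑ v, π v * Ex K W v (fun g => ∑ e ∈ s, ind (B e g)) =
      ∑ e ∈ s, Ep K π W (fun g => ind (B e g)) := by
    have h8 : ∀ v, π v * Ex K W v (fun g => ∑ e ∈ s, ind (B e g)) =
        ∑ e ∈ s, π v * Ex K W v (fun g => ind (B e g)) := by
      intro v
      rw [Ex_sum s W v (fun e g => ind (B e g)), mul_sum]
    rw [sum_congr rfl fun v _ => h8 v, sum_comm]
    rfl
  rw [h7] at h5
  exact absurd hB (not_lt.2 h5)

/-- Markov's inequality: if `B` implies `1 ≤ t * F` on all paths with positive weights, `F ≥ 0` on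
these paths and `0 ≤ t`, then `P(B) ≤ t * E[F]`. -/
theorem Ep_markov (h : Chain K π) (W : ℕ) (B : (ℕ → V) → Prop) (F : (ℕ → V) → ℝ) (t : ℝ)
    (ht : 0 ≤ t)
    (hF : ∀ g : ℕ → V, 0 < π (g 0) → (∀ i, i < W → 0 < K (g i) (g (i + 1))) → 0 ≤ F g)
    (hB : ∀ g : ℕ → V, 0 < π (g 0) → (∀ i, i < W → 0 < K (g i) (g (i + 1))) → B g → 1 ≤ t * F g) :
    Ep K π W (fun g => ind (B g)) ≤ t * Ep K π W F := by
  show ∑ v, π v * Ex K W v (fun g => ind (B g)) ≤ t * ∑ v, π v * Ex K W v F
  rw [mul_sum]
  refine sum_le_sum fun v _ => ?_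
  rcases (h.pnn v).eq_or_lt with h0 | h0
  · rw [← h0, zero_mul, zero_mul, mul_zero]
  · have h1 : Ex K W v (fun g => ind (B g)) ≤ Ex K W v (fun g => t * F g) := by
      refine Ex_mono h.knn W v _ _ fun g hg hp => ?_
      have hpg : 0 < π (g 0) := by
        rw [hg]
        exact h0
      unfold ind
      split_ifs with hb
      · exact hB g hpg hp hb
      · exact mul_nonneg ht (hF g hpg hp)
    rw [Ex_mul_left] at h1
    have h2 := mul_le_mul_of_nonneg_left h1 h0.le
    linarith

end Pool.Agent.Sul
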