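import Pool.Agent.Sul.Fin

/-!
# MP_109285_co, module Par: choice of the parameters
-/

set_option autoImplicit false

namespace Pool.Agent.Sul

private theorem par_pow (n : ℕ) : (14 + n) ^ 12 ≤ 2 ^ (46 + 5 * n) := by
  induction n with
  | zero => norm_num
  | succ n ih =>
    have h1 : 14 * (15 + n) ≤ 15 * (14 + n) := by omega
    have h2 : (14 * (15 + n)) ^ 12 ≤ (15 * (14 + n)) ^ 12 := Nat.pow_le_pow_left h1 12
    rw [mul_pow, mul_pow] at h2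
    have h3 : (15 : ℕ) ^ 12 ≤ 14 ^ 12 * 32 := by norm_num
    have h4 : 14 ^ 12 * (15 + n) ^ 12 ≤ 14 ^ 12 * (32 * (14 + n) ^ 12) := by
      calc 14 ^ 12 * (15 + n) ^ 12 ≤ 15 ^ 12 * (14 + n) ^ 12 := h2
        _ ≤ (14 ^ 12 * 32) * (14 + n) ^ 12 := Nat.mul_le_mul_right _ h3
        _ = 14 ^ 12 * (32 * (14 + n) ^ 12) := by ring
    have h5 : (15 + n) ^ 12 ≤ 32 * (14 + n) ^ 12 := Nat.le_of_mul_le_mul_left h4 (by positivity)
    have h6 : 14 + (n + 1) = 15 + n := by omega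
    have h7 : 46 + 5 * (n + 1) = (46 + 5 * n) + 5 := by omega
    rw [h6, h7, pow_add]
    calc (15 + n) ^ 12 ≤ 32 * (14 + n) ^ 12 := h5
      _ ≤ 32 * 2 ^ (46 + 5 * n) := Nat.mul_le_mul_left _ ih
      _ = 2 ^ (46 + 5 * n) * 2 ^ 5 := by ring

private theorem par_nat (L m K : ℕ) (hL : 10 ≤ L) (hm : 6 * m ≤ L + 16) (hK : 4 * K ≤ (L + 4) ^ 2) :
    2 ^ m * K ≤ 2 ^ L := by
  obtain ⟨n, rfl⟩ := Nat.exists_eq_add_of_le hL
  have h1 : (14 + n) ^ 12 ≤ 2 ^ (46 + 5 * n) := par_pow n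
  have h2 : (4 * K) ^ 6 ≤ (14 + n) ^ 12 := by
    have e : 10 + n + 4 = 14 + n := by omega
    rw [e] at hK
    calc (4 * K) ^ 6 ≤ ((14 + n) ^ 2) ^ 6 := Nat.pow_le_pow_left hK 6
      _ = (14 + n) ^ 12 := by rw [← pow_mul]
  have h3 : (2 ^ m) ^ 6 ≤ 2 ^ (26 + n) := by
    rw [← pow_mul]
    exact Nat.pow_le_pow_right (by norm_num) (by omega)
  have h4 : (4 * (2 ^ m * K)) ^ 6 ≤ (4 * 2 ^ (10 + n)) ^ 6 := by
    calc (4 * (2 ^ m * K)) ^ 6 = (2 ^ m) ^ 6 * (4 * K) ^ 6 := by ring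
      _ ≤ 2 ^ (26 + n) * 2 ^ (46 + 5 * n) := Nat.mul_le_mul h3 (h2.trans h1)
      _ = 2 ^ (72 + 6 * n) := by rw [← pow_add]; congr 1; omega
      _ = (4 * 2 ^ (10 + n)) ^ 6 := by
        have : (4 : ℕ) = 2 ^ 2 := by norm_num
        rw [this, ← pow_add, ← pow_mul]
        congr 1
        omega
  have h5 : 4 * (2 ^ m * K) ≤ 4 * 2 ^ (10 + n) := (Nat.pow_le_pow_iff_left (by norm_num)).1 h4
  exact Nat.le_of_mul_le_mul_left h5 (by norm_num)

/-- Choice of parameters: for every `R ≥ 0` there are `W k a b : ℕ`, `δ > 0` as required by `main`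
with `4δ ≤ 100 + 20 √R`.

Proof: `r = R / log 2`, `L = ⌈2 √r⌉ + 10`, `W = 2^L - 1`, `δ = 3 (L+1) log 2` (so that
`log (8 (W+1)^3) = δ`), `k = L + 2 + ⌈r⌉`, `a = ⌊R/δ⌋ + 1`, `b = ⌊(R + (L+2) log 2)/δ⌋ + 1`.
`4δ = 12 (L+1) log 2 ≤ 12 (2√r + 12) log 2 = 24 √(log 2) √R + 144 log 2 ≤ 20 √R + 100`
(`24 √(log 2) ≤ 20` since `log 2 ≤ 0.6932`; `144 * 0.6932 = 99.82`).
`a + b ≤ 2R/δ + (L+2)/(3(L+1)) + 2 ≤ 2R/δ + 8/3`, `2R/δ = 2r/(3(L+1)) ≤ L/6` as `4r ≤ L^2`.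
`k + 1 ≤ L + 4 + r ≤ L + 4 + L^2/4 = (L/2 + 2)^2`. So it suffices that
`L/6 + 8/3 + 2 log_2 (L/2 + 2) ≤ L`, i.e. `2^(L/6 + 8/3) (L/2+2)^2 ≤ 2^L`, true for `L ≥ 10`. (The
constants are not important: if another choice is more convenient, e.g. a larger `L`, change the
numbers `100` and `20` in the statement, here and in `final`, to any larger numbers.) -/
theorem params (R : ℝ) (hR : 0 ≤ R) : ∃ (W k a b : ℕ) (δ : ℝ), 0 < δ ∧
    Real.log (8 * ((W : ℝ) + 1) ^ 3) ≤ δ ∧ 4 * ((W : ℝ) + 1) * Real.exp R ≤ 2 ^ k ∧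
    R < a * δ ∧ R + Real.log (4 * ((W : ℝ) + 1)) < b * δ ∧
    (2 ^ (a + b) - 1) * (k + 1) < W + 1 ∧ 4 * δ ≤ 100 + 20 * √R := by
  set l : ℝ := Real.log 2 with hl
  have hl1 : (0.6931471803 : ℝ) < l := Real.log_two_gt_d9
  have hl2 : l < (0.6931471808 : ℝ) := Real.log_two_lt_d9
  have hl0 : 0 < l := by linarith
  set r : ℝ := R / l with hr
  have hr0 : 0 ≤ r := by positivity
  have hRr : R = r * l := by rw [hr]; field_simp
  obtain ⟨c, hc⟩ : ∃ c : ℕ, c = ⌈2 * √r⌉₊ := ⟨_, rfl⟩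
  have hc1 : 2 * √r ≤ c := by rw [hc]; exact Nat.le_ceil _
  have hc2 : (c : ℝ) < 2 * √r + 1 := by rw [hc]; exact Nat.ceil_lt_add_one (by positivity)
  have hsr : √r * √r = r := Real.mul_self_sqrt hr0
  have hsr0 : 0 ≤ √r := Real.sqrt_nonneg r
  have hrc : 4 * r ≤ (c : ℝ) ^ 2 := by nlinarith
  obtain ⟨e, he⟩ : ∃ e : ℕ, e = ⌈r⌉₊ := ⟨_, rfl⟩
  have he1 : r ≤ e := by rw [he]; exact Nat.le_ceil _
  have he2 : (e : ℝ) < r + 1 := by rw [he]; exact Nat.ceil_lt_add_one hr0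
  set δ : ℝ := 3 * ((c : ℝ) + 11) * l with hδ
  have hc0 : (0 : ℝ) ≤ c := Nat.cast_nonneg c
  have hδ0 : 0 < δ := by positivity
  have hW1 : (((2 ^ (c + 10) - 1 : ℕ) : ℝ)) + 1 = 2 ^ (c + 10) := by
    have : 1 ≤ 2 ^ (c + 10) := Nat.one_le_two_pow
    push_cast [Nat.cast_sub this]
    ring
  have hlog4 : Real.log (4 * (2 : ℝ) ^ (c + 10)) = ((c : ℝ) + 12) * l := by
    have : (4 : ℝ) * 2 ^ (c + 10) = 2 ^ (c + 12) := by ring
    rw [this, Real.log_pow]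
    push_cast
    ring
  obtain ⟨a, ha⟩ : ∃ a : ℕ, a = ⌊R / δ⌋₊ + 1 := ⟨_, rfl⟩
  obtain ⟨b, hb⟩ : ∃ b : ℕ, b = ⌊(R + ((c : ℝ) + 12) * l) / δ⌋₊ + 1 := ⟨_, rfl⟩
  have ha1 : (a : ℝ) ≤ R / δ + 1 := by
    rw [ha]; push_cast
    have := Nat.floor_le (a := R / δ) (by positivity)
    linarith
  have hb1 : (b : ℝ) ≤ (R + ((c : ℝ) + 12) * l) / δ + 1 := by
    rw [hb]; push_cast
    have := Nat.floor_le (a := (R + ((c : ℝ) + 12) * l) / δ) (by positivity)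
    linarith
  refine ⟨2 ^ (c + 10) - 1, c + 12 + e, a, b, δ, hδ0, ?_, ?_, ?_, ?_, ?_, ?_⟩
  · rw [hW1]
    have : (8 : ℝ) * (2 ^ (c + 10)) ^ 3 = 2 ^ (3 * c + 33) := by
      rw [← pow_mul]
      have h8 : (8 : ℝ) = 2 ^ 3 := by norm_num
      rw [h8, ← pow_add]
      congr 1
      omega
    rw [this, Real.log_pow]
    push_cast
    rw [hδ]
    apply le_of_eq
    ring
  · rw [hW1]
    have h1 : Real.exp R ≤ 2 ^ e := by
      have h2 : Real.exp ((e : ℝ) * l) = 2 ^ e := by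
        rw [Real.exp_nat_mul, hl, Real.exp_log (by norm_num)]
      rw [← h2]
      apply Real.exp_le_exp.2
      rw [hRr]
      exact mul_le_mul_of_nonneg_right he1 hl0.le
    have h3 : (4 : ℝ) * 2 ^ (c + 10) = 2 ^ (c + 12) := by ring
    rw [h3, pow_add _ (c + 12) e]
    exact mul_le_mul_of_nonneg_left h1 (by positivity)
  · rw [← div_lt_iff₀ hδ0, ha]
    push_cast
    exact Nat.lt_floor_add_one _
  · rw [hW1, hlog4, ← div_lt_iff₀ hδ0, hb]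
    push_cast
    exact Nat.lt_floor_add_one _
  · have hm : 6 * (a + b) ≤ (c + 10) + 16 := by
      have h1 : (a : ℝ) + b ≤ (2 * r + c + 12) / (3 * (c + 11)) + 2 := by
        have h2 : R / δ + (R + ((c : ℝ) + 12) * l) / δ = (2 * r + c + 12) / (3 * (c + 11)) := by
          rw [hδ, hRr]
          field_simp
          ring
        linarith
      have h3 : (2 * r + c + 12) / (3 * ((c : ℝ) + 11)) ≤ ((c : ℝ) + 14) / 6 := by
        rw [div_le_div_iff₀ (by positivity) (by norm_num)]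
        nlinarith
      have h4 : (6 * (a + b) : ℝ) ≤ (c + 10) + 16 := by linarith
      exact_mod_cast h4
    have hK : 4 * (c + 12 + e + 1) ≤ ((c + 10) + 4) ^ 2 := by
      have h4 : (4 * (c + 12 + e + 1) : ℝ) ≤ ((c + 10) + 4) ^ 2 := by nlinarith
      exact_mod_cast h4
    have h5 := par_nat (c + 10) (a + b) (c + 12 + e + 1) (by omega) hm hK
    have h6 : 1 ≤ 2 ^ (a + b) := Nat.one_le_two_pow
    have h7 : 1 ≤ 2 ^ (c + 10) := Nat.one_le_two_pow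
    have h8 : 2 ^ (c + 10) - 1 + 1 = 2 ^ (c + 10) := by omega
    rw [h8]
    refine lt_of_lt_of_le ?_ h5
    apply Nat.mul_lt_mul_of_pos_right
    · omega
    · omega
  · have h1 : l * √r ≤ 5 / 6 * √R := by
      have h2 : √R = √r * √l := by rw [hRr, Real.sqrt_mul hr0]
      have h3 : √l ≤ 5 / 6 := by
        rw [Real.sqrt_le_left (by norm_num)]
        norm_num
        linarith
      have h4 : √l * √l = l := Real.mul_self_sqrt hl0.le
      have h5 : 0 ≤ √l := Real.sqrt_nonneg l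
      rw [h2]
      have h7 : l * √r = √l * (√r * √l) := by
        calc l * √r = (√l * √l) * √r := by rw [h4]
          _ = √l * (√r * √l) := by ring
      rw [h7]
      exact mul_le_mul_of_nonneg_right h3 (by positivity)
    have h8 : δ ≤ 3 * (2 * √r + 12) * l := by
      rw [hδ]
      apply mul_le_mul_of_nonneg_right _ hl0.le
      linarith
    nlinarith

/-- From `params` with `R = log (n / d)` and `main`. (`d ≤ dg ≤ n`, so `n / d ≥ 1`.) -/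
theorem final (n : ℕ) (adj : Fin n → Fin n → Prop) (hn : 0 < n) (has : ∀ x y, adj x y → ¬ adj y x)
    (d : ℝ) (hd : 0 < d) (hdeg : ∀ v, d ≤ ({u | adj u v}.ncard : ℝ)) :
    ∃ v, Real.exp (-(100 + 20 * √(Real.log (n / d)))) * ({u | adj u v}.ncard : ℝ) ≤
      ({w | w ≠ v ∧ ¬ adj v w ∧ ∃ u, adj v u ∧ adj u w}.ncard : ℝ) := by
  haveI : Nonempty (Fin n) := ⟨⟨0, hn⟩⟩
  have hdn : d ≤ n := by
    refine (hdeg ⟨0, hn⟩).trans ?_
    have h1 : ({u | adj u ⟨0, hn⟩} : Set (Fin n)).ncard ≤ (Set.univ : Set (Fin n)).ncard :=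
      Set.ncard_le_ncard (Set.subset_univ _) Set.finite_univ
    rw [Set.ncard_univ, Nat.card_eq_fintype_card, Fintype.card_fin] at h1
    exact_mod_cast h1
  have hnd : 1 ≤ (n : ℝ) / d := by rwa [one_le_div hd]
  have hR : 0 ≤ Real.log (n / d) := Real.log_nonneg hnd
  obtain ⟨W, k, a, b, δ, h1, h2, h3, h4, h5, h6, h7⟩ := params (Real.log (n / d)) hR
  rw [Real.exp_log (by linarith)] at h3
  obtain ⟨v, hv⟩ := main adj has d hd (fun v => hdeg v) δ W k a b h1 h2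
    (by rw [Fintype.card_fin]; exact h3) (by rw [Fintype.card_fin]; exact h4)
    (by rw [Fintype.card_fin]; exact h5) h6
  refine ⟨v, le_trans ?_ hv⟩
  refine mul_le_mul_of_nonneg_right (Real.exp_le_exp.2 (by linarith)) (Nat.cast_nonneg _)

end Pool.Agent.Sul
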