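import Pool.Agent.Sul.Deduce

/-!
# MP_109285_co, module Polylog: polynomial windows give the loss `1 / polylog`
-/

set_option autoImplicit false

open Finset

namespace Pool.Agent.Sul

/-- Powers of two beat polynomials. -/
theorem pow_beats (C E : ℕ) : ∃ M0 : ℕ, 1 ≤ M0 ∧ ∀ M : ℕ, M0 ≤ M →
    (C : ℝ) * (M : ℝ) ^ E ≤ Real.exp ((M : ℝ) * (Real.log 2 / 2)) := by
  have hb : (0 : ℝ) < Real.log 2 / 2 := by
    have := Real.log_pos (by norm_num : (1 : ℝ) < 2)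
    linarith
  have h1 := Real.tendsto_pow_mul_exp_neg_atTop_nhds_zero E
  have h2 : Filter.Tendsto (fun M : ℕ => (C : ℝ) * (M : ℝ) ^ E * Real.exp (-((M : ℝ) * (Real.log 2 / 2))))
      Filter.atTop (nhds 0) := by
    have h3 : Filter.Tendsto (fun M : ℕ => (M : ℝ) * (Real.log 2 / 2)) Filter.atTop Filter.atTop :=
      (tendsto_natCast_atTop_atTop (R := ℝ)).atTop_mul_const hb
    have h4 := (h1.comp h3).const_mul ((C : ℝ) / (Real.log 2 / 2) ^ E)
    rw [mul_zero] at h4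
    refine h4.congr fun M => ?_
    simp only [Function.comp]
    have := (pow_pos hb E).ne'
    rw [mul_pow]
    field_simp
  have h5 := (h2.eventually (gt_mem_nhds zero_lt_one)).exists_forall_of_atTop
  obtain ⟨M0, hM0⟩ := h5
  refine ⟨M0 + 1, by omega, fun M hM => ?_⟩
  have h6 := hM0 M (by omega)
  rw [Real.exp_neg, ← div_eq_mul_inv, div_lt_one (Real.exp_pos _)] at h6
  exact h6.le

theorem polylog_of_patHyp (q C E : ℕ)
    (hyp : ∀ k M W : ℕ, 1 ≤ k → 1 ≤ M → C * (k * M) ^ E ≤ W → PatHyp q W k M) :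
    ∃ K : ℕ, ∀ (V : Type) [Fintype V] [Nonempty V] (adj : V → V → Prop),
      (∀ x y, adj x y → ¬ adj y x) → ∀ d : ℝ, 0 < d → (∀ v, d ≤ dg adj v) →
        ∃ v, dg adj v ≤ ((K : ℝ) * (1 + Real.log (Fintype.card V / d))) ^ K * n2 adj v := by
  obtain ⟨M0, hM0, hbeat⟩ := pow_beats (64 * (C + 1)) (2 * E)
  -- the constant
  set c1 : ℕ := 4 * (C + 1) ^ 2 * (M0 + 7) ^ (4 * E) with hc1
  refine ⟨c1 + (q + 4) * (4 * E + 1), fun V _ _ adj has d hd hdeg => ?_⟩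
  have hn : (0 : ℝ) < Fintype.card V := by
    exact_mod_cast Fintype.card_pos
  have hR1 : 1 ≤ (Fintype.card V : ℝ) / d := by
    obtain ⟨v⟩ := (inferInstance : Nonempty V)
    rw [le_div_iff₀ hd, one_mul]
    refine (hdeg v).trans ?_
    unfold dg
    have h2 : {u | adj u v}.ncard ≤ Fintype.card V := by
      rw [← Nat.card_eq_fintype_card, ← Set.ncard_univ]
      exact Set.ncard_le_ncard (Set.subset_univ _) (Set.toFinite _)
    exact_mod_cast h2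
  set R : ℝ := (Fintype.card V : ℝ) / d with hR
  have hR0 : 0 < R := by linarith
  have hlogR : 0 ≤ Real.log R := Real.log_nonneg hR1
  set M : ℕ := M0 + ⌈6 * Real.log R⌉₊ with hM
  have hM1 : 1 ≤ M := by omega
  have hMle : (M : ℝ) ≤ (M0 + 7) * (1 + Real.log R) := by
    have h1 : (⌈6 * Real.log R⌉₊ : ℝ) ≤ 6 * Real.log R + 1 := (Nat.ceil_lt_add_one (by positivity)).le
    have h2 : (0 : ℝ) ≤ M0 := Nat.cast_nonneg _
    rw [hM]
    push_cast
    nlinarith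
  have hMge : 6 * Real.log R ≤ (M : ℝ) := by
    have h1 := Nat.le_ceil (6 * Real.log R)
    rw [hM]
    push_cast
    have h2 : (0 : ℝ) ≤ M0 := Nat.cast_nonneg _
    linarith
  set W : ℕ := C * (M * M) ^ E with hW
  have hP := hyp M M W hM1 hM1 le_rfl
  have hM1r : (1 : ℝ) ≤ M := by exact_mod_cast hM1
  have hWle : (W : ℝ) + 1 ≤ (C + 1) * (M : ℝ) ^ (2 * E) := by
    have h1 : (1 : ℝ) ≤ (M : ℝ) ^ (2 * E) := one_le_pow₀ hM1r
    have h2 : (W : ℝ) = C * (M : ℝ) ^ (2 * E) := by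
      rw [hW]
      push_cast
      rw [← pow_two, ← pow_mul]
    rw [h2]
    linarith
  have h2M : (2 : ℝ) ^ M = Real.exp ((M : ℝ) * (Real.log 2 / 2)) * Real.exp ((M : ℝ) * (Real.log 2 / 2)) := by
    rw [← Real.exp_add, ← Real.exp_log (show (0 : ℝ) < 2 by norm_num), ← Real.exp_nat_mul,
      Real.exp_log (by norm_num)]
    congr 1
    ring
  have hb1 : 64 * ((W : ℝ) + 1) ≤ Real.exp ((M : ℝ) * (Real.log 2 / 2)) := by
    have h1 := hbeat M (by omega)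
    push_cast at h1
    refine le_trans ?_ h1
    nlinarith
  have hb2 : R ^ 2 ≤ Real.exp ((M : ℝ) * (Real.log 2 / 2)) := by
    rw [← Real.exp_log hR0, ← Real.exp_nat_mul]
    refine Real.exp_le_exp.2 ?_
    have h1 := Real.log_two_gt_d9
    push_cast
    nlinarith
  have hMM : 64 * ((W : ℝ) + 1) * R ^ 2 ≤ 2 ^ M := by
    rw [h2M]
    exact mul_le_mul hb1 hb2 (by positivity) (Real.exp_pos _).le
  have hkk : 4 * ((W : ℝ) + 1) * R ≤ 2 ^ M := by
    refine le_trans ?_ hMM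
    have hW0 : (0 : ℝ) ≤ (W : ℝ) := Nat.cast_nonneg _
    have h1 : R ≤ R ^ 2 := by nlinarith
    have h2 : 4 * ((W : ℝ) + 1) ≤ 64 * ((W : ℝ) + 1) := by linarith
    exact mul_le_mul h2 h1 hR0.le (by positivity)
  obtain ⟨v, hv⟩ := deduce adj has d hd hdeg q W M M hP hkk hMM
  refine ⟨v, ?_⟩
  have hn2 : 0 ≤ n2 adj v := by
    unfold n2
    exact Nat.cast_nonneg _
  set D : ℝ := 4 * ((W : ℝ) + 1) ^ 2 with hD
  have hD0 : 0 < D := by rw [hD]; positivity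
  have h1 : dg adj v ≤ D ^ (q + 4) * n2 adj v := by
    have h2 := mul_le_mul_of_nonneg_left hv (pow_pos hD0 (q + 4)).le
    have h3 : D ^ (q + 4) * ((1 / D) ^ (q + 4) * dg adj v) = dg adj v := by
      rw [← mul_assoc, ← mul_pow, mul_one_div_cancel hD0.ne', one_pow, one_mul]
    rw [h3] at h2
    exact h2
  refine h1.trans (mul_le_mul_of_nonneg_right ?_ hn2)
  set ℓ : ℝ := 1 + Real.log R with hℓ
  have hℓ1 : 1 ≤ ℓ := by rw [hℓ]; linarith
  have hDle : D ≤ (c1 : ℝ) * ℓ ^ (4 * E) := by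
    have h2 : ((W : ℝ) + 1) ^ 2 ≤ ((C + 1) * (M : ℝ) ^ (2 * E)) ^ 2 :=
      pow_le_pow_left₀ (by positivity) hWle 2
    have h3 : (M : ℝ) ^ (4 * E) ≤ ((M0 + 7) * ℓ) ^ (4 * E) :=
      pow_le_pow_left₀ (by positivity) hMle _
    have h4 : ((C + 1) * (M : ℝ) ^ (2 * E)) ^ 2 = (C + 1) ^ 2 * (M : ℝ) ^ (4 * E) := by
      rw [mul_pow, ← pow_mul]
      congr 2
      ring
    rw [hD, hc1]
    push_cast
    rw [h4] at h2
    rw [mul_pow] at h3
    calc 4 * ((W : ℝ) + 1) ^ 2 ≤ 4 * ((C + 1) ^ 2 * (M : ℝ) ^ (4 * E)) := by linarith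
      _ ≤ 4 * ((C + 1) ^ 2 * ((M0 + 7) ^ (4 * E) * ℓ ^ (4 * E))) := by
          refine mul_le_mul_of_nonneg_left (mul_le_mul_of_nonneg_left h3 (by positivity)) (by norm_num)
      _ = 4 * ((C : ℝ) + 1) ^ 2 * (M0 + 7) ^ (4 * E) * ℓ ^ (4 * E) := by ring
  set K : ℕ := c1 + (q + 4) * (4 * E + 1) with hK
  have hc11 : 1 ≤ c1 := by
    rw [hc1]
    have h2 : 1 ≤ (C + 1) ^ 2 := Nat.one_le_pow _ _ (by omega)
    have h3 : 1 ≤ (M0 + 7) ^ (4 * E) := Nat.one_le_pow _ _ (by omega)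
    have h4 : 1 ≤ (C + 1) ^ 2 * (M0 + 7) ^ (4 * E) := Nat.mul_pos h2 h3
    have h5 : 4 * (C + 1) ^ 2 * (M0 + 7) ^ (4 * E) = 4 * ((C + 1) ^ 2 * (M0 + 7) ^ (4 * E)) := by ring
    omega
  have hKc : (c1 : ℝ) ≤ K := by
    rw [hK]
    push_cast
    have : (0 : ℝ) ≤ ((q : ℝ) + 4) * (4 * (E : ℝ) + 1) := by positivity
    linarith
  have hK1 : (1 : ℝ) ≤ K := by
    have : (1 : ℝ) ≤ c1 := by exact_mod_cast hc11
    linarith
  have hDle2 : D ≤ ((K : ℝ) * ℓ) ^ (4 * E + 1) := by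
    refine hDle.trans ?_
    have h2 : ℓ ^ (4 * E) ≤ ((K : ℝ) * ℓ) ^ (4 * E) := by
      refine pow_le_pow_left₀ (by linarith) ?_ _
      nlinarith
    have h3 : (c1 : ℝ) ≤ (K : ℝ) * ℓ := by nlinarith
    rw [pow_succ, mul_comm]
    exact mul_le_mul h2 h3 (Nat.cast_nonneg _) (by positivity)
  calc D ^ (q + 4) ≤ (((K : ℝ) * ℓ) ^ (4 * E + 1)) ^ (q + 4) :=
        pow_le_pow_left₀ hD0.le hDle2 _
    _ = ((K : ℝ) * ℓ) ^ ((q + 4) * (4 * E + 1)) := by
        rw [← pow_mul]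
        congr 1
        ring
    _ ≤ ((K : ℝ) * ℓ) ^ K := by
        refine pow_le_pow_right₀ ?_ ?_
        · nlinarith
        · rw [hK]
          omega

end Pool.Agent.Sul
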