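import Pool.Agent.Sul.P2
import Pool.Agent.Sul.BR

/-!
# MP_109285_co, module Rearr: the rearrangement principle

`X_0, X_1, …` is the backward walk (`X_{k+1}` a uniformly random in-neighbour of `X_k`) started from
the stationary weight `π`.  A *Hamiltonian path* of a window `[a, b]` of indices is an ordering `w` of
the window.  It is *valid* for a walk `g` if every ascent `i < j` of `w` (consecutive entries `i, j`)
is an arc `g j → g i`, and every descent `i > j` of `w` is a pair such that `g j` is in the second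
out-neighbourhood of `g i`.

`rearr`: if all second out-neighbourhoods satisfy `n2 v ≤ γ * dg v`, then
`E[ dg (X_e) / dg (X_b) * π (X_s) / π (X_a) * 1(w valid) ] ≤ γ ^ r`
for a Hamiltonian path with first entry `s`, last entry `e` and `r` descents.
-/

set_option autoImplicit false

open Finset

namespace Pool.Agent.Sul

variable {V : Type} [Fintype V] {K : V → V → ℝ} {π : V → ℝ}

/-! ### Expectations as sums over paths -/

theorem Rearr_min {i m : ℕ} : min i m < m + 1 := by omega

/-- Sums over paths, first coordinate first. -/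
theorem Rearr_sum_succ (m : ℕ) (F : (Fin (m + 2) → V) → ℝ) :
    ∑ g : Fin (m + 2) → V, F g = ∑ v : V, ∑ h : Fin (m + 1) → V, F (Fin.cons v h) := by
  rw [← Fintype.sum_prod_type' (f := fun v (h : Fin (m + 1) → V) => F (Fin.cons v h))]
  exact (Fintype.sum_equiv (Fin.consEquiv (fun _ : Fin (m + 2) => V)) _ _ (fun x => rfl)).symm

theorem Ep_eq_sum (m : ℕ) (φ : V → ℝ) (F : (ℕ → V) → ℝ) :
    Ep K φ m F = ∑ g : Fin (m + 1) → V, φ (g 0) *
      (∏ i : Fin m, K (g i.castSucc) (g i.succ)) * F (fun i => g ⟨min i m, Rearr_min⟩) := by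
  induction m generalizing φ F with
  | zero =>
    show ∑ v, φ v * F (fun _ => v) = _
    refine Fintype.sum_equiv (Equiv.funUnique (Fin 1) V).symm _ _ fun v => ?_
    simp only [univ_eq_empty, prod_empty, mul_one]
    rfl
  | succ m ih =>
    rw [Rearr_sum_succ]
    show ∑ v, φ v * Ep K (K v) m (fun g => F (cons v g)) = _
    refine sum_congr rfl fun v _ => ?_
    rw [ih (K v) (fun g => F (cons v g)), mul_sum]
    refine sum_congr rfl fun h _ => ?_
    rw [Fin.prod_univ_succ]
    have e1 : F (cons v fun i => h ⟨min i m, Rearr_min⟩) =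
        F fun i => (Fin.cons v h : Fin (m + 2) → V) ⟨min i (m + 1), Rearr_min⟩ := by
      congr 1
      funext i
      rcases i with _ | i
      · show v = (Fin.cons v h : Fin (m + 2) → V) ⟨min 0 (m + 1), Rearr_min⟩
        have : (⟨min 0 (m + 1), Rearr_min⟩ : Fin (m + 2)) = 0 := by
          ext
          simp
        rw [this]
        rfl
      · show h ⟨min i m, Rearr_min⟩ = (Fin.cons v h : Fin (m + 2) → V) ⟨min (i + 1) (m + 1), Rearr_min⟩
        have : (⟨min (i + 1) (m + 1), Rearr_min⟩ : Fin (m + 2)) =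
            (⟨min i m, Rearr_min⟩ : Fin (m + 1)).succ := by
          ext
          simp only [Fin.val_succ]
          omega
        rw [this, Fin.cons_succ]
    rw [e1]
    have e2 : ∀ i : Fin m, K ((Fin.cons v h : Fin (m + 2) → V) i.succ.castSucc)
        ((Fin.cons v h : Fin (m + 2) → V) i.succ.succ) = K (h i.castSucc) (h i.succ) := by
      intro i
      rw [Fin.cons_succ, ← Fin.succ_castSucc, Fin.cons_succ]
    rw [prod_congr rfl fun i _ => e2 i]
    simp only [Fin.castSucc_zero, Fin.cons_zero, Fin.cons_succ]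
    ring

/-- The basic bound for sums over paths. -/
theorem Rearr_path_le (m : ℕ) (φ : V → ℝ) (hφ : ∀ v, 0 ≤ φ v) (T : Fin m → V → V → ℝ)
    (hT : ∀ i v w, 0 ≤ T i v w) (c : Fin m → ℝ) (hc : ∀ i v, ∑ w, T i v w ≤ c i) :
    ∑ g : Fin (m + 1) → V, φ (g 0) * (∏ i : Fin m, T i (g i.castSucc) (g i.succ)) ≤
      (∑ v, φ v) * ∏ i, c i := by
  induction m generalizing φ with
  | zero =>
    simp only [univ_eq_empty, prod_empty, mul_one]
    refine le_of_eq (Fintype.sum_equiv (Equiv.funUnique (Fin 1) V) _ _ fun g => rfl)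
  | succ m ih =>
    rw [Rearr_sum_succ]
    have h1 : ∀ v, ∑ h : Fin (m + 1) → V, φ ((Fin.cons v h : Fin (m + 2) → V) 0) *
        (∏ i : Fin (m + 1), T i ((Fin.cons v h : Fin (m + 2) → V) i.castSucc)
          ((Fin.cons v h : Fin (m + 2) → V) i.succ)) =
        φ v * ∑ h : Fin (m + 1) → V, T 0 v (h 0) *
          (∏ i : Fin m, T i.succ (h i.castSucc) (h i.succ)) := by
      intro v
      rw [mul_sum]
      refine sum_congr rfl fun h _ => ?_
      rw [Fin.prod_univ_succ]
      have e2 : ∀ i : Fin m, T i.succ ((Fin.cons v h : Fin (m + 2) → V) i.succ.castSucc)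
          ((Fin.cons v h : Fin (m + 2) → V) i.succ.succ) = T i.succ (h i.castSucc) (h i.succ) := by
        intro i
        rw [Fin.cons_succ, ← Fin.succ_castSucc, Fin.cons_succ]
      rw [prod_congr rfl fun i _ => e2 i]
      simp only [Fin.castSucc_zero, Fin.cons_zero, Fin.cons_succ]
    rw [sum_congr rfl fun v _ => h1 v, Fin.prod_univ_succ, sum_mul]
    refine sum_le_sum fun v _ => mul_le_mul_of_nonneg_left ?_ (hφ v)
    have hcn : ∀ i : Fin m, 0 ≤ c i.succ := fun i =>
      (sum_nonneg fun w _ => hT i.succ v w).trans (hc i.succ v)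
    calc ∑ h : Fin (m + 1) → V, T 0 v (h 0) * (∏ i : Fin m, T i.succ (h i.castSucc) (h i.succ))
        ≤ (∑ w, T 0 v w) * ∏ i : Fin m, c i.succ :=
          ih (T 0 v) (hT 0 v) (fun i => T i.succ) (fun i v w => hT _ v w) (fun i => c i.succ)
            (fun i v => hc _ v)
      _ ≤ c 0 * ∏ i : Fin m, c i.succ :=
          mul_le_mul_of_nonneg_right (hc 0 v) (prod_nonneg fun i _ => hcn i)

/-! ### Truncation -/

/-- If `F` depends only on the coordinates `≤ m`, the later steps may be dropped. -/
theorem Ex_trunc (hK : ∀ v w, 0 ≤ K v w) (hrow : ∀ v, ∑ w, K v w = 1) (m c : ℕ) (v : V)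
    (F : (ℕ → V) → ℝ) (hF : ∀ g g' : ℕ → V, (∀ i, i ≤ m → g i = g' i) → F g = F g') :
    Ex K (m + c) v F = Ex K m v F := by
  induction m generalizing v F with
  | zero =>
    rw [Nat.zero_add, Ex_congr hK c v F (fun _ => F (fun _ => v)) (fun g hg _ => ?_),
      Ex_const hrow c v]
    · rfl
    · refine hF _ _ fun i hi => ?_
      have : i = 0 := by omega
      rw [this, hg]
  | succ m ih =>
    have e : m + 1 + c = m + c + 1 := by omega
    rw [e]
    show ∑ w, K v w * Ex K (m + c) w (fun g => F (cons v g)) =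
      ∑ w, K v w * Ex K m w (fun g => F (cons v g))
    refine sum_congr rfl fun w _ => ?_
    rw [ih w (fun g => F (cons v g)) fun g g' hgg => hF _ _ fun i hi => ?_]
    rcases i with _ | i
    · rfl
    · exact hgg i (by omega)

theorem Ep_trunc (h : Chain K π) (m c : ℕ) (F : (ℕ → V) → ℝ)
    (hF : ∀ g g' : ℕ → V, (∀ i, i ≤ m → g i = g' i) → F g = F g') :
    Ep K π (m + c) F = Ep K π m F :=
  sum_congr rfl fun v _ => by rw [Ex_trunc h.knn h.row m c v F hF]

/-! ### The principle -/

/-- `w` (in the second out-neighbourhood of `v`). -/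
def Sec {V : Type} (adj : V → V → Prop) (v w : V) : Prop :=
  w ≠ v ∧ ¬ adj v w ∧ ∃ u, adj v u ∧ adj u w

/-- A step `i, j` of an ordering of the indices is valid for the walk `g`: an ascent is an arc
`g j → g i`, a descent leads to the second out-neighbourhood of `g i`. -/
def StepOK {V : Type} (adj : V → V → Prop) (g : ℕ → V) (i j : ℕ) : Prop :=
  (i < j ∧ adj (g j) (g i)) ∨ (j < i ∧ Sec adj (g i) (g j))

theorem Rearr_sum_ind (P : V → Prop) : ∑ v, ind (P v) = ({v | P v}.ncard : ℝ) := by
  classical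
  unfold ind
  rw [Set.ncard_eq_toFinset_card', Finset.sum_boole]
  congr 2
  ext w
  simp

theorem Rearr_ind_nonneg (P : Prop) : 0 ≤ ind P := by
  unfold ind
  split_ifs <;> norm_num

theorem Rearr_ind_le_one (P : Prop) : ind P ≤ 1 := by
  unfold ind
  split_ifs <;> norm_num

theorem Rearr_ind_true {P : Prop} (h : P) : ind P = 1 := by
  unfold ind
  rw [if_pos h]

theorem Rearr_ind_false {P : Prop} (h : ¬ P) : ind P = 0 := by
  unfold ind
  rw [if_neg h]

/-- The rearrangement principle, for a bijection `σ` of `{0, …, m}` and the window `[0, m]`. -/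
theorem rearr_fin (adj : V → V → Prop) (π : V → ℝ) (h : Chain (Kb adj) π)
    (hpos : ∀ v, 0 < dg adj v) (γ : ℝ) (hγ : ∀ v, n2 adj v ≤ γ * dg adj v) (m : ℕ)
    (σ : Equiv.Perm (Fin (m + 1))) :
    Ep (Kb adj) π m (fun g => dg adj (g (σ (Fin.last m))) / dg adj (g m) *
      (π (g (σ 0)) / π (g 0)) *
      ind (∀ t : Fin m, StepOK adj g (σ t.castSucc) (σ t.succ))) ≤
      γ ^ (univ.filter fun t : Fin m => σ t.succ < σ t.castSucc).card := by
  classical
  set T : Fin m → V → V → ℝ := fun t v w =>
    (if σ t.succ < σ t.castSucc then ind (Sec adj v w) else ind (adj w v)) / dg adj v with hT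
  set c : Fin m → ℝ := fun t => if σ t.succ < σ t.castSucc then γ else 1 with hc
  have hT0 : ∀ t v w, 0 ≤ T t v w := by
    intro t v w
    simp only [hT]
    refine div_nonneg ?_ (hpos v).le
    split_ifs
    · exact Rearr_ind_nonneg _
    · exact Rearr_ind_nonneg _
  have hTc : ∀ t v, ∑ w, T t v w ≤ c t := by
    intro t v
    simp only [hT, hc]
    rw [← sum_div]
    split_ifs with hd
    · rw [Rearr_sum_ind, div_le_iff₀ (hpos v)]
      exact hγ v
    · rw [Rearr_sum_ind]
      exact le_of_eq (div_self (hpos v).ne')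
  have hmain := Rearr_path_le m π h.pnn T hT0 c hTc
  rw [h.psum, one_mul] at hmain
  have hcprod : ∏ t, c t = γ ^ (univ.filter fun t : Fin m => σ t.succ < σ t.castSucc).card := by
    simp only [hc]
    rw [prod_ite, prod_const, prod_const_one, mul_one]
  rw [hcprod] at hmain
  refine le_trans ?_ hmain
  rw [Ep_eq_sum]
  -- reindex the right-hand side
  have hre : ∑ g : Fin (m + 1) → V, π (g (σ 0)) *
      ∏ t : Fin m, T t (g (σ t.castSucc)) (g (σ t.succ)) =
      ∑ g : Fin (m + 1) → V, π (g 0) * ∏ i : Fin m, T i (g i.castSucc) (g i.succ) :=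
    Fintype.sum_equiv (Equiv.arrowCongr σ.symm (Equiv.refl V)) _ _ (fun g => rfl)
  rw [← hre]
  refine sum_le_sum fun g _ => ?_
  set G : ℕ → V := fun i => g ⟨min i m, Rearr_min⟩ with hG
  have hGv : ∀ i : Fin (m + 1), G i = g i := by
    intro i
    simp only [hG]
    congr 1
    ext
    show min (i : ℕ) m = i
    have := i.2
    omega
  have hGm : G m = g (Fin.last m) := hGv (Fin.last m)
  have hG0 : G 0 = g 0 := hGv 0
  show π (g 0) * (∏ i : Fin m, Kb adj (g i.castSucc) (g i.succ)) *
    (dg adj (G (σ (Fin.last m))) / dg adj (G m) * (π (G (σ 0)) / π (G 0)) *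
      ind (∀ t : Fin m, StepOK adj G (σ t.castSucc) (σ t.succ))) ≤ _
  rw [hGv, hGv, hGm, hG0]
  have hR : 0 ≤ π (g (σ 0)) * ∏ t : Fin m, T t (g (σ t.castSucc)) (g (σ t.succ)) :=
    mul_nonneg (h.pnn _) (prod_nonneg fun t _ => hT0 _ _ _)
  rcases (h.pnn (g 0)).eq_or_lt with h0 | h0
  · rw [← h0]
    simp only [zero_mul]
    exact hR
  by_cases hv : ∀ t : Fin m, StepOK adj G (σ t.castSucc) (σ t.succ)
  · rw [Rearr_ind_true hv, mul_one]
    have hTv : ∀ t : Fin m, T t (g (σ t.castSucc)) (g (σ t.succ)) =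
        1 / dg adj (g (σ t.castSucc)) := by
      intro t
      simp only [hT]
      have h1 := hv t
      rcases h1 with ⟨h1, h2⟩ | ⟨h1, h2⟩
      · rw [hGv, hGv] at h2
        have h3 : ¬ σ t.succ < σ t.castSucc := by
          intro h4
          have h5 : ((σ t.succ : Fin (m + 1)) : ℕ) < σ t.castSucc := h4
          omega
        rw [if_neg h3, Rearr_ind_true h2]
      · rw [hGv, hGv] at h2
        have h3 : σ t.succ < σ t.castSucc := h1
        rw [if_pos h3, Rearr_ind_true h2]
    rw [prod_congr rfl fun t _ => hTv t]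
    -- the product of `1 / dg` over all but the last
    have hp1 : (∏ t : Fin m, 1 / dg adj (g (σ t.castSucc))) =
        (∏ i : Fin (m + 1), 1 / dg adj (g i)) * dg adj (g (σ (Fin.last m))) := by
      rw [← Equiv.prod_comp σ (fun i => 1 / dg adj (g i)), Fin.prod_univ_castSucc]
      have := (hpos (g (σ (Fin.last m)))).ne'
      rw [mul_assoc, one_div_mul_cancel this, mul_one]
    have hp2 : (∏ i : Fin (m + 1), 1 / dg adj (g i)) =
        (∏ i : Fin m, 1 / dg adj (g i.castSucc)) * (1 / dg adj (g (Fin.last m))) :=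
      Fin.prod_univ_castSucc _
    have hK1 : (∏ i : Fin m, Kb adj (g i.castSucc) (g i.succ)) ≤
        ∏ i : Fin m, 1 / dg adj (g i.castSucc) := by
      refine prod_le_prod (fun i _ => h.knn _ _) fun i _ => ?_
      unfold Kb
      split_ifs
      · exact le_rfl
      · exact div_nonneg zero_le_one (hpos _).le
    rw [hp1, hp2]
    have e1 : π (g 0) * (∏ i : Fin m, Kb adj (g i.castSucc) (g i.succ)) *
        (dg adj (g (σ (Fin.last m))) / dg adj (g (Fin.last m)) * (π (g (σ 0)) / π (g 0))) =
        (∏ i : Fin m, Kb adj (g i.castSucc) (g i.succ)) *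
          (dg adj (g (σ (Fin.last m))) / dg adj (g (Fin.last m)) * π (g (σ 0))) := by
      have := h0.ne'
      field_simp
    rw [e1]
    have h3 : 0 ≤ dg adj (g (σ (Fin.last m))) / dg adj (g (Fin.last m)) * π (g (σ 0)) :=
      mul_nonneg (div_nonneg (hpos _).le (hpos _).le) (h.pnn _)
    refine (mul_le_mul_of_nonneg_right hK1 h3).trans (le_of_eq ?_)
    ring
  · rw [Rearr_ind_false hv, mul_zero, mul_zero]
    exact hR

/-! ### Windows and lists -/

theorem des_eq (w : List ℕ) (m : ℕ) (hm : w.length = m + 1) :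
    des w = ∑ t : Fin m, if w[(t : ℕ) + 1]'(by have := t.2; omega) <
      w[(t : ℕ)]'(by have := t.2; omega) then 1 else 0 := by
  induction w generalizing m with
  | nil => simp at hm
  | cons i l ih =>
    rcases l with _ | ⟨j, l⟩
    · have : m = 0 := by simpa using hm.symm
      subst this
      rfl
    · rcases m with _ | m
      · simp at hm
      · have hm' : (j :: l).length = m + 1 := by simpa using hm
        rw [Fin.sum_univ_succ]
        show (if j < i then 1 else 0) + des (j :: l) = _
        rw [ih m hm']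
        rfl

theorem rearr (adj : V → V → Prop) (π : V → ℝ) (h : Chain (Kb adj) π)
    (hpos : ∀ v, 0 < dg adj v) (γ : ℝ) (hγ : ∀ v, n2 adj v ≤ γ * dg adj v) (a b W : ℕ)
    (hbW : b ≤ W) (w : List ℕ) (hw : w ≠ []) (hnd : w.Nodup)
    (hmem : ∀ x, x ∈ w ↔ a ≤ x ∧ x ≤ b) :
    Ep (Kb adj) π W (fun g => dg adj (g (w.getLast hw)) / dg adj (g b) *
      (π (g (w.head hw)) / π (g a)) * ind (w.IsChain (StepOK adj g))) ≤ γ ^ des w := by
  classical
  have hab : a ≤ b := by
    obtain ⟨x, hx⟩ := List.exists_mem_of_ne_nil w hw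
    have := (hmem x).1 hx
    omega
  obtain ⟨m, rfl⟩ := Nat.exists_eq_add_of_le hab
  obtain ⟨c, rfl⟩ := Nat.exists_eq_add_of_le hbW
  have hlen : w.length = m + 1 := by
    have h1 : w.toFinset = Finset.Icc a (a + m) := by
      ext x
      rw [List.mem_toFinset, hmem, Finset.mem_Icc]
    have h2 := List.toFinset_card_of_nodup hnd
    rw [h1, Nat.card_Icc] at h2
    omega
  have hσlt : ∀ t : Fin (m + 1), w[(t : ℕ)]'(by have := t.2; omega) - a < m + 1 := by
    intro t
    have := (hmem _).1 (List.getElem_mem (l := w) (n := (t : ℕ)) (by have := t.2; omega))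
    omega
  set σ0 : Fin (m + 1) → Fin (m + 1) := fun t => ⟨w[(t : ℕ)]'(by have := t.2; omega) - a, hσlt t⟩
    with hσ0
  have hinj : Function.Injective σ0 := by
    intro t t' htt
    simp only [hσ0, Fin.mk.injEq] at htt
    have h1 := (hmem _).1 (List.getElem_mem (l := w) (n := (t : ℕ)) (by have := t.2; omega))
    have h2 := (hmem _).1 (List.getElem_mem (l := w) (n := (t' : ℕ)) (by have := t'.2; omega))
    have h3 : w[(t : ℕ)]'(by have := t.2; omega) = w[(t' : ℕ)]'(by have := t'.2; omega) := by omega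
    exact Fin.ext ((List.Nodup.getElem_inj_iff hnd).1 h3)
  set σ : Equiv.Perm (Fin (m + 1)) :=
    Equiv.ofBijective σ0 (Finite.injective_iff_bijective.1 hinj) with hσ
  have hσv : ∀ t : Fin (m + 1), a + (σ t : ℕ) = w[(t : ℕ)]'(by have := t.2; omega) := by
    intro t
    have h1 := (hmem _).1 (List.getElem_mem (l := w) (n := (t : ℕ)) (by have := t.2; omega))
    show a + (w[(t : ℕ)]'(by have := t.2; omega) - a) = _
    omega
  have hlast : w.getLast hw = a + (σ (Fin.last m) : ℕ) := by
    rw [hσv, List.getLast_eq_getElem]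
    congr 1
    simp [hlen]
  have hhead : w.head hw = a + (σ 0 : ℕ) := by
    rw [hσv, List.head_eq_getElem]
    rfl
  set F : (ℕ → V) → ℝ := fun g => dg adj (g (σ (Fin.last m))) / dg adj (g m) *
      (π (g (σ 0)) / π (g 0)) *
      ind (∀ t : Fin m, StepOK adj g (σ t.castSucc) (σ t.succ)) with hF
  have hfun : (fun g : ℕ → V => dg adj (g (w.getLast hw)) / dg adj (g (a + m)) *
      (π (g (w.head hw)) / π (g a)) * ind (w.IsChain (StepOK adj g))) =
      fun g => F (fun i => g (a + i)) := by
    funext g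
    simp only [hF]
    rw [hlast, hhead]
    have e0 : g (a + 0) = g a := rfl
    rw [e0]
    congr 1
    congr 1
    rw [List.isChain_iff_getElem]
    apply propext
    constructor
    · intro hc t
      have h1 := hc (t : ℕ) (by have := t.2; omega)
      have e1 := hσv t.castSucc
      have e2 := hσv t.succ
      simp only [Fin.val_castSucc, Fin.val_succ] at e1 e2
      rw [← e1, ← e2] at h1
      rcases h1 with ⟨h1, h2⟩ | ⟨h1, h2⟩
      · exact Or.inl ⟨by omega, h2⟩
      · exact Or.inr ⟨by omega, h2⟩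
    · intro hc i hi
      have h1 := hc ⟨i, by omega⟩
      have e1 := hσv (Fin.castSucc ⟨i, by omega⟩)
      have e2 := hσv (Fin.succ ⟨i, by omega⟩)
      simp only [Fin.val_castSucc, Fin.val_succ] at e1 e2
      rw [← e1, ← e2]
      rcases h1 with ⟨h1, h2⟩ | ⟨h1, h2⟩
      · exact Or.inl ⟨by omega, h2⟩
      · exact Or.inr ⟨by omega, h2⟩
  rw [hfun]
  have e3 : a + m + c = a + (m + c) := by omega
  rw [e3, Ep_shift h a (m + c) F, Ep_trunc h m c F ?_]
  · have h1 := rearr_fin adj π h hpos γ hγ m σ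
    have h2 : (univ.filter fun t : Fin m => σ t.succ < σ t.castSucc).card = des w := by
      rw [des_eq w m hlen, Finset.card_filter]
      refine sum_congr rfl fun t _ => ?_
      have e1 := hσv t.castSucc
      have e2 := hσv t.succ
      simp only [Fin.val_castSucc, Fin.val_succ] at e1 e2
      have h3 : (σ t.succ < σ t.castSucc) ↔ (w[(t : ℕ) + 1]'(by have := t.2; omega) <
          w[(t : ℕ)]'(by have := t.2; omega)) := by
        rw [← e1, ← e2, Fin.lt_def]
        omega
      simp only [h3]
    rw [h2] at h1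
    exact h1
  · intro g g' hgg
    have hg : ∀ t : Fin (m + 1), g t = g' t := fun t => hgg _ (by have := t.2; omega)
    simp only [hF]
    rw [hg, hg, hgg m le_rfl, hgg 0 (Nat.zero_le _)]
    congr 1
    congr 1
    apply propext
    constructor
    · intro hc t
      have h1 := hc t
      unfold StepOK at h1 ⊢
      rwa [hg, hg] at h1
    · intro hc t
      have h1 := hc t
      unfold StepOK at h1 ⊢
      rwa [hg, hg]

/-- The probability form. -/
theorem rearr_prob (adj : V → V → Prop) (π : V → ℝ) (h : Chain (Kb adj) π)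
    (hpos : ∀ v, 0 < dg adj v) (γ : ℝ) (hγ : ∀ v, n2 adj v ≤ γ * dg adj v) (a b W : ℕ)
    (hbW : b ≤ W) (w : List ℕ) (hw : w ≠ []) (hnd : w.Nodup)
    (hmem : ∀ x, x ∈ w ↔ a ≤ x ∧ x ≤ b) (L : ℝ) (hL : 0 ≤ L) :
    Ep (Kb adj) π W (fun g => ind (w.IsChain (StepOK adj g) ∧
      dg adj (g b) * π (g a) ≤ L * (dg adj (g (w.getLast hw)) * π (g (w.head hw))))) ≤
      L * γ ^ des w := by
  refine (Ep_markov h W _ (fun g => dg adj (g (w.getLast hw)) / dg adj (g b) *
      (π (g (w.head hw)) / π (g a)) * ind (w.IsChain (StepOK adj g))) L hL ?_ ?_).trans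
    (mul_le_mul_of_nonneg_left (rearr adj π h hpos γ hγ a b W hbW w hw hnd hmem) hL)
  · intro g _ _
    exact mul_nonneg (mul_nonneg (div_nonneg (hpos _).le (hpos _).le)
      (div_nonneg (h.pnn _) (h.pnn _))) (Rearr_ind_nonneg _)
  · intro g h0 hg hB
    have hab : a ≤ b := by
      obtain ⟨x, hx⟩ := List.exists_mem_of_ne_nil w hw
      have := (hmem x).1 hx
      omega
    have hpa : 0 < π (g a) := pi_pos h W g h0 hg a (by omega)
    rw [Rearr_ind_true hB.1, mul_one]
    have hdb := hpos (g b)
    have e1 : L * (dg adj (g (w.getLast hw)) / dg adj (g b) * (π (g (w.head hw)) / π (g a))) =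
        L * (dg adj (g (w.getLast hw)) * π (g (w.head hw))) / (dg adj (g b) * π (g a)) := by
      have := hdb.ne'
      have := hpa.ne'
      field_simp
    rw [e1, le_div_iff₀ (mul_pos hdb hpa), one_mul]
    exact hB.2

end Pool.Agent.Sul
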