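import Pool.Agent.Sul.Par

/-!
# MP_109285_co: approximate Sullivan vertices in all oriented graphs

Every oriented graph on `n ≥ 1` vertices has a vertex `v` with
`|N2+(v)| ≥ exp (-(100 + 20 √(log n))) |N-(v)|`, and if all in-degrees are at least `d > 0` then it has
a vertex `v` with `|N2+(v)| ≥ exp (-(100 + 20 √(log (n / d)))) |N-(v)|`; in particular the loss is an
absolute constant if all in-degrees are at least `n / K` for a constant `K`.
-/

set_option autoImplicit false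

namespace Pool.Agent.Results.MP_109285_co.SqrtLogLoss

theorem result (n : ℕ) (adj : Fin n → Fin n → Prop) (hn : 0 < n)
    (has : ∀ x y, adj x y → ¬ adj y x) :
    (∃ v, Real.exp (-(100 + 20 * √(Real.log n))) * ({u | adj u v}.ncard : ℝ) ≤
      ({w | w ≠ v ∧ ¬ adj v w ∧ ∃ u, adj v u ∧ adj u w}.ncard : ℝ)) ∧
    ∀ d : ℝ, 0 < d → (∀ v, d ≤ ({u | adj u v}.ncard : ℝ)) →
      ∃ v, Real.exp (-(100 + 20 * √(Real.log (n / d)))) * ({u | adj u v}.ncard : ℝ) ≤
        ({w | w ≠ v ∧ ¬ adj v w ∧ ∃ u, adj v u ∧ adj u w}.ncard : ℝ) := by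
  refine ⟨?_, fun d hd hdeg => Pool.Agent.Sul.final n adj hn has d hd hdeg⟩
  by_cases h0 : ∃ v, ({u | adj u v} : Set (Fin n)).ncard = 0
  · obtain ⟨v, hv⟩ := h0
    refine ⟨v, ?_⟩
    rw [hv]
    simp
  · push Not at h0
    have h1 : ∀ v, (1 : ℝ) ≤ ({u | adj u v}.ncard : ℝ) := by
      intro v
      have h2 : 1 ≤ ({u | adj u v} : Set (Fin n)).ncard := Nat.one_le_iff_ne_zero.2 (h0 v)
      exact_mod_cast h2
    have h3 := Pool.Agent.Sul.final n adj hn has 1 one_pos h1
    rw [div_one] at h3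
    exact h3

end Pool.Agent.Results.MP_109285_co.SqrtLogLoss
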