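import Pool.Agent.Sul.CM

/-!
# MP_109285_co, module Win: the length of a window with bounded ranges and without long cliques
-/

set_option autoImplicit false

namespace Pool.Agent.Sul

private theorem Win_pow (s k : ℕ) :
    (2 ^ (s + 1) - 1) * (k + 1) = 2 * ((2 ^ s - 1) * (k + 1)) + (k + 1) := by
  obtain ⟨m, hm⟩ : ∃ m, 2 ^ s = m + 1 := ⟨2 ^ s - 1, by have := Nat.one_le_two_pow (n := s); omega⟩
  have h1 : 2 ^ (s + 1) - 1 = 2 * m + 1 := by rw [pow_succ, hm]; omega
  rw [h1, hm, Nat.add_sub_cancel]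
  ring

private theorem Win_lt {x y : ℕ → ℝ} {M : ℝ} {i j : ℕ} (h : Gc x y M i j) : i < j := by
  induction h with
  | unit i => omega
  | right i j _ _ ih => omega
  | left i j _ _ ih => omega

/-- Induction on `s = a + b`. `N = q - p` is the number of indices in `[p, q)`. If `p = q` trivial. If
`a = 0` or `b = 0`, the range is empty, so `p = q`. Otherwise `a = a'+1`, `b = b'+1`. Let `p'` be the
least index in `[p, q)` with `y p' < η + δ` (if none: the window satisfies the hypotheses with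
`η + δ`, `b'`, and the induction hypothesis gives the bound), `q'` the largest index in `[p, q)` with
`x q' < ξ + δ` (if none: same with `ξ + δ`, `a'`). `[p, p')` satisfies the hypotheses with `η + δ, b'`
and `[q'+1, q)` satisfies the hypotheses with `ξ + δ, a'`: both have at most
`(2^(a+b-1) - 1)(k+1)` elements. If `p' ≤ q'` then `[p', q']` is a clique by `CM` (`y p' < η + δ ≤
y j + δ` and `x q' < ξ + δ ≤ x j + δ`), so `q' ≤ p' + k`, and
`q - p ≤ 2 (2^(a+b-1) - 1)(k+1) + (k+1) = (2^(a+b) - 1)(k+1)`. If `p' > q'` the two windows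
`[p, p')`, `[q'+1, q)` cover `[p, q)`. -/
theorem window (x y : ℕ → ℝ) (M T δ : ℝ) (hT : 0 ≤ T) (hTδ : T ≤ δ) (hM : 2 * δ < M) (k P Q : ℕ)
    (hf : Feas x y M T P Q)
    (hcl : ∀ i j, P ≤ i → i ≤ j → j ≤ Q → Cliq x y M i j → j ≤ i + k) (s : ℕ) :
    ∀ a b : ℕ, a + b = s → ∀ ξ η : ℝ, ∀ p q, P ≤ p → p ≤ q → q ≤ Q + 1 →
      (∀ j, p ≤ j → j < q → ξ ≤ x j ∧ x j < ξ + a * δ ∧ η ≤ y j ∧ y j < η + b * δ) →
      q - p ≤ (2 ^ (a + b) - 1) * (k + 1) := by
  classical
  induction s with
  | zero =>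
    intro a b hab ξ η p q hPp hpq hqQ hj
    have ha : a = 0 := by omega
    rcases Nat.eq_or_lt_of_le hpq with h | h
    · rw [h, Nat.sub_self]
      exact Nat.zero_le _
    · exfalso
      obtain ⟨h1, h2, -, -⟩ := hj p le_rfl h
      rw [ha] at h2
      simp only [Nat.cast_zero, zero_mul, add_zero] at h2
      linarith
  | succ s ih =>
    intro a b hab ξ η p q hPp hpq hqQ hj
    have hX := Win_pow s k
    rw [hab]
    rcases Nat.eq_or_lt_of_le hpq with h | h
    · rw [h, Nat.sub_self]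
      exact Nat.zero_le _
    obtain ⟨a', rfl⟩ : ∃ a', a = a' + 1 := by
      rcases a with _ | a'
      · exfalso
        obtain ⟨h1, h2, -, -⟩ := hj p le_rfl h
        simp only [Nat.cast_zero, zero_mul, add_zero] at h2
        linarith
      · exact ⟨a', rfl⟩
    obtain ⟨b', rfl⟩ : ∃ b', b = b' + 1 := by
      rcases b with _ | b'
      · exfalso
        obtain ⟨-, -, h1, h2⟩ := hj p le_rfl h
        simp only [Nat.cast_zero, zero_mul, add_zero] at h2
        linarith
      · exact ⟨b', rfl⟩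
    -- low places of `y`
    by_cases hy : ∃ j, p ≤ j ∧ j < q ∧ y j < η + δ
    swap
    · have h1 := ih (a' + 1) b' (by omega) ξ (η + δ) p q hPp hpq hqQ (by
        intro j hj1 hj2
        obtain ⟨e1, e2, e3, e4⟩ := hj j hj1 hj2
        refine ⟨e1, e2, ?_, ?_⟩
        · by_contra hc
          exact hy ⟨j, hj1, hj2, not_le.1 hc⟩
        · push_cast at e4
          linarith)
      rw [show a' + 1 + b' = s by omega] at h1
      omega
    by_cases hx : ∃ j, p ≤ j ∧ j < q ∧ x j < ξ + δ
    swap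
    · have h1 := ih a' (b' + 1) (by omega) (ξ + δ) η p q hPp hpq hqQ (by
        intro j hj1 hj2
        obtain ⟨e1, e2, e3, e4⟩ := hj j hj1 hj2
        refine ⟨?_, ?_, e3, e4⟩
        · by_contra hc
          exact hx ⟨j, hj1, hj2, not_le.1 hc⟩
        · push_cast at e2
          linarith)
      rw [show a' + (b' + 1) = s by omega] at h1
      omega
    obtain ⟨p', hp1, hp2, hp3, hp4⟩ : ∃ p', p ≤ p' ∧ p' < q ∧ y p' < η + δ ∧
        ∀ j, p ≤ j → j < p' → ¬ y j < η + δ := by
      refine ⟨Nat.find hy, (Nat.find_spec hy).1, (Nat.find_spec hy).2.1, (Nat.find_spec hy).2.2, ?_⟩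
      intro j hj1 hj2 hj3
      exact Nat.find_min hy hj2 ⟨hj1, lt_trans hj2 (Nat.find_spec hy).2.1, hj3⟩
    obtain ⟨q', hq1, hq2, hq3, hq4⟩ : ∃ q', p ≤ q' ∧ q' < q ∧ x q' < ξ + δ ∧
        ∀ j, q' < j → j < q → ¬ x j < ξ + δ := by
      obtain ⟨j0, hj0⟩ := hx
      have hne : ((Finset.Ico p q).filter fun j => x j < ξ + δ).Nonempty :=
        ⟨j0, by simp only [Finset.mem_filter, Finset.mem_Ico]; exact ⟨⟨hj0.1, hj0.2.1⟩, hj0.2.2⟩⟩
      have h1 := Finset.max'_mem _ hne
      simp only [Finset.mem_filter, Finset.mem_Ico] at h1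
      refine ⟨_, h1.1.1, h1.1.2, h1.2, ?_⟩
      intro j hj1 hj2 hj3
      have h2 : j ∈ (Finset.Ico p q).filter fun j => x j < ξ + δ := by
        simp only [Finset.mem_filter, Finset.mem_Ico]
        exact ⟨⟨le_trans h1.1.1 hj1.le, hj2⟩, hj3⟩
      exact absurd (Finset.le_max' _ _ h2) (not_le.2 hj1)
    have h1 := ih (a' + 1) b' (by omega) ξ (η + δ) p p' hPp hp1 (by omega) (by
      intro j hj1 hj2
      obtain ⟨e1, e2, e3, e4⟩ := hj j hj1 (by omega)
      refine ⟨e1, e2, not_lt.1 (hp4 j hj1 hj2), ?_⟩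
      push_cast at e4
      linarith)
    rw [show a' + 1 + b' = s by omega] at h1
    have h2 := ih a' (b' + 1) (by omega) (ξ + δ) η (q' + 1) q (by omega) (by omega) hqQ (by
      intro j hj1 hj2
      obtain ⟨e1, e2, e3, e4⟩ := hj j (by omega) hj2
      refine ⟨not_lt.1 (hq4 j (by omega) hj2), ?_, e3, e4⟩
      push_cast at e2
      linarith)
    rw [show a' + (b' + 1) = s by omega] at h2
    rcases le_or_gt p' q' with hpq' | hpq'
    · have hc : Cliq x y M p' q' := by
        apply CM x y M T δ hT hTδ hM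
        · intro i j hi hj' hG
          exact hf i j (by omega) (by omega) hG
        · intro j hj1 hj2
          have := (hj j (by omega) (by omega)).2.2.1
          linarith
        · intro j hj1 hj2
          have := (hj j (by omega) (by omega)).1
          linarith
      have h3 := hcl p' q' (by omega) hpq' (by omega) hc
      omega
    · omega

/-- Transfer to a relation `A` (`A i j`: there is an arc from the `j`-th to the `i`-th vertex). `Gc ⊆ A`
on `[0, W]` by induction on `Gc`. Then `Feas` and the clique condition for `Gc` follow from those for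
`A`, and `window` applies with `P = 0`, `Q = W`, `p = 0`, `q = W + 1`. -/
theorem window_A (x y : ℕ → ℝ) (M T δ : ℝ) (hT : 0 ≤ T) (hTδ : T ≤ δ) (hM : 2 * δ < M) (k W : ℕ)
    (A : ℕ → ℕ → Prop) (hA1 : ∀ i, i < W → A i (i + 1))
    (hA2 : ∀ i j, i < j → j + 1 ≤ W → A i j → A i (j + 1) ∨ Bad x y M i (j + 1))
    (hA3 : ∀ i j, i + 1 < j → j ≤ W → A (i + 1) j → A i j ∨ Bad x y M i j)
    (hA4 : ∀ i j, i < j → j ≤ W → A i j → ∀ l, i ≤ l → l < j → x l + y (l + 1) ≤ x i + y j + T)
    (hA5 : ∀ i, i + k + 1 ≤ W → ¬ ∀ a b, i ≤ a → a < b → b ≤ i + k + 1 → A a b)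
    (a b : ℕ) (ξ η : ℝ)
    (hr : ∀ j, j ≤ W → ξ ≤ x j ∧ x j < ξ + a * δ ∧ η ≤ y j ∧ y j < η + b * δ) :
    W + 1 ≤ (2 ^ (a + b) - 1) * (k + 1) := by
  have hG : ∀ i j, Gc x y M i j → j ≤ W → A i j := by
    intro i j h
    induction h with
    | unit i => exact fun h => hA1 i (by omega)
    | right i j h hb ih =>
      intro hW
      rcases hA2 i j (Win_lt h) hW (ih (by omega)) with h1 | h1
      · exact h1
      · exact absurd h1 hb
    | left i j h hb ih =>
      intro hW
      rcases hA3 i j (Win_lt h) hW (ih hW) with h1 | h1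
      · exact h1
      · exact absurd h1 hb
  have hf : Feas x y M T 0 W := by
    intro i j _ hj hGc l hl1 hl2
    exact hA4 i j (Win_lt hGc) hj (hG i j hGc hj) l hl1 hl2
  have hcl : ∀ i j, 0 ≤ i → i ≤ j → j ≤ W → Cliq x y M i j → j ≤ i + k := by
    intro i j _ hij hj hc
    by_contra hcon
    refine hA5 i (by omega) ?_
    intro c d hc1 hcd hd
    exact hG c d (hc c d hc1 hcd (by omega)) (by omega)
  have h1 := window x y M T δ hT hTδ hM k 0 W hf hcl (a + b) a b rfl ξ η 0 (W + 1) le_rfl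
    (Nat.zero_le _) le_rfl (fun j _ hj => hr j (by omega))
  rwa [Nat.sub_zero] at h1

end Pool.Agent.Sul
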